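import Pool.Agent.LibRefl75.Delta
import Pool.Agent.LibZIS.Pairing

/-!
The singular Δ-complex of a space; it is acyclic when the space is contractible.
-/

set_option autoImplicit false

namespace Pool.Agent.LibRefl75

open Pool.Agent.LibZIS

universe u v w

lemma succAbove_comm {n : ℕ} (i j : Fin (n + 2)) (hij : i ≤ j) (k : Fin (n + 1)) :
    j.succ.succAbove (i.succAbove k) = i.castSucc.succAbove (j.succAbove k) := by
  have h := Fin.le_def.1 hij
  apply Fin.ext
  simp only [Fin.succAbove, Fin.lt_def, Fin.val_castSucc, Fin.val_succ]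
  split_ifs <;> simp_all <;> omega

lemma face_face {E : Type v} [TopologicalSpace E] {n : ℕ} (i j : Fin (n + 2)) (hij : i ≤ j)
    (x : Sing (n + 2) E) : face i (face j.succ x) = face j (face i.castSucc x) := by
  ext t
  show x (stdSimplex.map j.succ.succAbove (stdSimplex.map i.succAbove t)) =
    x (stdSimplex.map i.castSucc.succAbove (stdSimplex.map j.succAbove t))
  rw [stdSimplex.map_comp_apply, stdSimplex.map_comp_apply]
  congr 2
  funext k
  exact succAbove_comm i j hij k

/-- The singular Δ-complex of a space. -/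
noncomputable def singCx (E : Type v) [TopologicalSpace E] : DeltaCx.{v} where
  S n := Sing n E
  d i s := face i s
  d_d i j hij x := face_face i j hij x

lemma act_one {G : Type u} [Group G] {E : Type v} [TopologicalSpace E] [MulAction G E]
    [ContinuousConstSMul G E] {n : ℕ} (s : Sing n E) : act (1 : G) s = s :=
  ContinuousMap.ext fun t => one_smul G (s t)

lemma act_mul {G : Type u} [Group G] {E : Type v} [TopologicalSpace E] [MulAction G E]
    [ContinuousConstSMul G E] {n : ℕ} (g h : G) (s : Sing n E) :
    act (g * h) s = act g (act h s) :=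
  ContinuousMap.ext fun t => mul_smul g h (s t)

noncomputable instance {G : Type u} [Group G] {E : Type v} [TopologicalSpace E] [MulAction G E]
    [ContinuousConstSMul G E] (n : ℕ) : MulAction G ((singCx E).S n) where
  smul g s := act g s
  one_smul s := act_one s
  mul_smul g h s := act_mul g h s

lemma smul_sing {G : Type u} [Group G] {E : Type v} [TopologicalSpace E] [MulAction G E]
    [ContinuousConstSMul G E] {n : ℕ} (g : G) (s : (singCx E).S n) : g • s = act g s := rfl

lemma singCx_d {G : Type u} [Group G] {E : Type v} [TopologicalSpace E] [MulAction G E]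
    [ContinuousConstSMul G E] (n : ℕ) (i : Fin (n + 2)) (g : G) (x : (singCx E).S (n + 1)) :
    (singCx E).d i (g • x) = g • (singCx E).d i x := rfl

lemma singCx_free {G : Type u} [Group G] {E : Type v} [TopologicalSpace E] [MulAction G E]
    [ContinuousConstSMul G E] (hfree : ∀ (g : G) (e : E), g • e = e → g = 1) (n : ℕ) (g : G)
    (x : (singCx E).S n) (h : g • x = x) : g = 1 :=
  hfree g (vtx x 0) (congrArg (fun s : Sing n E => vtx s 0) h)

/-! ### the cone -/

/-- The join of a point with a simplex. -/
noncomputable def jn {n : ℕ} (p : unitInterval × stdSimplex ℝ (Fin (n + 1))) :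
    stdSimplex ℝ (Fin (n + 2)) :=
  ⟨Fin.cons (p.1 : ℝ) (fun k => (1 - (p.1 : ℝ)) * p.2 k), by
    constructor
    · intro k
      refine Fin.cases ?_ (fun k => ?_) k
      · exact p.1.2.1
      · simp only [Fin.cons_succ]
        exact mul_nonneg (sub_nonneg.2 p.1.2.2) (p.2.2.1 k)
    · rw [Fin.sum_univ_succ]
      simp only [Fin.cons_zero, Fin.cons_succ]
      rw [← Finset.mul_sum, stdSimplex.sum_eq_one]
      ring⟩

lemma jn_zero {n : ℕ} (p : unitInterval × stdSimplex ℝ (Fin (n + 1))) : jn p 0 = (p.1 : ℝ) :=
  rfl

lemma jn_succ {n : ℕ} (p : unitInterval × stdSimplex ℝ (Fin (n + 1))) (k : Fin (n + 1)) :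
    jn p k.succ = (1 - (p.1 : ℝ)) * p.2 k := rfl

lemma continuous_jn {n : ℕ} : Continuous (jn (n := n)) := by
  refine Continuous.subtype_mk (continuous_pi fun k => ?_) _
  refine Fin.cases ?_ (fun k => ?_) k
  · simp only [Fin.cons_zero]
    exact continuous_subtype_val.comp continuous_fst
  · simp only [Fin.cons_succ]
    exact (continuous_const.sub (continuous_subtype_val.comp continuous_fst)).mul
      ((continuous_apply k).comp (continuous_subtype_val.comp continuous_snd))

lemma jn_surjective {n : ℕ} : Function.Surjective (jn (n := n)) := by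
  intro t
  have h0 : t 0 ∈ Set.Icc (0 : ℝ) 1 := ⟨stdSimplex.zero_le t 0, stdSimplex.le_one t 0⟩
  by_cases h1 : t 0 = 1
  · refine ⟨(1, stdSimplex.vertex 0), ?_⟩
    apply Subtype.ext
    funext k
    have hsum := stdSimplex.sum_eq_one t
    rw [Fin.sum_univ_succ, h1] at hsum
    have hz : ∀ k : Fin (n + 1), t k.succ = 0 := by
      have : ∑ k : Fin (n + 1), t k.succ = 0 := by linarith
      rw [Finset.sum_eq_zero_iff_of_nonneg (fun k _ => stdSimplex.zero_le t _)] at this
      intro k
      exact this k (Finset.mem_univ _)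
    refine Fin.cases ?_ (fun k => ?_) k
    · exact h1.symm
    · show (1 - ((1 : unitInterval) : ℝ)) * _ = t k.succ
      rw [hz k]
      simp
  · have h2 : 0 < 1 - t 0 := by
      have := h0.2
      rcases lt_or_eq_of_le this with h | h
      · linarith
      · exact absurd h h1
    refine ⟨(⟨t 0, h0⟩, ⟨fun k => t k.succ / (1 - t 0), ?_, ?_⟩), ?_⟩
    · intro k
      exact div_nonneg (stdSimplex.zero_le t _) h2.le
    · rw [← Finset.sum_div, div_eq_one_iff_eq h2.ne']
      have hsum := stdSimplex.sum_eq_one t
      rw [Fin.sum_univ_succ] at hsum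
      linarith
    · apply Subtype.ext
      funext k
      refine Fin.cases ?_ (fun k => ?_) k
      · rfl
      · show (1 - t 0) * (t k.succ / (1 - t 0)) = t k.succ
        rw [mul_div_cancel₀ _ h2.ne']

/-- The join, as a continuous map. -/
noncomputable def jnC (n : ℕ) : C(unitInterval × stdSimplex ℝ (Fin (n + 1)),
    stdSimplex ℝ (Fin (n + 2))) := ⟨jn, continuous_jn⟩

lemma isQuotientMap_jn {n : ℕ} : Topology.IsQuotientMap (jnC n) :=
  (continuous_jn.isClosedMap).isQuotientMap continuous_jn jn_surjective

lemma cone_aux {E : Type v} [TopologicalSpace E] {x₀ : E}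
    (H : (ContinuousMap.id E).Homotopy (ContinuousMap.const E x₀)) {n : ℕ} (s : Sing n E)
    (p q : unitInterval × stdSimplex ℝ (Fin (n + 1))) (hpq : jnC n p = jnC n q) :
    (⟨fun p => H (p.1, s p.2), by fun_prop⟩ :
      C(unitInterval × stdSimplex ℝ (Fin (n + 1)), E)) p =
    (⟨fun p => H (p.1, s p.2), by fun_prop⟩ :
      C(unitInterval × stdSimplex ℝ (Fin (n + 1)), E)) q := by
  have hpq : jn p = jn q := hpq
  have h0 : p.1 = q.1 := by
    apply Subtype.ext
    rw [← jn_zero p, ← jn_zero q]
    exact congrArg (fun t : stdSimplex ℝ (Fin (n + 2)) => t 0) hpq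
  show H (p.1, s p.2) = H (q.1, s q.2)
  by_cases h1 : p.1 = 1
  · rw [← h0, h1, H.apply_one, H.apply_one]
    rfl
  · have h2 : p.2 = q.2 := by
      apply Subtype.ext
      funext k
      have h3 := congrArg (fun t : stdSimplex ℝ (Fin (n + 2)) => t k.succ) hpq
      simp only [jn_succ] at h3
      rw [h0] at h3
      refine mul_left_cancel₀ ?_ h3
      rw [sub_ne_zero]
      intro h4
      apply h1
      rw [h0]
      exact Subtype.ext h4.symm
    rw [h0, h2]

/-- The cone over a singular simplex, along a contraction of the space. -/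
noncomputable def cone {E : Type v} [TopologicalSpace E] {x₀ : E}
    (H : (ContinuousMap.id E).Homotopy (ContinuousMap.const E x₀)) {n : ℕ} (s : Sing n E) :
    Sing (n + 1) E :=
  isQuotientMap_jn.lift (⟨fun p => H (p.1, s p.2), by fun_prop⟩ :
      C(unitInterval × stdSimplex ℝ (Fin (n + 1)), E)) (cone_aux H s)

lemma cone_jn {E : Type v} [TopologicalSpace E] {x₀ : E}
    (H : (ContinuousMap.id E).Homotopy (ContinuousMap.const E x₀)) {n : ℕ} (s : Sing n E)
    (p : unitInterval × stdSimplex ℝ (Fin (n + 1))) : cone H s (jn p) = H (p.1, s p.2) := by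
  have h := isQuotientMap_jn.lift_comp (⟨fun p => H (p.1, s p.2), by fun_prop⟩ :
      C(unitInterval × stdSimplex ℝ (Fin (n + 1)), E)) (cone_aux H s)
  exact congrArg (fun f : C(unitInterval × stdSimplex ℝ (Fin (n + 1)), E) => f p) h

lemma map_succAbove_apply {n : ℕ} (i : Fin (n + 2)) (t : stdSimplex ℝ (Fin (n + 1)))
    (k : Fin (n + 1)) : stdSimplex.map i.succAbove t (i.succAbove k) = t k := by
  rw [stdSimplex.map_coe, FunOnFinite.linearMap_apply_apply]
  rw [Finset.sum_eq_single k]
  · intro b hb hbk
    simp at hb
    exact absurd hb hbk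
  · intro h
    simp at h

lemma map_succAbove_self {n : ℕ} (i : Fin (n + 2)) (t : stdSimplex ℝ (Fin (n + 1))) :
    stdSimplex.map i.succAbove t i = 0 := by
  rw [stdSimplex.map_coe, FunOnFinite.linearMap_apply_apply]
  refine Finset.sum_eq_zero fun b hb => ?_
  simp at hb

lemma face_zero_cone {E : Type v} [TopologicalSpace E] {x₀ : E}
    (H : (ContinuousMap.id E).Homotopy (ContinuousMap.const E x₀)) {n : ℕ} (s : Sing n E) :
    face 0 (cone H s) = s := by
  ext t
  have h : stdSimplex.map (Fin.succAbove 0) t = jn (0, t) := by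
    apply Subtype.ext
    funext k
    refine Fin.cases ?_ (fun k => ?_) k
    · exact map_succAbove_self 0 t
    · have := map_succAbove_apply 0 t k
      rw [Fin.zero_succAbove] at this
      refine this.trans ?_
      show t k = (1 - ((0 : unitInterval) : ℝ)) * t k
      simp
  show cone H s (stdSimplex.map (Fin.succAbove 0) t) = s t
  rw [h, cone_jn, H.apply_zero]
  rfl

lemma face_succ_cone {E : Type v} [TopologicalSpace E] {x₀ : E}
    (H : (ContinuousMap.id E).Homotopy (ContinuousMap.const E x₀)) {n : ℕ} (i : Fin (n + 2))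
    (s : Sing (n + 1) E) : face i.succ (cone H s) = cone H (face i s) := by
  ext t
  obtain ⟨p, rfl⟩ := jn_surjective t
  have h : stdSimplex.map i.succ.succAbove (jn p) = jn (p.1, stdSimplex.map i.succAbove p.2) := by
    apply Subtype.ext
    funext k
    by_cases hk : k = i.succ
    · subst hk
      refine (map_succAbove_self i.succ (jn p)).trans ?_
      show 0 = (1 - (p.1 : ℝ)) * stdSimplex.map i.succAbove p.2 i
      rw [map_succAbove_self, mul_zero]
    · obtain ⟨l, rfl⟩ := Fin.exists_succAbove_eq hk
      refine (map_succAbove_apply i.succ (jn p) l).trans ?_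
      refine Fin.cases ?_ (fun l => ?_) l
      · rw [Fin.succ_succAbove_zero]
        rfl
      · rw [Fin.succ_succAbove_succ]
        show (1 - (p.1 : ℝ)) * p.2 l = (1 - (p.1 : ℝ)) * stdSimplex.map i.succAbove p.2
          (i.succAbove l)
        rw [map_succAbove_apply]
  show cone H s (stdSimplex.map i.succ.succAbove (jn p)) = cone H (face i s) (jn p)
  rw [h, cone_jn, cone_jn]
  rfl

lemma face_one_cone {E : Type v} [TopologicalSpace E] {x₀ : E}
    (H : (ContinuousMap.id E).Homotopy (ContinuousMap.const E x₀))
    (s : Sing 0 E) : face 1 (cone H s) = pt x₀ := by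
  ext t
  have h : stdSimplex.map (Fin.succAbove 1) t = jn (1, t) := by
    apply Subtype.ext
    funext k
    refine Fin.cases ?_ (fun k => ?_) k
    · have := map_succAbove_apply 1 t 0
      rw [show (Fin.succAbove 1 0 : Fin 2) = 0 from rfl] at this
      refine this.trans ?_
      have h1 := stdSimplex.sum_eq_one t
      rw [Fin.sum_univ_one] at h1
      exact h1
    · have hk : k = 0 := Fin.eq_zero k
      subst hk
      refine (map_succAbove_self 1 t).trans ?_
      show 0 = (1 - ((1 : unitInterval) : ℝ)) * t 0
      simp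
  show cone H s (stdSimplex.map (Fin.succAbove 1) t) = x₀
  rw [h, cone_jn, H.apply_one]
  rfl

/-- The singular Δ-complex of a contractible space is acyclic. -/
theorem singCx_acyclic (E : Type v) [TopologicalSpace E] [ContractibleSpace E] :
    Acyclic (singCx E) := by
  obtain ⟨x₀, ⟨H⟩⟩ := id_nullhomotopic E
  let C : ∀ n, (singCx E).S n → (singCx E).S (n + 1) := fun n s => cone H s
  let x₁ : (singCx E).S 0 := pt x₀
  refine ⟨⟨pt x₀⟩, fun c hc => ?_, fun n c hc => ?_⟩
  · refine ⟨Finsupp.mapDomain (C _) c, ?_⟩
    have key : ∀ c : (singCx E).S 0 →₀ ℤ, bdK (singCx E) ℤ 0 (Finsupp.mapDomain (C _) c) =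
        c - Finsupp.single x₁ (c.sum fun _ a => a) := by
      intro c
      induction c using Finsupp.induction_linear with
      | zero => simp
      | add x y hx hy =>
        rw [Finsupp.mapDomain_add, map_add, hx, hy, Finsupp.sum_add_index' (fun _ => rfl)
          (fun _ _ _ => rfl), Finsupp.single_add]
        abel
      | single s m =>
        rw [Finsupp.mapDomain_single, bdK_single, Fin.sum_univ_two, Finsupp.sum_single_index rfl]
        have e0 : (singCx E).d 0 (C _ s) = s := face_zero_cone H s
        have e1 : (singCx E).d 1 (C _ s) = x₁ := face_one_cone H s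
        rw [e0, e1]
        simp [sub_eq_add_neg]
    rw [key, hc]
    simp
  · refine ⟨Finsupp.mapDomain (C _) c, ?_⟩
    have key : ∀ c : (singCx E).S (n + 1) →₀ ℤ,
        bdK (singCx E) ℤ (n + 1) (Finsupp.mapDomain (C _) c) =
        c - Finsupp.mapDomain (C _) (bdK (singCx E) ℤ n c) := by
      intro c
      induction c using Finsupp.induction_linear with
      | zero => simp
      | add x y hx hy =>
        rw [Finsupp.mapDomain_add, map_add, hx, hy, map_add, Finsupp.mapDomain_add]
        abel
      | single s m =>
        rw [Finsupp.mapDomain_single, bdK_single, Fin.sum_univ_succ, bdK_single]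
        have e0 : (singCx E).d 0 (C _ s) = s := face_zero_cone H s
        rw [e0]
        have e1 : ∀ i : Fin (n + 2), (singCx E).d i.succ (C _ s) =
          C _ ((singCx E).d i s) := fun i => face_succ_cone H i s
        have e2 : Finsupp.mapDomain (C _) (∑ i : Fin (n + 2), (-1 : ℤ) ^ (i : ℕ) •
            Finsupp.single ((singCx E).d i s) m) = ∑ i : Fin (n + 2), (-1 : ℤ) ^ (i : ℕ) •
            Finsupp.single (C _ ((singCx E).d i s)) m := by
          have := map_sum (Finsupp.mapDomain.addMonoidHom (M := ℤ) (C n))
            (fun i : Fin (n + 2) => (-1 : ℤ) ^ (i : ℕ) • Finsupp.single ((singCx E).d i s) m)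
            Finset.univ
          refine this.trans (Finset.sum_congr rfl fun i _ => ?_)
          rw [map_zsmul]
          congr 1
          exact Finsupp.mapDomain_single
        rw [e2]
        simp only [e1, Fin.val_zero, pow_zero, one_smul, Fin.val_succ, pow_succ]
        rw [sub_eq_add_neg, ← Finset.sum_neg_distrib]
        congr 1
        refine Finset.sum_congr rfl fun i _ => ?_
        rw [mul_neg_one, neg_smul]
    rw [key, hc]
    simp

end Pool.Agent.LibRefl75
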