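import Pool.Agent.LibRefl75.Transfer
import Pool.Agent.LibRefl75.SingCx

/-!
Vanishing of the homology of `A ⊗_{ℤG} C_*(E)` in low degrees gives vanishing of the equivariant
cohomology of free acyclic Δ-complexes with coefficients in `A`-modules.
-/

set_option autoImplicit false

namespace Pool.Agent.LibRefl75

open Pool.Agent.LibZIS

universe u v w x y

variable {G : Type u} [Group G] {A : Type w} [Ring A] (ρ : G →* A)
  {E : Type v} [TopologicalSpace E] [MulAction G E] [ContinuousConstSMul G E]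

/-- Left multiplication on chains. -/
noncomputable def lm (n : ℕ) (a : A) : Ch ρ E n →+ Ch ρ E n :=
  QuotientAddGroup.map _ _ (DistribSMul.toAddMonoidHom (Sing n E →₀ A) a)
    (fun _ hc => rel_smul ρ n a hc)

lemma lm_mk (n : ℕ) (a : A) (c : Sing n E →₀ A) :
    lm ρ n a (QuotientAddGroup.mk c) = QuotientAddGroup.mk (a • c) := rfl

lemma lm_mul (n : ℕ) (a b : A) (y : Ch ρ E n) : lm ρ n (a * b) y = lm ρ n a (lm ρ n b y) := by
  obtain ⟨c, rfl⟩ := QuotientAddGroup.mk_surjective y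
  rw [lm_mk, lm_mk, lm_mk, mul_smul]

lemma dif_mk (n : ℕ) (c : Sing (n + 1) E →₀ A) :
    dif ρ E n (QuotientAddGroup.mk c) = QuotientAddGroup.mk (bd A E n c) := rfl

lemma dif_lm (n : ℕ) (a : A) (y : Ch ρ E (n + 1)) :
    dif ρ E n (lm ρ (n + 1) a y) = lm ρ n a (dif ρ E n y) := by
  obtain ⟨c, rfl⟩ := QuotientAddGroup.mk_surjective y
  rw [lm_mk, dif_mk, dif_mk, lm_mk, bd_smul]

/-- The generator `1 ⊗ s`. -/
noncomputable def gen (n : ℕ) (s : (singCx E).S n) : Ch ρ E n :=
  QuotientAddGroup.mk (Finsupp.single (show Sing n E from s) 1)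

lemma gen_act (n : ℕ) (g : G) (s : (singCx E).S n) :
    gen ρ n (g • s) = lm ρ n (ρ g) (gen ρ n s) := by
  change Sing n E at s
  show (QuotientAddGroup.mk (Finsupp.single (act g s) (1 : A)) : Ch ρ E n) =
    QuotientAddGroup.mk (ρ g • Finsupp.single s 1)
  have h : Finsupp.single (act g s) (1 : A) - Finsupp.single s (1 * ρ g) ∈ rel ρ E n :=
    AddSubgroup.subset_closure ⟨g, s, 1, rfl⟩
  symm
  rw [QuotientAddGroup.eq]
  show -(ρ g • Finsupp.single s (1 : A)) + Finsupp.single (act g s) 1 ∈ rel ρ E n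
  rw [Finsupp.smul_single, smul_eq_mul, mul_one, neg_add_eq_sub]
  rwa [one_mul] at h

lemma dif_gen (n : ℕ) (s : (singCx E).S (n + 1)) :
    dif ρ E n (gen ρ (n + 1) s) =
      ∑ i : Fin (n + 2), (-1 : ℤ) ^ (i : ℕ) • gen ρ n ((singCx E).d i s) := by
  change Sing (n + 1) E at s
  show (QuotientAddGroup.mk (bd A E n (Finsupp.single s 1)) : Ch ρ E n) = _
  rw [bd_single]
  exact map_sum (QuotientAddGroup.mk' (rel ρ E n))
    (fun i : Fin (n + 2) => (-1 : ℤ) ^ (i : ℕ) • Finsupp.single (face i s) (1 : A)) Finset.univ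

lemma dif_dif (n : ℕ) (y : Ch ρ E (n + 2)) : dif ρ E n (dif ρ E (n + 1) y) = 0 := by
  obtain ⟨c, rfl⟩ := QuotientAddGroup.mk_surjective y
  rw [dif_mk, dif_mk]
  have h : bd A E n (bd A E (n + 1) c) = 0 := bdK_bdK (singCx E) A n c
  rw [h]
  rfl

/-- The `A`-linear extension of a function on simplices to chains. -/
noncomputable def extFree {V : Type x} [AddCommGroup V] [Module A V] {n : ℕ}
    (c : Sing n E → V) : (Sing n E →₀ A) →+ V :=
  Finsupp.liftAddHom fun s => (AddMonoidHom.flip (smulAddHom A V) (c s) : A →+ V)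

omit [MulAction G E] [ContinuousConstSMul G E] in
lemma extFree_single {V : Type x} [AddCommGroup V] [Module A V] {n : ℕ}
    (c : Sing n E → V) (s : Sing n E) (m : A) :
    extFree (A := A) c (Finsupp.single s m) = m • c s := by
  rw [extFree, Finsupp.liftAddHom_apply_single]
  rfl

/-- The `A`-linear extension of an equivariant function on simplices. -/
noncomputable def extA {V : Type x} [AddCommGroup V] [Module A V] {n : ℕ}
    (c : (singCx E).S n → V) (hc : ∀ (g : G) s, c (g • s) = ρ g • c s) : Ch ρ E n →+ V :=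
  QuotientAddGroup.lift (rel ρ E n) (extFree (A := A) (E := E) (n := n) c) (by
    rw [rel, AddSubgroup.closure_le]
    rintro _ ⟨g, s, m, rfl⟩
    have h1 : c (act g s) = ρ g • c s := hc g s
    have h2 := extFree_single (A := A) (E := E) (n := n) c (act g s) m
    have h3 := extFree_single (A := A) (E := E) (n := n) c s (m * ρ g)
    refine (map_sub (extFree (A := A) (E := E) (n := n) c) _ _).trans ?_
    rw [h2, h3, h1, mul_smul, sub_self])

lemma extA_mk_single {V : Type x} [AddCommGroup V] [Module A V] {n : ℕ}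
    (c : (singCx E).S n → V) (hc : ∀ (g : G) s, c (g • s) = ρ g • c s) (s : Sing n E) (m : A) :
    extA ρ c hc (QuotientAddGroup.mk (Finsupp.single s m)) = m • c s :=
  extFree_single (A := A) (E := E) (n := n) c s m

lemma extA_gen {V : Type x} [AddCommGroup V] [Module A V] {n : ℕ}
    (c : (singCx E).S n → V) (hc : ∀ (g : G) s, c (g • s) = ρ g • c s) (s : (singCx E).S n) :
    extA ρ c hc (gen ρ n s) = c s := by
  rw [gen, extA_mk_single, one_smul]

lemma extA_lm {V : Type x} [AddCommGroup V] [Module A V] {n : ℕ}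
    (c : (singCx E).S n → V) (hc : ∀ (g : G) s, c (g • s) = ρ g • c s) (a : A) (y : Ch ρ E n) :
    extA ρ c hc (lm ρ n a y) = a • extA ρ c hc y := by
  obtain ⟨z, rfl⟩ := QuotientAddGroup.mk_surjective y
  rw [lm_mk]
  induction z using Finsupp.induction_linear with
  | zero =>
    rw [smul_zero]
    have : (QuotientAddGroup.mk (0 : Sing n E →₀ A) : Ch ρ E n) = 0 := rfl
    rw [this, map_zero, smul_zero]
  | add x y hx hy =>
    rw [smul_add, QuotientAddGroup.mk_add, map_add, hx, hy, QuotientAddGroup.mk_add, map_add,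
      smul_add]
  | single s m => rw [Finsupp.smul_single, extA_mk_single, extA_mk_single, smul_eq_mul, mul_smul]

lemma extA_dif {V : Type x} [AddCommGroup V] [Module A V] {n : ℕ}
    (c : (singCx E).S n → V) (hc : ∀ (g : G) s, c (g • s) = ρ g • c s) (hc0 : cobV (singCx E) c = 0)
    (y : Ch ρ E (n + 1)) : extA ρ c hc (dif ρ E n y) = 0 := by
  obtain ⟨z, rfl⟩ := QuotientAddGroup.mk_surjective y
  rw [dif_mk]
  induction z using Finsupp.induction_linear with
  | zero =>
    rw [map_zero]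
    have : (QuotientAddGroup.mk (0 : Sing n E →₀ A) : Ch ρ E n) = 0 := rfl
    rw [this, map_zero]
  | add x y hx hy =>
    rw [map_add, QuotientAddGroup.mk_add, map_add, hx, hy, add_zero]
  | single s m =>
    rw [bd_single]
    have h1 := map_sum (QuotientAddGroup.mk' (rel ρ E n))
      (fun i : Fin (n + 2) => (-1 : ℤ) ^ (i : ℕ) • Finsupp.single (face i s) m) Finset.univ
    have h2 : (QuotientAddGroup.mk (∑ i : Fin (n + 2), (-1 : ℤ) ^ (i : ℕ) •
      Finsupp.single (face i s) m) : Ch ρ E n) = ∑ i : Fin (n + 2), (-1 : ℤ) ^ (i : ℕ) •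
      (QuotientAddGroup.mk (Finsupp.single (face i s) m) : Ch ρ E n) := h1
    rw [h2, map_sum]
    simp only [map_zsmul, extA_mk_single]
    have h3 := congrFun hc0 s
    have h4 : ∑ i : Fin (n + 2), (-1 : ℤ) ^ (i : ℕ) • c (face i s) = 0 := h3
    have h5 : ∀ i : Fin (n + 2), (-1 : ℤ) ^ (i : ℕ) • m • c (face i s) =
      m • ((-1 : ℤ) ^ (i : ℕ) • c (face i s)) := fun i => smul_comm _ _ _
    simp only [h5]
    rw [← Finset.smul_sum, h4, smul_zero]

lemma hgy_zero (h : ¬ Nontrivial (Hgy ρ E 0)) (x : Ch ρ E 0) : ∃ y, dif ρ E 0 y = x := by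
  rw [not_nontrivial_iff_subsingleton] at h
  have : (QuotientAddGroup.mk x : Ch ρ E 0 ⧸ (dif ρ E 0).range) = QuotientAddGroup.mk 0 :=
    h.elim _ _
  rw [QuotientAddGroup.eq] at this
  simpa using this

lemma hgy_succ (n : ℕ) (h : ¬ Nontrivial (Hgy ρ E (n + 1))) (x : Ch ρ E (n + 1))
    (hx : dif ρ E n x = 0) : ∃ y, dif ρ E (n + 1) y = x := by
  rw [not_nontrivial_iff_subsingleton] at h
  have : (QuotientAddGroup.mk (⟨x, hx⟩ : (dif ρ E n).ker) :
    (dif ρ E n).ker ⧸ ((dif ρ E (n + 1)).range.addSubgroupOf (dif ρ E n).ker)) =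
      QuotientAddGroup.mk 0 := h.elim _ _
  rw [QuotientAddGroup.eq] at this
  rw [AddSubgroup.mem_addSubgroupOf] at this
  simpa using this

/-- The contraction of `A ⊗ C_*(E)` in low degrees. -/
lemma contraction (hfree : ∀ (g : G) (e : E), g • e = e → g = 1) (d : ℕ)
    (h : ∀ i ≤ d, ¬ Nontrivial (Hgy ρ E i)) :
    ∃ F : ∀ n, (singCx E).S n → Ch ρ E (n + 1),
      (∀ n (g : G) x, F n (g • x) = lm ρ (n + 1) (ρ g) (F n x)) ∧
      (∀ x, dif ρ E 0 (F 0 x) = gen ρ 0 x) ∧
      ∀ n < d, ∀ x, dif ρ E (n + 1) (F (n + 1) x) = gen ρ (n + 1) x -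
        ∑ i : Fin (n + 2), (-1 : ℤ) ^ (i : ℕ) • F n ((singCx E).d i x) := by
  have hτ : ∀ n (g h : G) (y : Ch ρ E n), lm ρ n (ρ (g * h)) y = lm ρ n (ρ g) (lm ρ n (ρ h) y) :=
    fun n g h y => by rw [map_mul, lm_mul]
  obtain ⟨F0, hF0, hF0'⟩ := exists_equivariant (singCx_free hfree 0)
    (fun g (y : Ch ρ E 1) => lm ρ 1 (ρ g) y) (hτ 1)
    (fun x y => dif ρ E 0 y = gen ρ 0 x)
    (fun g x y hy => by rw [dif_lm, hy, gen_act])
    (fun x => hgy_zero ρ (h 0 (Nat.zero_le _)) _)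
  obtain ⟨F, hF, hFe, hFd⟩ := ladder (singCx E) singCx_d (singCx_free hfree)
    (fun n => Ch ρ E (n + 1)) (fun n g => lm ρ (n + 1) (ρ g)) (fun n => hτ (n + 1))
    (fun n => dif ρ E (n + 1)) (fun n g y => dif_lm ρ (n + 1) (ρ g) y) (-1) F0 hF0
    (fun n x => gen ρ (n + 1) x) (fun n g x => gen_act ρ (n + 1) g x) d
    (fun hd x => by
      apply hgy_succ ρ 0 (h 1 hd)
      rw [map_add, map_zsmul, map_sum, dif_gen]
      simp only [map_zsmul, hF0']
      rw [neg_one_smul]
      exact add_neg_cancel _)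
    (fun n _ x => by
      rw [dif_gen, neg_one_smul, neg_neg])
    (fun n hn z hz => hgy_succ ρ (n + 1) (h (n + 2) hn) z hz)
  refine ⟨F, hFe, fun x => by rw [hF]; exact hF0' x, fun n hn x => ?_⟩
  rw [hFd n hn x, neg_one_smul, ← sub_eq_add_neg]

theorem sing_zero (hfree : ∀ (g : G) (e : E), g • e = e → g = 1)
    (h : ¬ Nontrivial (Hgy ρ E 0)) {V : Type x} [AddCommGroup V] [Module A V]
    (c : (singCx E).S 0 → V) (hc : ∀ (g : G) x, c (g • x) = ρ g • c x)
    (hc0 : cobV (singCx E) c = 0) : c = 0 := by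
  obtain ⟨F, -, hF0, -⟩ := contraction ρ hfree 0 (fun i hi => by
    obtain rfl : i = 0 := by omega
    exact h)
  funext x
  have h1 := congrArg (extA ρ c hc) (hF0 x)
  rw [extA_dif ρ c hc hc0, extA_gen] at h1
  exact h1.symm

theorem sing_succ (hfree : ∀ (g : G) (e : E), g • e = e → g = 1) (k : ℕ)
    (h : ∀ i ≤ k + 1, ¬ Nontrivial (Hgy ρ E i)) {V : Type x} [AddCommGroup V] [Module A V]
    (c : (singCx E).S (k + 1) → V) (hc : ∀ (g : G) x, c (g • x) = ρ g • c x)
    (hc0 : cobV (singCx E) c = 0) :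
    ∃ b : (singCx E).S k → V, (∀ (g : G) x, b (g • x) = ρ g • b x) ∧ cobV (singCx E) b = c := by
  obtain ⟨F, hFe, -, hF⟩ := contraction ρ hfree (k + 1) h
  refine ⟨fun x => extA ρ c hc (F k x), fun g x => ?_, ?_⟩
  · show extA ρ c hc (F k (g • x)) = ρ g • extA ρ c hc (F k x)
    rw [hFe, extA_lm]
  · funext x
    have h1 := congrArg (extA ρ c hc) (hF k (by omega) x)
    rw [extA_dif ρ c hc hc0, map_sub, extA_gen, map_sum] at h1
    simp only [map_zsmul] at h1
    rw [eq_comm, sub_eq_zero] at h1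
    exact h1.symm

/-- If `H_0(A ⊗_{ℤG} C_*(E)) = 0`, then the equivariant cohomology in degree zero of every free
acyclic Δ-complex with coefficients in an `A`-module vanishes. -/
theorem bridge_zero [ContractibleSpace E] (hfree : ∀ (g : G) (e : E), g • e = e → g = 1)
    (h : ¬ Nontrivial (Hgy ρ E 0)) (D : DeltaCx.{y}) [∀ n, MulAction G (D.S n)]
    (hD : ∀ (n : ℕ) (i : Fin (n + 2)) (g : G) (x : D.S (n + 1)), D.d i (g • x) = g • D.d i x)
    (hDf : ∀ (n : ℕ) (g : G) (x : D.S n), g • x = x → g = 1) (hDa : Acyclic D)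
    {V : Type x} [AddCommGroup V] [Module A V] (c : D.S 0 → V)
    (hc : ∀ (g : G) x, c (g • x) = ρ g • c x) (hc0 : cobV D c = 0) : c = 0 :=
  transfer_zero D hD hDf (singCx E) singCx_d hDa (singCx_acyclic E) (singCx_free hfree)
    (fun g => DistribSMul.toAddMonoidHom V (ρ g))
    (fun c hc hc0 => sing_zero ρ hfree h c hc hc0) c hc hc0

/-- If `H_i(A ⊗_{ℤG} C_*(E)) = 0` for `i ≤ k + 1`, then the equivariant cohomology in degree
`k + 1` of every free acyclic Δ-complex with coefficients in an `A`-module vanishes. -/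
theorem bridge_succ [ContractibleSpace E] (hfree : ∀ (g : G) (e : E), g • e = e → g = 1)
    (k : ℕ) (h : ∀ i ≤ k + 1, ¬ Nontrivial (Hgy ρ E i)) (D : DeltaCx.{y})
    [∀ n, MulAction G (D.S n)]
    (hD : ∀ (n : ℕ) (i : Fin (n + 2)) (g : G) (x : D.S (n + 1)), D.d i (g • x) = g • D.d i x)
    (hDf : ∀ (n : ℕ) (g : G) (x : D.S n), g • x = x → g = 1) (hDa : Acyclic D)
    {V : Type x} [AddCommGroup V] [Module A V] (c : D.S (k + 1) → V)
    (hc : ∀ (g : G) x, c (g • x) = ρ g • c x) (hc0 : cobV D c = 0) :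
    ∃ b : D.S k → V, (∀ (g : G) x, b (g • x) = ρ g • b x) ∧ cobV D b = c :=
  transfer_succ D hD hDf (singCx E) singCx_d hDa (singCx_acyclic E) (singCx_free hfree)
    (fun g => DistribSMul.toAddMonoidHom V (ρ g)) k
    (fun c hc hc0 => sing_succ ρ hfree k h c hc hc0) c hc hc0

end Pool.Agent.LibRefl75
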