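import Pool.Agent.LibRefl75.Delta

/-!
Equivariant maps out of free `G`-sets, and the comparison theorem of homological algebra for
free Δ-complexes with a group action.
-/

set_option autoImplicit false

namespace Pool.Agent.LibRefl75

universe u v w

/-- Equivariant choice on a free `G`-set. -/
lemma exists_equivariant {G : Type u} [Group G] {T : Type v} [MulAction G T]
    (hfree : ∀ (g : G) (x : T), g • x = x → g = 1) {N : Type w} (τ : G → N → N)
    (τ_mul : ∀ g h y, τ (g * h) y = τ g (τ h y))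
    (P : T → N → Prop) (hP : ∀ g x y, P x y → P (g • x) (τ g y)) (hex : ∀ x, ∃ y, P x y) :
    ∃ F : T → N, (∀ g x, F (g • x) = τ g (F x)) ∧ ∀ x, P x (F x) := by
  classical
  have hrep : ∀ x : T, ∃ g : G,
      g • (Quotient.out (s := MulAction.orbitRel G T) (Quotient.mk _ x)) = x := by
    intro x
    have h := Quotient.mk_out (s := MulAction.orbitRel G T) x
    exact (MulAction.orbitRel G T).symm h
  choose γ hγ using hrep
  choose y hy using hex
  refine ⟨fun x => τ (γ x) (y (Quotient.out (s := MulAction.orbitRel G T) (Quotient.mk _ x))),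
    fun g x => ?_, fun x => ?_⟩
  · have h1 : (Quotient.mk (MulAction.orbitRel G T) (g • x)) = Quotient.mk _ x :=
      Quotient.sound (s := MulAction.orbitRel G T) ⟨g, rfl⟩
    have h2 := hγ (g • x)
    simp only [h1] at h2 ⊢
    rw [← τ_mul]
    congr 1
    have h3 : ((g * γ x)⁻¹ * γ (g • x)) •
        (Quotient.out (s := MulAction.orbitRel G T) (Quotient.mk _ x)) =
        (Quotient.out (s := MulAction.orbitRel G T) (Quotient.mk _ x)) := by
      rw [mul_smul, h2, inv_smul_eq_iff, mul_smul, hγ x]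
    have h4 := hfree _ _ h3
    rw [inv_mul_eq_one] at h4
    exact h4.symm
  · have h := hP (γ x) _ _ (hy (Quotient.out (s := MulAction.orbitRel G T) (Quotient.mk _ x)))
    rwa [hγ x] at h

/-- The comparison theorem: extension of an equivariant map in degree zero to all degrees. -/
theorem ladder {G : Type u} [Group G] (D : DeltaCx.{v}) [∀ n, MulAction G (D.S n)]
    (hD : ∀ (n : ℕ) (i : Fin (n + 2)) (g : G) (x : D.S (n + 1)), D.d i (g • x) = g • D.d i x)
    (hfree : ∀ (n : ℕ) (g : G) (x : D.S n), g • x = x → g = 1)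
    (M : ℕ → Type w) [∀ n, AddCommGroup (M n)] (τ : ∀ n, G → (M n →+ M n))
    (τ_mul : ∀ n g h y, τ n (g * h) y = τ n g (τ n h y))
    (δ : ∀ n, M (n + 1) →+ M n) (hδ : ∀ n g y, δ n (τ (n + 1) g y) = τ n g (δ n y))
    (c : ℤ) (F0 : D.S 0 → M 0) (hF0 : ∀ g x, F0 (g • x) = τ 0 g (F0 x))
    (e : ∀ n, D.S (n + 1) → M n) (he : ∀ n g x, e n (g • x) = τ n g (e n x)) (m : ℕ)
    (hA : 1 ≤ m → ∀ x : D.S 1, ∃ y : M 1,
      δ 0 y = e 0 x + c • ∑ i : Fin 2, (-1 : ℤ) ^ (i : ℕ) • F0 (D.d i x))
    (hB : ∀ n, n + 2 ≤ m → ∀ x : D.S (n + 2), δ n (e (n + 1) x) =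
      -(c • ∑ i : Fin (n + 3), (-1 : ℤ) ^ (i : ℕ) • e n (D.d i x)))
    (hex : ∀ n, n + 2 ≤ m → ∀ z : M (n + 1), δ n z = 0 → ∃ y, δ (n + 1) y = z) :
    ∃ F : ∀ n, D.S n → M n, F 0 = F0 ∧ (∀ n g x, F n (g • x) = τ n g (F n x)) ∧
      ∀ n < m, ∀ x, δ n (F (n + 1) x) =
        e n x + c • ∑ i : Fin (n + 2), (-1 : ℤ) ^ (i : ℕ) • F n (D.d i x) := by
  induction m with
  | zero =>
    refine ⟨fun n => Nat.casesOn n F0 (fun _ _ => 0), rfl, fun n g x => ?_, by omega⟩
    cases n with
    | zero => exact hF0 g x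
    | succ n => exact (map_zero _).symm
  | succ m ih =>
    obtain ⟨F, hF, hFeq, hFd⟩ := ih (fun h => hA (by omega))
      (fun n hn => hB n (by omega)) (fun n hn => hex n (by omega))
    have key : ∀ x : D.S (m + 1), ∃ y : M (m + 1),
        δ m y = e m x + c • ∑ i : Fin (m + 2), (-1 : ℤ) ^ (i : ℕ) • F m (D.d i x) := by
      cases m with
      | zero =>
        intro x
        obtain ⟨y, hy⟩ := hA le_rfl x
        exact ⟨y, by rw [hy, hF]⟩
      | succ m =>
        intro x
        apply hex m le_rfl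
        rw [map_add, map_zsmul, map_sum, hB m le_rfl]
        have h1 : ∀ i : Fin (m + 3), δ m ((-1 : ℤ) ^ (i : ℕ) • F (m + 1) (D.d i x)) =
            (-1 : ℤ) ^ (i : ℕ) • e m (D.d i x) +
            c • ((-1 : ℤ) ^ (i : ℕ) • ∑ j : Fin (m + 2), (-1 : ℤ) ^ (j : ℕ) •
              F m (D.d j (D.d i x))) := by
          intro i
          rw [map_zsmul, hFd m (by omega), smul_add, smul_comm]
        rw [Finset.sum_congr rfl (fun i _ => h1 i), Finset.sum_add_distrib, ← Finset.smul_sum,
          alt_alt D (F m) x, smul_zero, add_zero, neg_add_cancel]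
    obtain ⟨Fn, hFn, hFn'⟩ := exists_equivariant (hfree (m + 1)) (fun g y => τ (m + 1) g y)
      (τ_mul (m + 1)) _ (fun g x y hy => by
        show δ m (τ (m + 1) g y) = e m (g • x) + c • ∑ i : Fin (m + 2), (-1 : ℤ) ^ (i : ℕ) •
          F m (D.d i (g • x))
        rw [hδ, hy, map_add, he, map_zsmul, map_sum]
        congr 2
        refine Finset.sum_congr rfl fun i _ => ?_
        rw [map_zsmul, hD, hFeq]) key
    refine ⟨Function.update F (m + 1) Fn, ?_, ?_, ?_⟩
    · rw [Function.update_of_ne (by omega), hF]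
    · intro n g x
      rcases eq_or_ne n (m + 1) with rfl | hn
      · rw [Function.update_self, hFn]
      · rw [Function.update_of_ne hn, hFeq]
    · intro n hn x
      rcases eq_or_ne n m with rfl | hn'
      · rw [Function.update_self, Function.update_of_ne (by omega)]
        exact hFn' x
      · rw [Function.update_of_ne (by omega), Function.update_of_ne (by omega)]
        exact hFd n (by omega) x

end Pool.Agent.LibRefl75
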