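import Pool.Agent.LibRefl75.Racg

/-!
Right-angled Coxeter groups: descents form cliques, special subgroups of cliques, half-spaces,
the centralizer of a maximal clique.
-/

set_option autoImplicit false

namespace Pool.Agent.LibRefl75

universe u v w

variable {V : Type v} {Γ : SimpleGraph V}

/-! ### two non-commuting generators -/

open Classical in
/-- The reflections of the line attached to two generators. -/
noncomputable def lineRefl (u v : V) (w : V) : Equiv.Perm ℤ :=
  if w = u then Equiv.neg ℤ else if w = v then (Equiv.neg ℤ).trans (Equiv.addLeft 1) else 1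

lemma lineRefl_left (u v : V) (x : ℤ) : lineRefl u v u x = -x := by
  classical
  simp [lineRefl]

lemma lineRefl_right {u v : V} (h : u ≠ v) (x : ℤ) : lineRefl u v v x = 1 - x := by
  classical
  rw [lineRefl, if_neg (Ne.symm h), if_pos rfl]
  show 1 + -x = 1 - x
  ring

lemma lineRefl_other {u v w : V} (h1 : w ≠ u) (h2 : w ≠ v) : lineRefl u v w = 1 := by
  classical
  rw [lineRefl, if_neg h1, if_neg h2]

lemma lineRefl_liftable {u v : V} (hne : u ≠ v) (hadj : ¬ Γ.Adj u v) :
    (raMatrix Γ).IsLiftable (lineRefl u v) := by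
  apply raLiftable
  · intro w
    ext x
    rw [Equiv.Perm.mul_apply, Equiv.Perm.one_apply]
    by_cases h1 : w = u
    · subst h1
      rw [lineRefl_left, lineRefl_left, neg_neg]
    · by_cases h2 : w = v
      · subst h2
        rw [lineRefl_right hne, lineRefl_right hne]
        ring
      · rw [lineRefl_other h1 h2]
        rfl
  · intro w w' h
    by_cases h1 : w = u
    · have h2 : w' ≠ u := fun h3 => h.ne (h1.trans h3.symm)
      have h3 : w' ≠ v := fun h3 => hadj (h1 ▸ h3 ▸ h)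
      rw [lineRefl_other h2 h3, mul_one, one_mul]
    · by_cases h2 : w = v
      · have h3 : w' ≠ v := fun h3 => h.ne (h2.trans h3.symm)
        have h4 : w' ≠ u := fun h4 => hadj (h2 ▸ h4 ▸ h.symm)
        rw [lineRefl_other h4 h3, mul_one, one_mul]
      · rw [lineRefl_other h1 h2, mul_one, one_mul]

lemma pow_ne_one {u v : V} (hne : u ≠ v) (hadj : ¬ Γ.Adj u v) (n : ℕ) (hn : 0 < n) :
    (sg Γ u * sg Γ v) ^ n ≠ 1 := by
  intro h
  have h1 := congrArg ((rcs Γ).lift ⟨lineRefl u v, lineRefl_liftable hne hadj⟩) h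
  rw [map_pow, map_mul, CoxeterSystem.lift_apply_simple, CoxeterSystem.lift_apply_simple,
    map_one] at h1
  have h2 : ∀ n : ℕ, ∀ x : ℤ, ((lineRefl u v u * lineRefl u v v) ^ n) x = x - n := by
    intro n
    induction n with
    | zero => intro x; simp
    | succ n ih =>
      intro x
      rw [pow_succ, Equiv.Perm.mul_apply, ih, Equiv.Perm.mul_apply, lineRefl_left,
        lineRefl_right hne]
      push_cast
      ring
  have h3 := h2 n 0
  rw [h1, Equiv.Perm.one_apply] at h3
  omega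

lemma sgn_p {u v : V} (hne : u ≠ v) (hadj : ¬ Γ.Adj u v) (k : ℕ) :
    sgn (sg Γ u * sg Γ v) ((sg Γ u * sg Γ v) ^ k * sg Γ u) = 0 := by
  classical
  rw [sgn_mul, sgn_sg, sgn_sg, if_neg, if_neg, add_zero]
  · intro h
    have h1 : (sg Γ u * sg Γ v) ^ (k + 2) = 1 := by
      have h2 : (sg Γ u * sg Γ v) ^ k * sg Γ u = sg Γ v * sg Γ u * sg Γ v := by
        have h3 := congrArg (fun x => sg Γ v * x * sg Γ v) h
        simp only [sg_inv] at h3
        have h4 : sg Γ v * (sg Γ v * ((sg Γ u * sg Γ v) ^ k * sg Γ u) * sg Γ v) * sg Γ v =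
          (sg Γ u * sg Γ v) ^ k * sg Γ u := by simp [mul_assoc]
        rwa [h4] at h3
      rw [pow_succ, pow_succ, mul_assoc, mul_assoc, ← mul_assoc, h2]
      simp [mul_assoc]
    exact pow_ne_one hne hadj _ (by omega) h1
  · intro h
    have h1 : (sg Γ u * sg Γ v) ^ (k + 1) = 1 := by
      rw [pow_succ, ← mul_assoc, h, sg_mul_self]
    exact pow_ne_one hne hadj _ (by omega) h1

lemma sgn_p_pow {u v : V} (hne : u ≠ v) (hadj : ¬ Γ.Adj u v) (m : ℕ) : ∀ k : ℕ,
    sgn ((sg Γ u * sg Γ v) ^ m) ((sg Γ u * sg Γ v) ^ k * sg Γ u) = 0 := by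
  induction m with
  | zero => intro k; rw [pow_zero, sgn_one]
  | succ m ih =>
    intro k
    rw [pow_succ, sgn_mul, sgn_p hne hadj, zero_add]
    have h : sg Γ u * sg Γ v * ((sg Γ u * sg Γ v) ^ k * sg Γ u) * (sg Γ u * sg Γ v)⁻¹ =
        (sg Γ u * sg Γ v) ^ (k + 2) * sg Γ u := by
      calc sg Γ u * sg Γ v * ((sg Γ u * sg Γ v) ^ k * sg Γ u) * (sg Γ u * sg Γ v)⁻¹
          = (sg Γ u * sg Γ v * (sg Γ u * sg Γ v) ^ k) * (sg Γ u * sg Γ v) * sg Γ u := by
            rw [mul_inv_rev, sg_inv, sg_inv]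
            simp only [mul_assoc]
        _ = (sg Γ u * sg Γ v) ^ (k + 2) * sg Γ u := by rw [← pow_succ', ← pow_succ]
    rw [h, ih]

lemma dihedral_form (u v : V) (a : RW Γ) (ha : a ∈ Subgroup.closure {sg Γ u, sg Γ v}) :
    ∃ m : ℕ, a = (sg Γ u * sg Γ v) ^ m ∨ a = (sg Γ u * sg Γ v) ^ m * sg Γ u ∨
      a = (sg Γ v * sg Γ u) ^ m ∨ a = (sg Γ v * sg Γ u) ^ m * sg Γ v := by
  have key : ∀ x y : RW Γ, (y = sg Γ u ∨ y = sg Γ v) →
      (∃ m : ℕ, x = (sg Γ u * sg Γ v) ^ m ∨ x = (sg Γ u * sg Γ v) ^ m * sg Γ u ∨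
      x = (sg Γ v * sg Γ u) ^ m ∨ x = (sg Γ v * sg Γ u) ^ m * sg Γ v) →
      ∃ m : ℕ, x * y = (sg Γ u * sg Γ v) ^ m ∨ x * y = (sg Γ u * sg Γ v) ^ m * sg Γ u ∨
      x * y = (sg Γ v * sg Γ u) ^ m ∨ x * y = (sg Γ v * sg Γ u) ^ m * sg Γ v := by
    rintro x y (rfl | rfl) ⟨m, rfl | rfl | rfl | rfl⟩
    · exact ⟨m, Or.inr (Or.inl rfl)⟩
    · exact ⟨m, Or.inl (by simp)⟩
    · cases m with
      | zero => exact ⟨0, Or.inr (Or.inl (by simp))⟩
      | succ m => exact ⟨m, Or.inr (Or.inr (Or.inr (by rw [pow_succ]; simp [← mul_assoc])))⟩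
    · exact ⟨m + 1, Or.inr (Or.inr (Or.inl (by rw [pow_succ, mul_assoc])))⟩
    · cases m with
      | zero => exact ⟨0, Or.inr (Or.inr (Or.inr (by simp)))⟩
      | succ m => exact ⟨m, Or.inr (Or.inl (by rw [pow_succ]; simp [← mul_assoc]))⟩
    · exact ⟨m + 1, Or.inl (by rw [pow_succ, mul_assoc])⟩
    · exact ⟨m, Or.inr (Or.inr (Or.inr rfl))⟩
    · exact ⟨m, Or.inr (Or.inr (Or.inl (by simp)))⟩
  induction ha using Subgroup.closure_induction_right with
  | one => exact ⟨0, Or.inl (by simp)⟩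
  | mul_right x hx y hy ih => exact key x _ (by simpa using hy) ih
  | mul_inv_cancel x hx y hy ih =>
    have hy' : y = sg Γ u ∨ y = sg Γ v := by simpa using hy
    have : y⁻¹ = y := by rcases hy' with rfl | rfl <;> exact sg_inv _
    rw [this]
    exact key x y hy' ih

lemma sgn_dihedral {u v : V} (hne : u ≠ v) (hadj : ¬ Γ.Adj u v) (a : RW Γ)
    (ha : a ∈ Subgroup.closure {sg Γ u, sg Γ v}) :
    sgn a (sg Γ u) = 0 ∨ sgn a (sg Γ v) = 0 := by
  classical
  have h1 : ∀ {u v : V}, u ≠ v → ¬ Γ.Adj u v → ∀ m : ℕ,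
      sgn ((sg Γ u * sg Γ v) ^ m) (sg Γ u) = 0 := by
    intro u v hne hadj m
    have := sgn_p_pow hne hadj m 0
    rwa [pow_zero, one_mul] at this
  have h2 : ∀ {u v : V}, u ≠ v → ¬ Γ.Adj u v → ∀ m : ℕ,
      sgn ((sg Γ u * sg Γ v) ^ m * sg Γ u) (sg Γ v) = 0 := by
    intro u v hne hadj m
    have h3 := sgn_p_pow hne hadj m 1
    rw [pow_one] at h3
    rw [sgn_mul, sgn_sg, if_neg (fun h => hne (sg_injective h.symm)), zero_add, sg_inv, h3]
  obtain ⟨m, rfl | rfl | rfl | rfl⟩ := dihedral_form u v a ha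
  · exact Or.inl (h1 hne hadj m)
  · exact Or.inr (h2 hne hadj m)
  · exact Or.inr (h1 hne.symm (fun h => hadj h.symm) m)
  · exact Or.inl (h2 hne.symm (fun h => hadj h.symm) m)

/-- Two distinct descents of an element commute. -/
lemma adj_of_descents {w : RW Γ} {u v : V} (hu : sgn w (sg Γ u) ≠ 0) (hv : sgn w (sg Γ v) ≠ 0)
    (hne : u ≠ v) : Γ.Adj u v := by
  classical
  by_contra hadj
  let D : Subgroup (RW Γ) := Subgroup.closure {sg Γ u, sg Γ v}
  have hex : ∃ n : ℕ, ∃ d ∈ D, (rcs Γ).length (w * d) = n := ⟨_, 1, D.one_mem, rfl⟩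
  obtain ⟨d, hd, hdl⟩ := Nat.find_spec hex
  have hmin : ∀ d' ∈ D, (rcs Γ).length (w * d) ≤ (rcs Γ).length (w * d') := by
    intro d' hd'
    rw [hdl]
    exact Nat.find_min' hex ⟨d', hd', rfl⟩
  have hzero : ∀ x ∈ D, sgn (w * d) x = 0 := by
    intro x hx
    by_contra h0
    have h1 := length_lt_of_sgn h0
    rw [mul_assoc] at h1
    exact absurd (hmin _ (D.mul_mem hd hx)) (not_le.2 h1)
  have hsu : sg Γ u ∈ D := Subgroup.subset_closure (by simp)
  have hsv : sg Γ v ∈ D := Subgroup.subset_closure (by simp)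
  have hw : ∀ x ∈ D, sgn w x = sgn d⁻¹ x := by
    intro x hx
    have h1 : w = w * d * d⁻¹ := by rw [mul_inv_cancel_right]
    rw [h1, sgn_mul, hzero, add_zero]
    exact D.mul_mem (D.mul_mem (D.inv_mem hd) hx) (D.inv_mem (D.inv_mem hd))
  rcases sgn_dihedral hne hadj d⁻¹ (D.inv_mem hd) with h | h
  · exact hu (by rw [hw _ hsu, h])
  · exact hv (by rw [hw _ hsv, h])

/-! ### descents are finite in number -/

lemma par_wordProd_of_notMem {v : V} (ω : List V) (h : v ∉ ω) :
    par v ((rcs Γ).wordProd ω) = 1 := by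
  induction ω with
  | nil => simp
  | cons u ω ih =>
    rw [(rcs Γ).wordProd_cons, map_mul, ih (fun h' => h (List.mem_cons_of_mem _ h')), mul_one]
    exact par_ne fun h' => h (by rw [h']; simp)

lemma mem_of_descent {v : V} (ω : List V) (h : sgn ((rcs Γ).wordProd ω) (sg Γ v) ≠ 0) :
    v ∈ ω := by
  classical
  induction ω with
  | nil =>
    rw [(rcs Γ).wordProd_nil, sgn_one] at h
    exact absurd rfl h
  | cons u ω ih =>
    rw [(rcs Γ).wordProd_cons, sgn_mul, sgn_sg] at h
    by_cases h1 : (rcs Γ).wordProd ω * sg Γ v * ((rcs Γ).wordProd ω)⁻¹ = sg Γ u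
    · have := sg_conj_inj h1
      rw [this]
      simp
    · rw [if_neg h1, add_zero] at h
      exact List.mem_cons_of_mem _ (ih h)

lemma finite_descents (w : RW Γ) : {v : V | sgn w (sg Γ v) ≠ 0}.Finite := by
  obtain ⟨ω, rfl⟩ := (rcs Γ).wordProd_surjective w
  exact (List.finite_toSet ω).subset fun v hv => mem_of_descent ω hv

lemma exists_descent {w : RW Γ} (h : w ≠ 1) : ∃ v, sgn w (sg Γ v) ≠ 0 := by
  obtain ⟨v, hv⟩ := (rcs Γ).exists_rightDescent_of_ne_one h
  exact ⟨v, (descent_iff w v).1 hv⟩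

lemma length_mul_of_descent {w : RW Γ} {v : V} (h : sgn w (sg Γ v) ≠ 0) :
    (rcs Γ).length (w * sg Γ v) < (rcs Γ).length w := length_lt_of_sgn h

/-! ### special subgroups -/

variable (Γ) in
/-- The special subgroup generated by a set of vertices. -/
noncomputable def WS (S : Set V) : Subgroup (RW Γ) := Subgroup.closure (sg Γ '' S)

lemma sg_mem_WS {S : Set V} {v : V} (h : v ∈ S) : sg Γ v ∈ WS Γ S :=
  Subgroup.subset_closure ⟨v, h, rfl⟩

lemma WS_mono {S T : Set V} (h : S ⊆ T) : WS Γ S ≤ WS Γ T :=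
  Subgroup.closure_mono (Set.image_mono h)

lemma WS_comm {S : Set V} {v : V} (h : ∀ u ∈ S, u = v ∨ Γ.Adj u v) {a : RW Γ} (ha : a ∈ WS Γ S) :
    a * sg Γ v = sg Γ v * a := by
  induction ha using Subgroup.closure_induction with
  | mem x hx =>
    obtain ⟨u, hu, rfl⟩ := hx
    exact sg_comm' (h u hu)
  | one => simp
  | mul x y _ _ hx hy => rw [mul_assoc, hy, ← mul_assoc, hx, mul_assoc]
  | inv x _ hx =>
    rw [inv_mul_eq_iff_eq_mul, ← mul_assoc, hx, mul_inv_cancel_right]

lemma WS_word {S : Set V} {a : RW Γ} (ha : a ∈ WS Γ S) :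
    ∃ ω : List V, (∀ u ∈ ω, u ∈ S) ∧ a = (rcs Γ).wordProd ω := by
  induction ha using Subgroup.closure_induction with
  | mem x hx =>
    obtain ⟨u, hu, rfl⟩ := hx
    exact ⟨[u], by simpa using hu, ((rcs Γ).wordProd_singleton u).symm⟩
  | one => exact ⟨[], by simp, by simp⟩
  | mul x y _ _ hx hy =>
    obtain ⟨ω, h1, rfl⟩ := hx
    obtain ⟨ω', h1', rfl⟩ := hy
    refine ⟨ω ++ ω', ?_, ((rcs Γ).wordProd_append ω ω').symm⟩
    intro u hu
    rcases List.mem_append.1 hu with h | h
    · exact h1 u h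
    · exact h1' u h
  | inv x _ hx =>
    obtain ⟨ω, h1, rfl⟩ := hx
    exact ⟨ω.reverse, fun u hu => h1 u (List.mem_reverse.1 hu),
      ((rcs Γ).wordProd_reverse ω).symm⟩

lemma WS_one_or_par {S : Set V} (hS : IsClq Γ S) (n : ℕ) : ∀ ω : List V, ω.length ≤ n →
    (∀ u ∈ ω, u ∈ S) →
    (rcs Γ).wordProd ω = 1 ∨ ∃ t ∈ S, par t ((rcs Γ).wordProd ω) ≠ 1 := by
  classical
  induction n with
  | zero =>
    intro ω h _
    have : ω = [] := List.length_eq_zero_iff.1 (Nat.le_zero.1 h)
    subst this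
    left; simp
  | succ n ih =>
    intro ω hω hS'
    cases ω with
    | nil => left; simp
    | cons t ω =>
      have htS : t ∈ S := hS' t (by simp)
      by_cases ht : t ∈ ω
      · obtain ⟨l1, l2, rfl⟩ := List.append_of_mem ht
        have hl1 : (rcs Γ).wordProd l1 ∈ WS Γ S := by
          have : ∀ u ∈ l1, u ∈ S := fun u hu => hS' u (by simp [hu])
          clear ih hω hS' ht
          induction l1 with
          | nil => simp
          | cons x l1 ih2 =>
            rw [(rcs Γ).wordProd_cons]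
            exact (WS Γ S).mul_mem (sg_mem_WS (this x (by simp)))
              (ih2 fun u hu => this u (by simp [hu]))
        have e : (rcs Γ).wordProd (t :: (l1 ++ t :: l2)) = (rcs Γ).wordProd (l1 ++ l2) := by
          rw [(rcs Γ).wordProd_cons, (rcs Γ).wordProd_append, (rcs Γ).wordProd_cons,
            (rcs Γ).wordProd_append, ← mul_assoc, ← mul_assoc,
            ← WS_comm (fun u hu => hS u hu t htS) hl1, mul_assoc ((rcs Γ).wordProd l1),
            sg_mul_self, mul_one]
        rw [e]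
        apply ih
        · simp only [List.length_cons, List.length_append] at hω ⊢
          omega
        · intro u hu
          apply hS'
          simp only [List.mem_cons, List.mem_append] at hu ⊢
          tauto
      · right
        refine ⟨t, htS, ?_⟩
        rw [(rcs Γ).wordProd_cons, map_mul, par_self, par_wordProd_of_notMem ω ht, mul_one]
        exact ofAdd_one_ne

lemma WS_par {S : Set V} (hS : IsClq Γ S) {a : RW Γ} (ha : a ∈ WS Γ S) (h1 : a ≠ 1) :
    ∃ t ∈ S, par t a ≠ 1 := by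
  obtain ⟨ω, hω, rfl⟩ := WS_word ha
  rcases WS_one_or_par hS ω.length ω le_rfl hω with h | h
  · exact absurd h h1
  · exact h

lemma sgn_WS {S : Set V} (hS : IsClq Γ S) {a : RW Γ} (ha : a ∈ WS Γ S) {t : V} (ht : t ∈ S) :
    sgn a (sg Γ t) = Multiplicative.toAdd (par t a) := by
  classical
  obtain ⟨ω, hω, rfl⟩ := WS_word ha
  clear ha
  induction ω with
  | nil => simp [sgn_one]
  | cons u ω ih =>
    have h1 : ∀ x ∈ ω, x ∈ S := fun x hx => hω x (by simp [hx])
    have h2 : (rcs Γ).wordProd ω ∈ WS Γ S := by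
      clear ih hω
      induction ω with
      | nil => simp
      | cons x l1 ih2 =>
        rw [(rcs Γ).wordProd_cons]
        exact (WS Γ S).mul_mem (sg_mem_WS (h1 x (by simp))) (ih2 fun u hu => h1 u (by simp [hu]))
    rw [(rcs Γ).wordProd_cons, sgn_mul, WS_comm (fun u hu => hS u hu t ht) h2,
      mul_inv_cancel_right, ih h1, map_mul, toAdd_mul, add_comm]
    congr 1
    rw [sgn_sg]
    by_cases h : t = u
    · subst h
      rw [if_pos rfl, par_self]
      rfl
    · rw [if_neg (fun h' => h (sg_injective h')), par_ne (Ne.symm h)]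
      rfl

/-- `w` has no descents in `S`: it is the minimal element of its coset. -/
def NoDesc (w : RW Γ) (S : Set V) : Prop := ∀ v ∈ S, sgn w (sg Γ v) = 0

lemma NoDesc.eq_one {S : Set V} (hS : IsClq Γ S) {w a : RW Γ} (hw : NoDesc w S)
    (ha : a ∈ WS Γ S) (hwa : NoDesc (w * a) S) : a = 1 := by
  by_contra h
  obtain ⟨t, ht, h1⟩ := WS_par hS ha h
  have h2 := hwa t ht
  rw [sgn_mul, WS_comm (fun u hu => hS u hu t ht) ha, mul_inv_cancel_right, hw t ht, add_zero,
    sgn_WS hS ha ht] at h2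
  exact h1 h2

lemma exists_min (w : RW Γ) (S : Set V) : ∃ b ∈ WS Γ S, NoDesc (w * b) S ∧
    ∀ c ∈ WS Γ S, (rcs Γ).length (w * b) ≤ (rcs Γ).length (w * c) := by
  classical
  have hex : ∃ n : ℕ, ∃ d ∈ WS Γ S, (rcs Γ).length (w * d) = n := ⟨_, 1, (WS Γ S).one_mem, rfl⟩
  obtain ⟨d, hd, hdl⟩ := Nat.find_spec hex
  have hmin : ∀ d' ∈ WS Γ S, (rcs Γ).length (w * d) ≤ (rcs Γ).length (w * d') := by
    intro d' hd'
    rw [hdl]
    exact Nat.find_min' hex ⟨d', hd', rfl⟩
  refine ⟨d, hd, fun v hv => ?_, hmin⟩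
  by_contra h
  have h1 := length_mul_of_descent h
  rw [mul_assoc] at h1
  exact absurd (hmin _ ((WS Γ S).mul_mem hd (sg_mem_WS hv))) (not_le.2 h1)

lemma NoDesc.length_le {S : Set V} (hS : IsClq Γ S) {w a : RW Γ} (hw : NoDesc w S)
    (ha : a ∈ WS Γ S) : (rcs Γ).length w ≤ (rcs Γ).length (w * a) := by
  obtain ⟨b, hb, h1, h2⟩ := exists_min w S
  have h3 := hw.eq_one hS hb h1
  subst h3
  have := h2 a ha
  rwa [mul_one] at this

lemma NoDesc.length_lt {S : Set V} (hS : IsClq Γ S) {w a : RW Γ} (hw : NoDesc w S)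
    (ha : a ∈ WS Γ S) (h1 : a ≠ 1) : (rcs Γ).length w < (rcs Γ).length (w * a) := by
  refine lt_of_le_of_ne (hw.length_le hS ha) fun heq => h1 ?_
  refine hw.eq_one hS ha fun v hv => ?_
  by_contra h
  have h2 := length_mul_of_descent h
  rw [← heq, mul_assoc] at h2
  exact absurd (hw.length_le hS ((WS Γ S).mul_mem ha (sg_mem_WS hv))) (not_le.2 h2)

/-! ### half-spaces -/

/-- The side of the chamber `w` with respect to the wall of the generator `v`. -/
noncomputable def side (v : V) (w : RW Γ) : ZMod 2 := sgn w⁻¹ (sg Γ v)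

lemma side_left (v : V) (w : RW Γ) : side v (sg Γ v * w) = 1 + side v w := by
  rw [side, side, mul_inv_rev, sg_inv, sgn_mul, sgn_sg_self, sg_inv, mul_assoc, sg_mul_self,
    mul_one]

open Classical in
lemma side_right (v t : V) (w : RW Γ) :
    side v (w * sg Γ t) = side v w + if w⁻¹ * sg Γ v * w = sg Γ t then 1 else 0 := by
  rw [side, side, mul_inv_rev, sg_inv, sgn_mul, sgn_sg, inv_inv]

/-- Crossing the wall of `v` inside a coset of the special subgroup of a clique. -/
lemma crossing {S : Set V} (hS : IsClq Γ S) (v : V) (w : RW Γ) {a : RW Γ} (ha : a ∈ WS Γ S)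
    (h : side v (w * a) ≠ side v w) : v ∈ S ∧ w⁻¹ * sg Γ v * w = sg Γ v := by
  classical
  have key : ∀ a ∈ WS Γ S, side v (w * a) ≠ side v w →
      ∃ t ∈ S, w⁻¹ * sg Γ v * w = sg Γ t := by
    intro a ha
    induction ha using Subgroup.closure_induction_right with
    | one => intro h; rw [mul_one] at h; exact absurd rfl h
    | mul_right x hx y hy ih =>
      intro h
      by_cases h1 : side v (w * x) = side v w
      · obtain ⟨t, ht, rfl⟩ := hy
        rw [← mul_assoc, side_right, h1] at h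
        by_cases h2 : (w * x)⁻¹ * sg Γ v * (w * x) = sg Γ t
        · refine ⟨t, ht, ?_⟩
          have h3 : x * sg Γ t = sg Γ t * x := WS_comm (fun u hu => hS u hu t ht) hx
          rw [mul_inv_rev] at h2
          have h4 : w⁻¹ * sg Γ v * w = x * (x⁻¹ * w⁻¹ * sg Γ v * (w * x)) * x⁻¹ := by group
          rw [h4, h2, h3, mul_inv_cancel_right]
        · rw [if_neg h2, add_zero] at h
          exact absurd rfl h
      · exact ih h1
    | mul_inv_cancel x hx y hy ih =>
      intro h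
      by_cases h1 : side v (w * x) = side v w
      · obtain ⟨t, ht, rfl⟩ := hy
        rw [sg_inv, ← mul_assoc, side_right, h1] at h
        by_cases h2 : (w * x)⁻¹ * sg Γ v * (w * x) = sg Γ t
        · refine ⟨t, ht, ?_⟩
          have h3 : x * sg Γ t = sg Γ t * x := WS_comm (fun u hu => hS u hu t ht) hx
          rw [mul_inv_rev] at h2
          have h4 : w⁻¹ * sg Γ v * w = x * (x⁻¹ * w⁻¹ * sg Γ v * (w * x)) * x⁻¹ := by group
          rw [h4, h2, h3, mul_inv_cancel_right]
        · rw [if_neg h2, add_zero] at h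
          exact absurd rfl h
      · exact ih h1
  obtain ⟨t, ht, h1⟩ := key a ha h
  have h2 : v = t := sg_conj_inj (x := w⁻¹) (by rw [inv_inv]; exact h1)
  subst h2
  exact ⟨ht, h1⟩

/-! ### the centralizer of a maximal clique -/

lemma centralizer_maxClique {T : Set V} (hT : IsClq Γ T)
    (hmax : ∀ u, (∀ v ∈ T, u = v ∨ Γ.Adj u v) → u ∈ T) (n : ℕ) :
    ∀ w : RW Γ, (rcs Γ).length w ≤ n → (∀ v ∈ T, w * sg Γ v = sg Γ v * w) → w ∈ WS Γ T := by
  classical
  induction n with
  | zero =>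
    intro w hw _
    have : w = 1 := (rcs Γ).length_eq_zero_iff.1 (Nat.le_zero.1 hw)
    rw [this]
    exact (WS Γ T).one_mem
  | succ n ih =>
    intro w hw hc
    by_cases h1 : w = 1
    · rw [h1]; exact (WS Γ T).one_mem
    · obtain ⟨u, hu⟩ := exists_descent h1
      have huT : u ∈ T := by
        apply hmax
        intro v hv
        by_cases huv : u = v
        · exact Or.inl huv
        right
        by_cases hv' : sgn w (sg Γ v) = 0
        · have e1 : sgn (w * sg Γ v) (sg Γ v) ≠ 0 := by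
            rw [sgn_mul, sgn_sg_self, mul_inv_cancel_right, hv', add_zero]
            decide
          have e2 : sgn (w * sg Γ v) (sg Γ u) ≠ 0 := by
            rw [hc v hv, sgn_mul, sgn_sg, if_neg (fun h => huv (sg_conj_inj h)), add_zero]
            exact hu
          exact adj_of_descents e2 e1 huv
        · exact adj_of_descents hu hv' huv
      have h2 := ih (w * sg Γ u) (by have := length_mul_of_descent hu; omega) (by
        intro v hv
        rw [mul_assoc, sg_comm' (hT u huT v hv), ← mul_assoc, hc v hv, mul_assoc])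
      have h3 := (WS Γ T).mul_mem h2 (sg_mem_WS huT)
      rwa [mul_assoc, sg_mul_self, mul_one] at h3

end Pool.Agent.LibRefl75
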