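import Pool.Agent.LibRefl75.SubAcyclic
import Pool.Agent.LibRefl75.RacgB

/-!
The complex `U(W, X)` of the reflection group trick: chambers `wX`, `w ∈ W`, glued along mirrors.
Acyclicity.
-/

set_option autoImplicit false

namespace Pool.Agent.LibRefl75

universe u v w

variable {V : Type v} (Γ : SimpleGraph V) {X : DeltaCx.{w}} (mir : V → Subcx X)

/-- The set of mirrors containing a simplex. -/
def SX {n : ℕ} (x : X.S n) : Set V := {v | x ∈ (mir v).mem n}

lemma SX_face {n : ℕ} (i : Fin (n + 2)) (x : X.S (n + 1)) : SX mir x ⊆ SX mir (X.d i x) :=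
  fun v hv => (mir v).face_mem i hv

/-- Two pairs `(w, x)`, `(w', x')` are identified when `x = x'` and `w⁻¹ w'` lies in the special
subgroup generated by the mirrors through `x`. -/
def URel (n : ℕ) : Setoid (RW Γ × X.S n) where
  r p q := p.2 = q.2 ∧ p.1⁻¹ * q.1 ∈ WS Γ (SX mir p.2)
  iseqv := by
    refine ⟨fun p => ⟨rfl, by rw [inv_mul_cancel]; exact Subgroup.one_mem _⟩, ?_, ?_⟩
    · rintro p q ⟨h1, h2⟩
      refine ⟨h1.symm, ?_⟩
      rw [← h1]
      have := Subgroup.inv_mem _ h2
      rwa [mul_inv_rev, inv_inv] at this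
    · rintro p q r ⟨h1, h2⟩ ⟨h3, h4⟩
      refine ⟨h1.trans h3, ?_⟩
      rw [← h1] at h4
      have := Subgroup.mul_mem _ h2 h4
      rwa [mul_assoc, mul_inv_cancel_left] at this

/-- The complex `U(W, X)`. -/
def UC : DeltaCx.{max v w} where
  S n := Quotient (URel Γ mir n)
  d {n} i := Quotient.map (sa := URel Γ mir (n + 1)) (sb := URel Γ mir n)
    (fun p => (p.1, X.d i p.2)) (by
      rintro p q ⟨h1, h2⟩
      exact ⟨congrArg (X.d i) h1, WS_mono (SX_face mir i p.2) h2⟩)
  d_d {n} i j hij x := by
    induction x using Quotient.inductionOn with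
    | h p =>
      exact congrArg (fun y => (Quotient.mk (URel Γ mir n) (p.1, y))) (X.d_d i j hij p.2)

/-- The simplex `w x` of `U(W, X)`. -/
def umk {n : ℕ} (w : RW Γ) (x : X.S n) : (UC Γ mir).S n := Quotient.mk (URel Γ mir n) (w, x)

lemma umk_surj {n : ℕ} (y : (UC Γ mir).S n) : ∃ w x, umk Γ mir w x = y := by
  induction y using Quotient.inductionOn with
  | h p => exact ⟨p.1, p.2, rfl⟩

lemma umk_eq {n : ℕ} {w w' : RW Γ} {x x' : X.S n} :
    umk Γ mir w x = umk Γ mir w' x' ↔ x = x' ∧ w⁻¹ * w' ∈ WS Γ (SX mir x) :=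
  Quotient.eq (r := URel Γ mir n)

lemma umk_d {n : ℕ} (i : Fin (n + 2)) (w : RW Γ) (x : X.S (n + 1)) :
    (UC Γ mir).d i (umk Γ mir w x) = umk Γ mir w (X.d i x) := rfl

/-! ### unions and intersections of mirrors -/

variable {Γ}

/-- The union of a set of mirrors. -/
def mirU (T : Set V) : Subcx X where
  mem n := {x | ∃ v ∈ T, x ∈ (mir v).mem n}
  face_mem i _ := fun ⟨v, hv, hx⟩ => ⟨v, hv, (mir v).face_mem i hx⟩

lemma mirU_acyclic_aux
    (hacyc : ∀ T : Finset V, T.Nonempty → IsClq Γ (T : Set V) → (mirI mir (T : Set V)).Acyclic)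
    (T : Finset V) (hT : T.Nonempty) : ∀ R : Finset V, IsClq Γ ((R : Set V) ∪ T) →
    ((mirI mir (R : Set V)).inf (mirU mir (T : Set V))).Acyclic := by
  classical
  induction hT using Finset.Nonempty.cons_induction with
  | singleton v =>
    intro R hR
    have e : (mirI mir (R : Set V)).inf (mirU mir ((({v} : Finset V)) : Set V)) =
        mirI mir ((insert v R : Finset V) : Set V) := by
      apply Subcx.ext
      intro n x
      constructor
      · rintro ⟨h1, u, hu, h2⟩ w hw
        simp only [Finset.coe_singleton, Set.mem_singleton_iff] at hu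
        simp only [Finset.coe_insert, Set.mem_insert_iff] at hw
        rcases hw with rfl | hw
        · rwa [← hu]
        · exact h1 w hw
      · intro h
        exact ⟨fun w hw => h w (by simp at hw ⊢; exact Or.inr hw), v, by simp, h v (by simp)⟩
    rw [e]
    apply hacyc _ (Finset.insert_nonempty v R)
    refine fun a ha b hb => hR a ?_ b ?_
    · simp only [Finset.coe_insert, Set.mem_insert_iff, Finset.coe_singleton, Set.mem_union,
        Set.mem_singleton_iff] at ha ⊢
      tauto
    · simp only [Finset.coe_insert, Set.mem_insert_iff, Finset.coe_singleton, Set.mem_union,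
        Set.mem_singleton_iff] at hb ⊢
      tauto
  | cons v T hv hT ih =>
    intro R hR
    have hsub : ∀ a, a ∈ ((insert v R : Finset V) : Set V) ∪ (T : Set V) →
        a ∈ (R : Set V) ∪ ((Finset.cons v T hv : Finset V) : Set V) := by
      intro a ha
      simp only [Finset.coe_insert, Set.mem_union, Set.mem_insert_iff, Finset.coe_cons] at ha ⊢
      tauto
    have e : (mirI mir (R : Set V)).inf (mirU mir ((Finset.cons v T hv : Finset V) : Set V)) =
        (mirI mir ((insert v R : Finset V) : Set V)).sup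
          ((mirI mir (R : Set V)).inf (mirU mir (T : Set V))) := by
      apply Subcx.ext
      intro n x
      constructor
      · rintro ⟨h1, u, hu, h2⟩
        simp only [Finset.coe_cons, Set.mem_insert_iff] at hu
        rcases hu with rfl | hu
        · left
          intro w hw
          simp only [Finset.coe_insert, Set.mem_insert_iff] at hw
          rcases hw with rfl | hw
          · exact h2
          · exact h1 w hw
        · exact Or.inr ⟨h1, u, hu, h2⟩
      · rintro (h | ⟨h1, u, hu, h2⟩)
        · exact ⟨fun w hw => h w (by simp at hw ⊢; exact Or.inr hw), v, by simp, h v (by simp)⟩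
        · exact ⟨h1, u, by simp at hu ⊢; exact Or.inr hu, h2⟩
    rw [e]
    apply Subcx.Acyclic.sup
    · apply hacyc _ (Finset.insert_nonempty v R)
      exact fun a ha b hb => hR a (hsub a (Or.inl ha)) b (hsub b (Or.inl hb))
    · apply ih
      refine fun a ha b hb => hR a ?_ b ?_
      · simp only [Set.mem_union, Finset.coe_cons, Set.mem_insert_iff] at ha ⊢
        tauto
      · simp only [Set.mem_union, Finset.coe_cons, Set.mem_insert_iff] at hb ⊢
        tauto
    · have e2 : (mirI mir ((insert v R : Finset V) : Set V)).inf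
          ((mirI mir (R : Set V)).inf (mirU mir (T : Set V))) =
          (mirI mir ((insert v R : Finset V) : Set V)).inf (mirU mir (T : Set V)) := by
        apply Subcx.ext
        intro n x
        constructor
        · rintro ⟨h1, -, h2⟩
          exact ⟨h1, h2⟩
        · rintro ⟨h1, h2⟩
          exact ⟨h1, fun w hw => h1 w (by simp at hw ⊢; exact Or.inr hw), h2⟩
      rw [e2]
      exact ih _ fun a ha b hb => hR a (hsub a ha) b (hsub b hb)

lemma mirU_acyclic
    (hacyc : ∀ T : Finset V, T.Nonempty → IsClq Γ (T : Set V) → (mirI mir (T : Set V)).Acyclic)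
    (T : Finset V) (hT : T.Nonempty) (hTc : IsClq Γ (T : Set V)) :
    (mirU mir (T : Set V)).Acyclic := by
  have h := mirU_acyclic_aux mir hacyc T hT ∅ (by simpa using hTc)
  have e : (mirI mir ((∅ : Finset V) : Set V)).inf (mirU mir (T : Set V)) =
      mirU mir (T : Set V) := by
    apply Subcx.ext
    intro n x
    exact ⟨fun h => h.2, fun h => ⟨fun v hv => by simp at hv, h⟩⟩
  rwa [e] at h

/-! ### the filtration by length -/

variable (Γ)

/-- The chambers of length at most `m`, together with the chambers of `B`. -/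
def FB (m : ℕ) (B : Finset (RW Γ)) : Subcx (UC Γ mir) where
  mem n := {y | ∃ w x, y = umk Γ mir w x ∧ ((rcs Γ).length w ≤ m ∨ w ∈ B)}
  face_mem i y := by
    rintro ⟨w, x, rfl, h⟩
    exact ⟨w, X.d i x, rfl, h⟩

/-- A chamber. -/
def chm (w : RW Γ) : Subcx (UC Γ mir) :=
  (Subcx.top X).image (fun _ => umk Γ mir w) (fun _ _ _ => rfl)

variable {Γ}

lemma umk_inj (w : RW Γ) (n : ℕ) : Function.Injective (umk Γ mir (n := n) w) :=
  fun _ _ h => ((umk_eq Γ mir).1 h).1

lemma FB_step (hX : Acyclic X)
    (hdisj : ∀ u v n (x : X.S n), x ∈ (mir u).mem n → x ∈ (mir v).mem n → u = v ∨ Γ.Adj u v)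
    (hacyc : ∀ T : Finset V, T.Nonempty → IsClq Γ (T : Set V) → (mirI mir (T : Set V)).Acyclic)
    (m : ℕ) (h0 : (FB Γ mir m ∅).Acyclic) (B : Finset (RW Γ))
    (hB : ∀ w ∈ B, (rcs Γ).length w = m + 1) : (FB Γ mir m B).Acyclic := by
  classical
  have hclq : ∀ {n : ℕ} (x : X.S n), IsClq Γ (SX mir x) :=
    fun x u hu v hv => hdisj u v _ x hu hv
  induction B using Finset.induction_on with
  | empty => exact h0
  | insert w B hw ih =>
    have hwl : (rcs Γ).length w = m + 1 := hB w (by simp)
    have e1 : FB Γ mir m (insert w B) = (FB Γ mir m B).sup (chm Γ mir w) := by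
      apply Subcx.ext
      intro n y
      constructor
      · rintro ⟨w', x, rfl, h⟩
        rcases h with h | h
        · exact Or.inl ⟨w', x, rfl, Or.inl h⟩
        · rcases Finset.mem_insert.1 h with rfl | h
          · exact Or.inr ⟨x, trivial, rfl⟩
          · exact Or.inl ⟨w', x, rfl, Or.inr h⟩
      · rintro (⟨w', x, rfl, h⟩ | ⟨x, -, rfl⟩)
        · exact ⟨w', x, rfl, h.imp_right fun h => Finset.mem_insert_of_mem h⟩
        · exact ⟨w, x, rfl, Or.inr (by simp)⟩
    have hfin := finite_descents w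
    have hcoe : (hfin.toFinset : Set V) = {v : V | sgn w (sg Γ v) ≠ 0} := hfin.coe_toFinset
    have e2 : (FB Γ mir m B).inf (chm Γ mir w) =
        (mirU mir (hfin.toFinset : Set V)).image (fun _ => umk Γ mir w) (fun _ _ _ => rfl) := by
      apply Subcx.ext
      intro n y
      rw [hcoe]
      constructor
      · rintro ⟨⟨w', x', hy, h⟩, x, -, rfl⟩
        refine ⟨x, ?_, rfl⟩
        by_contra hx
        have hnd : NoDesc w (SX mir x) := by
          intro v hv
          by_contra hne
          exact hx ⟨v, hne, hv⟩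
        obtain ⟨rfl, ha⟩ := (umk_eq Γ mir).1 hy
        have hw' : w' = w * (w⁻¹ * w') := by rw [mul_inv_cancel_left]
        by_cases h1 : w⁻¹ * w' = 1
        · rw [inv_mul_eq_one] at h1
          subst h1
          rcases h with h | h
          · omega
          · exact hw h
        · have h2 := hnd.length_lt (hclq x) ha h1
          rw [← hw'] at h2
          rcases h with h | h
          · omega
          · have := hB w' (Finset.mem_insert_of_mem h)
            omega
      · rintro ⟨x, ⟨v, hv, hxv⟩, rfl⟩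
        refine ⟨⟨w * sg Γ v, x, ?_, Or.inl ?_⟩, x, trivial, rfl⟩
        · refine (umk_eq Γ mir).2 ⟨rfl, ?_⟩
          rw [inv_mul_cancel_left]
          exact sg_mem_WS hxv
        · have := length_mul_of_descent hv
          omega
    rw [e1]
    apply Subcx.Acyclic.sup (ih fun w' hw' => hB w' (Finset.mem_insert_of_mem hw'))
    · exact Subcx.Acyclic.image _ _ (Subcx.top_acyclic_iff.2 hX) (umk_inj mir w)
    · rw [e2]
      apply Subcx.Acyclic.image _ _ _ (umk_inj mir w)
      apply mirU_acyclic mir hacyc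
      · have hne : w ≠ 1 := by
          rintro rfl
          rw [(rcs Γ).length_one] at hwl
          omega
        obtain ⟨v, hv⟩ := exists_descent hne
        exact ⟨v, by simpa using hv⟩
      · rw [hcoe]
        intro a ha b hb
        by_cases hab : a = b
        · exact Or.inl hab
        · exact Or.inr (adj_of_descents ha hb hab)

lemma FB_acyclic (hX : Acyclic X)
    (hdisj : ∀ u v n (x : X.S n), x ∈ (mir u).mem n → x ∈ (mir v).mem n → u = v ∨ Γ.Adj u v)
    (hacyc : ∀ T : Finset V, T.Nonempty → IsClq Γ (T : Set V) → (mirI mir (T : Set V)).Acyclic)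
    (m : ℕ) : (FB Γ mir m ∅).Acyclic := by
  classical
  induction m with
  | zero =>
    have e : FB Γ mir 0 ∅ = chm Γ mir 1 := by
      apply Subcx.ext
      intro n y
      constructor
      · rintro ⟨w, x, rfl, h⟩
        have h1 : w = 1 := by
          rcases h with h | h
          · exact (rcs Γ).length_eq_zero_iff.1 (Nat.le_zero.1 h)
          · simp at h
        rw [h1]
        exact ⟨x, trivial, rfl⟩
      · rintro ⟨x, -, rfl⟩
        exact ⟨1, x, rfl, Or.inl (by rw [(rcs Γ).length_one])⟩
    rw [e]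
    exact Subcx.Acyclic.image _ _ (Subcx.top_acyclic_iff.2 hX) (umk_inj mir 1)
  | succ m ih =>
    have step := FB_step mir hX hdisj hacyc m ih
    -- every chain is supported in some `FB m B`
    have cover : ∀ n (c : (UC Γ mir).S n →₀ ℤ), c ∈ (FB Γ mir (m + 1) ∅).chains n →
        ∃ B : Finset (RW Γ), (∀ w ∈ B, (rcs Γ).length w = m + 1) ∧
          c ∈ (FB Γ mir m B).chains n := by
      intro n c hc
      rw [Subcx.chains, Finsupp.mem_supported] at hc
      have h1 : ∀ y : (UC Γ mir).S n, ∃ w : RW Γ, y ∈ c.support →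
          ∃ x, y = umk Γ mir w x ∧ (rcs Γ).length w ≤ m + 1 := by
        intro y
        by_cases hy : y ∈ c.support
        · obtain ⟨w, x, h, h2⟩ := hc hy
          refine ⟨w, fun _ => ⟨x, h, h2.resolve_right (by simp)⟩⟩
        · exact ⟨1, fun h => absurd h hy⟩
      choose g hg using h1
      refine ⟨(c.support.image g).filter fun w => (rcs Γ).length w = m + 1, fun w hw =>
        (Finset.mem_filter.1 hw).2, ?_⟩
      rw [Subcx.chains, Finsupp.mem_supported]
      intro y hy
      obtain ⟨x, h, hl⟩ := hg y hy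
      refine ⟨g y, x, h, ?_⟩
      rcases Nat.lt_or_ge m ((rcs Γ).length (g y)) with h3 | h3
      · right
        exact Finset.mem_filter.2 ⟨Finset.mem_image_of_mem g hy, by omega⟩
      · exact Or.inl h3
    have incl : ∀ (B : Finset (RW Γ)), (∀ w ∈ B, (rcs Γ).length w = m + 1) → ∀ n
        (c : (UC Γ mir).S n →₀ ℤ), c ∈ (FB Γ mir m B).chains n →
        c ∈ (FB Γ mir (m + 1) ∅).chains n := by
      intro B hB n c hc
      refine Subcx.chains_mono (A := FB Γ mir m B) ?_ hc
      rintro y ⟨w, x, h, h2⟩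
      refine ⟨w, x, h, Or.inl ?_⟩
      rcases h2 with h2 | h2
      · omega
      · exact (hB w h2).le
    refine ⟨?_, fun c hc hz => ?_, fun n c hc hz => ?_⟩
    · obtain ⟨y, w, x, h, h2⟩ := ih.1
      exact ⟨y, w, x, h, h2.imp_left fun h => by omega⟩
    · obtain ⟨B, hB, hcB⟩ := cover 0 c hc
      obtain ⟨b, hb, hb'⟩ := (step B hB).2.1 c hcB hz
      exact ⟨b, incl B hB 1 b hb, hb'⟩
    · obtain ⟨B, hB, hcB⟩ := cover (n + 1) c hc
      obtain ⟨b, hb, hb'⟩ := (step B hB).2.2 n c hcB hz
      exact ⟨b, incl B hB _ b hb, hb'⟩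

/-- Davis' theorem: `U(W, X)` is acyclic. -/
theorem UC_acyclic (hX : Acyclic X)
    (hdisj : ∀ u v n (x : X.S n), x ∈ (mir u).mem n → x ∈ (mir v).mem n → u = v ∨ Γ.Adj u v)
    (hacyc : ∀ T : Finset V, T.Nonempty → IsClq Γ (T : Set V) →
      (mirI mir (T : Set V)).Acyclic) : Acyclic (UC Γ mir) := by
  have hF := FB_acyclic mir hX hdisj hacyc
  have cover : ∀ n (c : (UC Γ mir).S n →₀ ℤ), ∃ m, c ∈ (FB Γ mir m ∅).chains n := by
    intro n c
    choose g x hg using umk_surj Γ mir (n := n)
    refine ⟨c.support.sup fun y => (rcs Γ).length (g y), ?_⟩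
    rw [Subcx.chains, Finsupp.mem_supported]
    intro y hy
    exact ⟨g y, x y, (hg y).symm, Or.inl (Finset.le_sup (f := fun y => (rcs Γ).length (g y)) hy)⟩
  refine ⟨?_, fun c hc => ?_, fun n c hc => ?_⟩
  · obtain ⟨x⟩ := hX.1
    exact ⟨umk Γ mir 1 x⟩
  · obtain ⟨m, hm⟩ := cover 0 c
    obtain ⟨b, -, hb⟩ := (hF m).2.1 c hm hc
    exact ⟨b, hb⟩
  · obtain ⟨m, hm⟩ := cover (n + 1) c
    obtain ⟨b, -, hb⟩ := (hF m).2.2 n c hm hc
    exact ⟨b, hb⟩

end Pool.Agent.LibRefl75
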