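import Pool.Agent.LibRefl75.Main
import Pool.Agent.LibRefl75.UWX

/-!
The action of `W ⋊ π` on `U(W, X)` and the reflections.
-/

set_option autoImplicit false

namespace Pool.Agent.LibRefl75

open Pool.Agent.LibZIS

universe u v w x y

section action

variable {V : Type v} (L : SimpleGraph V) {π : Type u} [Group π] [MulAction π V]
  (φ : π →* MulAut (RW L)) (hφ : ∀ (g : π) (a : V), φ g (sg L a) = sg L (g • a))
  {X : DeltaCx.{w}} [∀ n, MulAction π (X.S n)] (mir : V → Subcx X)
  (hmir : ∀ (g : π) (a : V) (n : ℕ) (x : X.S n), x ∈ (mir a).mem n → g • x ∈ (mir (g • a)).mem n)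

include hφ hmir in
lemma gact_WS (g : π) {n : ℕ} (x : X.S n) {a : RW L} (ha : a ∈ WS L (SX mir x)) :
    φ g a ∈ WS L (SX mir (g • x)) := by
  induction ha using Subgroup.closure_induction with
  | mem y hy =>
    obtain ⟨b, hb, rfl⟩ := hy
    rw [hφ]
    exact sg_mem_WS (hmir g b n x hb)
  | one => rw [map_one]; exact Subgroup.one_mem _
  | mul y z _ _ hy hz => rw [map_mul]; exact Subgroup.mul_mem _ hy hz
  | inv y _ hy => rw [map_inv]; exact Subgroup.inv_mem _ hy

/-- The action of `W ⋊ π` on `U(W, X)`. -/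
@[instance_reducible]
noncomputable def ucAct (n : ℕ) : MulAction (RW L ⋊[φ] π) ((UC L mir).S n) where
  smul a := Quotient.map (sa := URel L mir n) (sb := URel L mir n)
    (fun p => (a.left * φ a.right p.1, a.right • p.2)) (by
      rintro p q ⟨h1, h2⟩
      refine ⟨congrArg (a.right • ·) h1, ?_⟩
      have h3 := gact_WS L φ hφ mir hmir a.right p.2 h2
      rw [map_mul, map_inv] at h3
      show (a.left * φ a.right p.1)⁻¹ * (a.left * φ a.right q.1) ∈
        WS L (SX mir (a.right • p.2))
      rwa [mul_inv_rev, mul_assoc, inv_mul_cancel_left])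
  one_smul y := by
    obtain ⟨w, x, rfl⟩ := umk_surj L mir y
    show umk L mir (1 * φ 1 w) ((1 : π) • x) = umk L mir w x
    rw [map_one, one_smul, one_mul]
    rfl
  mul_smul a b y := by
    obtain ⟨w, x, rfl⟩ := umk_surj L mir y
    show umk L mir ((a * b).left * φ (a * b).right w) ((a * b).right • x) =
      umk L mir (a.left * φ a.right (b.left * φ b.right w))
        (a.right • b.right • x)
    rw [SemidirectProduct.mul_left, SemidirectProduct.mul_right, map_mul, mul_smul, map_mul,
      mul_assoc]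
    rfl

end action

section davis

variable {V : Type v} (L : SimpleGraph V) {π : Type u} [Group π] [MulAction π V]
  (φ : π →* MulAut (RW L)) (hφ : ∀ (g : π) (a : V), φ g (sg L a) = sg L (g • a))
  {X : DeltaCx.{w}} [∀ n, MulAction π (X.S n)]
  (hXd : ∀ (n : ℕ) (i : Fin (n + 2)) (g : π) (x : X.S (n + 1)), X.d i (g • x) = g • X.d i x)
  (hXf : ∀ (n : ℕ) (g : π) (x : X.S n), g • x = x → g = 1)
  (mir : V → Subcx X)
  (hmir : ∀ (g : π) (a : V) (n : ℕ) (x : X.S n), x ∈ (mir a).mem n → g • x ∈ (mir (g • a)).mem n)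
  (hdisj : ∀ a b n (x : X.S n), x ∈ (mir a).mem n → x ∈ (mir b).mem n → a = b ∨ L.Adj a b)

lemma WS_sq {S : Set V} (hS : IsClq L S) {a : RW L} (ha : a ∈ WS L S) : a * a = 1 := by
  induction ha using Subgroup.closure_induction with
  | mem y hy =>
    obtain ⟨b, hb, rfl⟩ := hy
    exact sg_mul_self b
  | one => simp
  | mul y z hy hz hy' hz' =>
    have hc : y * z = z * y := by
      clear hy' hz'
      induction hz using Subgroup.closure_induction with
      | mem t ht =>
        obtain ⟨b, hb, rfl⟩ := ht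
        exact WS_comm (fun u hu => hS u hu b hb) hy
      | one => simp
      | mul s t _ _ hs ht => rw [← mul_assoc, hs, mul_assoc, ht, mul_assoc]
      | inv s _ hs => rw [mul_inv_eq_iff_eq_mul, mul_assoc, hs, inv_mul_cancel_left]
    calc y * z * (y * z) = y * z * (z * y) := by rw [← hc]
      _ = y * (z * z) * y := by simp only [mul_assoc]
      _ = 1 := by rw [hz', mul_one, hy']
  | inv y _ hy => rw [← mul_inv_rev, hy, inv_one]

include hXf hdisj in
lemma uc_free (g : RW L ⋊[φ] π) (n : ℕ) (y : (UC L mir).S n)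
    (hy : (ucAct L φ hφ mir hmir n).smul g y = y) : g * g = 1 := by
  obtain ⟨w, x, rfl⟩ := umk_surj L mir y
  obtain ⟨a, p⟩ := g
  have hy' : umk L mir (a * φ p w) (p • x) = umk L mir w x := hy
  obtain ⟨h3, h4⟩ := (umk_eq L mir).1 hy'
  have hp : p = 1 := hXf n p x h3
  subst hp
  rw [one_smul, map_one] at h4
  have h5 := WS_sq L (fun u hu v hv => hdisj u v n x hu hv) h4
  have h6 : a * a = 1 := by
    have e : (a * (1 : MulAut (RW L)) w)⁻¹ * w = w⁻¹ * a⁻¹ * w := by
      rw [MulAut.one_apply, mul_inv_rev]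
    rw [e] at h5
    have h7 : w * (w⁻¹ * a⁻¹ * w * (w⁻¹ * a⁻¹ * w)) * w⁻¹ = a⁻¹ * a⁻¹ := by group
    rw [h5, mul_one, mul_inv_cancel] at h7
    rw [← mul_inv_rev, eq_comm, inv_eq_one] at h7
    exact h7
  ext
  · show a * φ 1 a = 1
    rw [map_one]
    exact h6
  · show (1 : π) * 1 = 1
    rw [one_mul]

/-- The reflection of `U(W, X)` in the mirror `a`. -/
noncomputable def rfl' (a : V) (n : ℕ) (y : (UC L mir).S n) : (UC L mir).S n :=
  Quotient.map (sa := URel L mir n) (sb := URel L mir n) (fun p => (sg L a * p.1, p.2)) (by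
    rintro p q ⟨h1, h2⟩
    refine ⟨h1, ?_⟩
    show (sg L a * p.1)⁻¹ * (sg L a * q.1) ∈ WS L (SX mir p.2)
    rwa [mul_inv_rev, mul_assoc, inv_mul_cancel_left]) y

lemma rfl'_umk (a : V) (n : ℕ) (w : RW L) (x : X.S n) :
    rfl' L mir a n (umk L mir w x) = umk L mir (sg L a * w) x := rfl

lemma rfl'_rfl' (a : V) (n : ℕ) (y : (UC L mir).S n) :
    rfl' L mir a n (rfl' L mir a n y) = y := by
  obtain ⟨w, x, rfl⟩ := umk_surj L mir y
  rw [rfl'_umk, rfl'_umk, ← mul_assoc, sg_mul_self, one_mul]

lemma rfl'_comm {a b : V} (h : a = b ∨ L.Adj a b) (n : ℕ) (y : (UC L mir).S n) :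
    rfl' L mir a n (rfl' L mir b n y) = rfl' L mir b n (rfl' L mir a n y) := by
  obtain ⟨w, x, rfl⟩ := umk_surj L mir y
  rw [rfl'_umk, rfl'_umk, rfl'_umk, rfl'_umk, ← mul_assoc, sg_comm' h, mul_assoc]

lemma rfl'_face (a : V) (n : ℕ) (i : Fin (n + 2)) (y : (UC L mir).S (n + 1)) :
    (UC L mir).d i (rfl' L mir a (n + 1) y) = rfl' L mir a n ((UC L mir).d i y) := by
  obtain ⟨w, x, rfl⟩ := umk_surj L mir y
  rfl

/-- The simplices fixed by the reflections in a set of mirrors. -/
noncomputable def fixCx (R : Set V) : Subcx (UC L mir) where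
  mem n := {y | ∀ a ∈ R, rfl' L mir a n y = y}
  face_mem i y hy := fun a ha => by rw [← rfl'_face, hy a ha]

/-- The half-space of a mirror, intersected with a fixed subcomplex. -/
noncomputable def halfCx (R : Set V) (a : V) : Subcx (UC L mir) where
  mem n := {y | y ∈ (fixCx L mir R).mem n ∧ ∃ w x, y = umk L mir w x ∧ side a w = 0}
  face_mem i y hy := ⟨(fixCx L mir R).face_mem i hy.1, by
    obtain ⟨w, x, rfl, h⟩ := hy.2
    exact ⟨w, X.d i x, rfl, h⟩⟩

include hdisj in
lemma crossing' (a : V) {n : ℕ} (w : RW L) (x : X.S n) {b : RW L} (hb : b ∈ WS L (SX mir x))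
    (h : side a (w * b) ≠ side a w) :
    x ∈ (mir a).mem n ∧ w⁻¹ * sg L a * w = sg L a :=
  crossing (fun u hu v hv => hdisj u v n x hu hv) a w hb h

include hdisj in
/-- The simplices fixed by the reflections of a maximal clique. -/
lemma fixCx_max (T : Finset V) (hT : IsClq L (T : Set V))
    (hmax : ∀ a, (∀ b ∈ T, a = b ∨ L.Adj a b) → a ∈ T) (n : ℕ) (y : (UC L mir).S n) :
    y ∈ (fixCx L mir (T : Set V)).mem n ↔ ∃ x ∈ (mirI mir (T : Set V)).mem n,
      y = umk L mir 1 x := by
  constructor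
  · intro hy
    obtain ⟨w, x, rfl⟩ := umk_surj L mir y
    have key : ∀ a ∈ T, x ∈ (mir a).mem n ∧ w⁻¹ * sg L a * w = sg L a := by
      intro a ha
      have h1 : umk L mir (sg L a * w) x = umk L mir w x := hy a ha
      obtain ⟨-, h2⟩ := (umk_eq L mir).1 h1
      apply crossing' L mir hdisj a w x (b := w⁻¹ * sg L a * w)
      · rwa [mul_inv_rev, sg_inv] at h2
      · have : w * (w⁻¹ * sg L a * w) = sg L a * w := by group
        rw [this, side_left]
        intro h3
        rw [add_eq_right] at h3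
        exact absurd h3 (by decide)
    refine ⟨x, fun a ha => (key a ha).1, (umk_eq L mir).2 ⟨rfl, ?_⟩⟩
    rw [mul_one]
    apply Subgroup.inv_mem
    have h4 : w ∈ WS L (T : Set V) := by
      refine centralizer_maxClique hT (fun u hu => hmax u fun b hb => hu b hb) _ w le_rfl ?_
      intro a ha
      have h5 := (key a ha).2
      calc w * sg L a = w * (w⁻¹ * sg L a * w) := by rw [h5]
        _ = sg L a * w := by group
    exact WS_mono (fun a ha => (key a ha).1) h4
  · rintro ⟨x, hx, rfl⟩ a ha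
    rw [rfl'_umk]
    refine (umk_eq L mir).2 ⟨rfl, ?_⟩
    rw [mul_one, mul_one, sg_inv]
    exact sg_mem_WS (hx a ha)

include hφ hXd hXf hmir hdisj in
theorem davis_main (hX : Acyclic X)
    (hacyc : ∀ T : Finset V, T.Nonempty → IsClq L (T : Set V) → (mirI mir (T : Set V)).Acyclic)
    (T : Finset V) (hT : IsClq L (T : Set V))
    (hmax : ∀ a, (∀ b ∈ T, a = b ∨ L.Adj a b) → a ∈ T)
    (hfin : ((mirI mir (T : Set V)).mem 0).Finite)
    {Λ : Type y} [Group Λ] (f : Λ →* RW L ⋊[φ] π) (hf : Function.Injective f)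
    (hfi : f.range.FiniteIndex) (h2 : ∀ a : Λ, a * a = 1 → a = 1)
    {E : Type x} [TopologicalSpace E] [ContractibleSpace E] [MulAction Λ E]
    [ContinuousConstSMul Λ E] (hfree : ∀ (g : Λ) (e : E), g • e = e → g = 1) :
    ∃ i ≤ T.card, Nontrivial (Hgy (lam Λ) E i) := by
  classical
  let actG : ∀ n, MulAction (RW L ⋊[φ] π) ((UC L mir).S n) := ucAct L φ hφ mir hmir
  let actΛ : ∀ n, MulAction Λ ((UC L mir).S n) := fun n => MulAction.compHom _ f
  -- basic facts on the action
  have hsmul : ∀ (g : RW L ⋊[φ] π) (n : ℕ) (w : RW L) (x : X.S n),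
      g • umk L mir w x = umk L mir (g.left * φ g.right w) (g.right • x) :=
    fun _ _ _ _ => rfl
  have hK : ∀ (n : ℕ) (i : Fin (n + 2)) (g : Λ) (y : (UC L mir).S (n + 1)),
      (UC L mir).d i (g • y) = g • (UC L mir).d i y := by
    intro n i g y
    obtain ⟨w, x, rfl⟩ := umk_surj L mir y
    show (UC L mir).d i (f g • umk L mir w x) = f g • (UC L mir).d i (umk L mir w x)
    rw [hsmul, umk_d, umk_d, hsmul, hXd]
  have hKf : ∀ (n : ℕ) (g : Λ) (y : (UC L mir).S n), g • y = y → g = 1 :=
    fun n g y hy => h2 g (hf (by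
      rw [map_mul, map_one]
      exact uc_free L φ hφ hXf mir hmir hdisj (f g) n y hy))
  have hKa : Acyclic (UC L mir) := UC_acyclic mir hX hdisj hacyc
  have hrfl : ∀ (a : V) (n : ℕ) (y : (UC L mir).S n),
      rfl' L mir a n y = (SemidirectProduct.inl (sg L a) : RW L ⋊[φ] π) • y := by
    intro a n y
    obtain ⟨w, x, rfl⟩ := umk_surj L mir y
    rw [hsmul, rfl'_umk, SemidirectProduct.left_inl, SemidirectProduct.right_inl, map_one,
      one_smul]
    rfl
  -- the reflections
  have hrefl : ∀ (R : Finset V) (a : V), a ∈ T → R ⊆ T →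
      IsReflection Λ (fixCx L mir (R : Set V)) (rfl' L mir a) (halfCx L mir (R : Set V) a) := by
    intro R a ha hR
    have hmem : ∀ n, ∀ y ∈ (fixCx L mir (R : Set V)).mem n,
        rfl' L mir a n y ∈ (fixCx L mir (R : Set V)).mem n := by
      intro n y hy b hb
      rw [rfl'_comm L mir (hT b (hR hb) a ha), hy b hb]
    refine ⟨hmem, fun n y _ => rfl'_rfl' L mir a n y, fun n i y _ => rfl'_face L mir a n i y,
      fun n y hy => hy.1, ?_, ?_, ?_⟩
    · intro n y hy
      obtain ⟨w, x, rfl⟩ := umk_surj L mir y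
      by_cases hs : side a w = 0
      · exact Or.inl ⟨hy, w, x, rfl, hs⟩
      · refine Or.inr ⟨hmem n _ hy, sg L a * w, x, rfl, ?_⟩
        rw [side_left]
        have : ∀ z : ZMod 2, z ≠ 0 → 1 + z = 0 := by decide
        exact this _ hs
    · rintro n y ⟨-, w, x, rfl, hs⟩ ⟨-, w', x', he, hs'⟩
      rw [rfl'_umk] at he
      obtain ⟨rfl, hb⟩ := (umk_eq L mir).1 he
      have h3 := crossing' L mir hdisj a (sg L a * w) x hb (by
        rw [mul_inv_cancel_left, hs', side_left, hs]
        decide)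
      rw [rfl'_umk]
      refine (umk_eq L mir).2 ⟨rfl, ?_⟩
      have h4 : (sg L a * w)⁻¹ * w = sg L a := by
        have h5 := h3.2
        rw [mul_inv_rev, sg_inv] at h5 ⊢
        have h6 : w⁻¹ * sg L a * sg L a * (sg L a * w) = w⁻¹ * sg L a * w := by
          rw [mul_assoc (w⁻¹ * sg L a), ← mul_assoc (sg L a) (sg L a) w, sg_mul_self, one_mul]
        rwa [h6] at h5
      rw [h4]
      exact sg_mem_WS h3.1
    · intro n y
      obtain ⟨t, ht⟩ := Set.Finite.exists_finset_coe (Set.finite_range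
        (fun q : (RW L ⋊[φ] π) ⧸ f.range => (Quotient.out q)⁻¹ • y))
      refine ⟨t, fun g _ => ?_⟩
      have h3 : rfl' L mir a n (g • y) =
          ((SemidirectProduct.inl (sg L a) : RW L ⋊[φ] π) * f g) • y := by
        rw [hrfl, mul_smul]
        rfl
      set k : RW L ⋊[φ] π := SemidirectProduct.inl (sg L a) * f g with hk
      refine ⟨(Quotient.out ((k⁻¹ : RW L ⋊[φ] π) :
        (RW L ⋊[φ] π) ⧸ f.range))⁻¹ • y, ?_, ?_⟩
      · rw [← Finset.mem_coe, ht]
        exact ⟨_, rfl⟩
      · rw [h3]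
        obtain ⟨⟨l, l', hl'⟩, hl⟩ := QuotientGroup.mk_out_eq_mul f.range (k⁻¹)
        refine ⟨l', ?_⟩
        show f l' • ((Quotient.out ((k⁻¹ : RW L ⋊[φ] π) :
          (RW L ⋊[φ] π) ⧸ f.range))⁻¹ • y) = k • y
        rw [hl, smul_smul, mul_inv_rev, inv_inv]
        show (f l' * (l⁻¹ * k)) • y = k • y
        rw [hl', mul_inv_cancel_left]
  -- the iterated walls
  have hwall : ∀ R : Finset V, R ⊆ T → IteratedWall Λ (fixCx L mir (R : Set V)) R.card := by
    intro R
    induction R using Finset.induction_on with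
    | empty =>
      intro _
      have e : fixCx L mir ((∅ : Finset V) : Set V) = Subcx.top (UC L mir) := by
        apply Subcx.ext
        intro n y
        exact ⟨fun _ => trivial, fun _ a ha => by simp at ha⟩
      rw [e, Finset.card_empty]
      exact IteratedWall.top
    | insert a R haR ih =>
      intro hR
      have h3 := ih fun b hb => hR (Finset.mem_insert_of_mem hb)
      have h4 := hrefl R a (hR (Finset.mem_insert_self a R))
        fun b hb => hR (Finset.mem_insert_of_mem hb)
      have e : fixCx L mir ((insert a R : Finset V) : Set V) = h4.wall := by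
        apply Subcx.ext
        intro n y
        constructor
        · intro hy
          exact ⟨fun b hb => hy b (by simp at hb ⊢; exact Or.inr hb), hy a (by simp)⟩
        · rintro ⟨h5, h6⟩ b hb
          simp only [Finset.coe_insert, Set.mem_insert_iff] at hb
          rcases hb with rfl | hb
          · exact h6
          · exact h5 b hb
      rw [e, Finset.card_insert_of_notMem haR]
      exact IteratedWall.step h3 h4
  by_contra hcon
  push Not at hcon
  have hzero : L2Zero Λ (fixCx L mir (T : Set V)) 0 :=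
    l2Zero_iteratedWall (E := E) hfree hK hKf hKa (hwall T (Finset.Subset.refl T)) 0
      (fun i hi => by
        rw [not_nontrivial_iff_subsingleton]
        exact hcon i (by simpa using hi))
  have hfix := fixCx_max L mir hdisj T hT hmax
  refine not_l2Zero_of_finite hKf (fixCx L mir (T : Set V)) ((fixCx L mir (T : Set V)).mem 0)
    ?_ ?_ (fun _ h => h) (fun y hy => ?_) hzero
  · refine (hfin.image (umk L mir 1)).subset fun y hy => ?_
    obtain ⟨x, hx, rfl⟩ := (hfix 0 y).1 hy
    exact ⟨x, hx, rfl⟩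
  · have hne : ((mirI mir (T : Set V)).mem 0).Nonempty := by
      rcases T.eq_empty_or_nonempty with rfl | hne
      · obtain ⟨x⟩ := hX.1
        exact ⟨x, fun a ha => by simp at ha⟩
      · exact (hacyc T hne hT).1
    obtain ⟨x, hx⟩ := hne
    exact ⟨umk L mir 1 x, (hfix 0 _).2 ⟨x, hx, rfl⟩⟩
  · exact ⟨fun _ => (fixCx L mir (T : Set V)).face_mem 1 hy,
      fun _ => (fixCx L mir (T : Set V)).face_mem 0 hy⟩

end davis

end Pool.Agent.LibRefl75
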