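import Mathlib

/-!
Δ-complexes (semisimplicial sets), their integral chain complexes, subcomplexes.
-/

set_option autoImplicit false

namespace Pool.Agent.LibRefl75

universe u v w

/-- A Δ-complex (semisimplicial set): sets of `n`-simplices and face maps satisfying the
simplicial identities. -/
structure DeltaCx where
  /-- the `n`-simplices -/
  S : ℕ → Type u
  /-- the `i`-th face of a simplex -/
  d : ∀ {n : ℕ}, Fin (n + 2) → S (n + 1) → S n
  d_d : ∀ {n : ℕ} (i j : Fin (n + 2)), i ≤ j → ∀ x : S (n + 2),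
    d i (d j.succ x) = d j (d i.castSucc x)

/-- The boundary operator `∑ (-1)^i d_i` on chains with coefficients in `A`. -/
noncomputable def bdK (K : DeltaCx.{u}) (A : Type v) [AddCommGroup A] (n : ℕ) :
    (K.S (n + 1) →₀ A) →+ (K.S n →₀ A) :=
  ∑ i : Fin (n + 2), (-1 : ℤ) ^ (i : ℕ) • Finsupp.mapDomain.addMonoidHom (K.d i)

/-- `K` is acyclic: its integral homology is that of a point. -/
def Acyclic (K : DeltaCx.{u}) : Prop :=
  Nonempty (K.S 0) ∧
  (∀ c : K.S 0 →₀ ℤ, (c.sum fun _ a => a) = 0 → ∃ b : K.S 1 →₀ ℤ, bdK K ℤ 0 b = c) ∧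
  ∀ (n : ℕ) (c : K.S (n + 1) →₀ ℤ), bdK K ℤ n c = 0 → ∃ b : K.S (n + 2) →₀ ℤ,
    bdK K ℤ (n + 1) b = c

/-- A subcomplex of a Δ-complex. -/
structure Subcx (K : DeltaCx.{v}) where
  /-- the simplices of the subcomplex -/
  mem : ∀ n : ℕ, Set (K.S n)
  face_mem : ∀ {n : ℕ} (i : Fin (n + 2)) {x : K.S (n + 1)}, x ∈ mem (n + 1) → K.d i x ∈ mem n

/-- A subcomplex, as a Δ-complex. -/
def Subcx.toCx {K : DeltaCx.{v}} (F : Subcx K) : DeltaCx.{v} where
  S n := {x : K.S n // x ∈ F.mem n}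
  d i x := ⟨K.d i x.1, F.face_mem i x.2⟩
  d_d i j h x := Subtype.ext (K.d_d i j h x.1)

/-- The whole complex. -/
def Subcx.top (K : DeltaCx.{v}) : Subcx K where
  mem _ := Set.univ
  face_mem _ _ _ := trivial

end Pool.Agent.LibRefl75
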