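import Pool.Agent.LibRefl75.Defs

/-!
Right-angled Coxeter groups and complexes with mirrors.
-/

set_option autoImplicit false

namespace Pool.Agent.LibRefl75

universe u v w

open Classical in
/-- The Coxeter matrix of a right-angled Coxeter group: the generators of adjacent vertices
commute, the product of the generators of distinct non-adjacent vertices has infinite order. -/
noncomputable def raMatrix {V : Type v} (L : SimpleGraph V) : CoxeterMatrix V where
  M := Matrix.of fun v w => if v = w then 1 else if L.Adj v w then 2 else 0
  isSymm := by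
    ext v w
    simp only [Matrix.transpose_apply, Matrix.of_apply, eq_comm (a := w), L.adj_comm w]
  diagonal v := by simp
  off_diagonal v w h := by
    simp only [Matrix.of_apply, if_neg h]
    split_ifs <;> simp

/-- The right-angled Coxeter group of a graph. -/
abbrev RW {V : Type v} (L : SimpleGraph V) : Type v := (raMatrix L).Group

/-- The Coxeter system of the right-angled Coxeter group of a graph. -/
noncomputable abbrev rcs {V : Type v} (L : SimpleGraph V) : CoxeterSystem (raMatrix L) (RW L) :=
  (raMatrix L).toCoxeterSystem

/-- The generator of the right-angled Coxeter group attached to a vertex. -/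
noncomputable abbrev sg {V : Type v} (L : SimpleGraph V) (a : V) : RW L := (rcs L).simple a

/-- A set of pairwise equal or adjacent vertices. -/
def IsClq {V : Type v} (L : SimpleGraph V) (S : Set V) : Prop :=
  ∀ a ∈ S, ∀ b ∈ S, a = b ∨ L.Adj a b

/-- The intersection of a set of mirrors. -/
def mirI {V : Type v} {X : DeltaCx.{w}} (mir : V → Subcx X) (T : Set V) : Subcx X where
  mem n := {x | ∀ v ∈ T, x ∈ (mir v).mem n}
  face_mem i _ h := fun v hv => (mir v).face_mem i (h v hv)

/-- `X` is an acyclic Δ-complex with mirrors `mir a` indexed by the vertices `a` of a graph `L`;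
mirrors of distinct non-adjacent vertices are disjoint and the intersection of the mirrors of
every nonempty finite clique is acyclic. The group `π` acts freely on `X` and permutes the
mirrors as it permutes the vertices of `L`. -/
structure Mirrored {V : Type v} (L : SimpleGraph V) (π : Type u) [Group π] [MulAction π V]
    (X : DeltaCx.{w}) [∀ n, MulAction π (X.S n)] (mir : V → Subcx X) : Prop where
  face : ∀ (n : ℕ) (i : Fin (n + 2)) (g : π) (x : X.S (n + 1)), X.d i (g • x) = g • X.d i x
  free : ∀ (n : ℕ) (g : π) (x : X.S n), g • x = x → g = 1
  perm : ∀ (g : π) (a : V) (n : ℕ) (x : X.S n), x ∈ (mir a).mem n → g • x ∈ (mir (g • a)).mem n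
  disj : ∀ (a b : V) (n : ℕ) (x : X.S n),
    x ∈ (mir a).mem n → x ∈ (mir b).mem n → a = b ∨ L.Adj a b
  acyclic : Acyclic X
  inter : ∀ T : Finset V, T.Nonempty → IsClq L (T : Set V) → Acyclic (mirI mir (T : Set V)).toCx

/-- A maximal clique of a graph. -/
def IsMaxClq {V : Type v} (L : SimpleGraph V) (T : Finset V) : Prop :=
  IsClq L (T : Set V) ∧ ∀ a, (∀ b ∈ T, a = b ∨ L.Adj a b) → a ∈ T

end Pool.Agent.LibRefl75
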