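import Pool.Agent.LibRefl75.Defs

/-!
Square-summable cochains and reflections.
-/

set_option autoImplicit false

namespace Pool.Agent.LibRefl75

universe u v w

/-- The coboundary of a function on simplices. -/
def cobV (K : DeltaCx.{v}) {V : Type w} [AddCommGroup V] {n : ℕ} (c : K.S n → V) :
    K.S (n + 1) → V := fun x => ∑ i : Fin (n + 2), (-1 : ℤ) ^ (i : ℕ) • c (K.d i x)

variable (G : Type u) [Group G] {K : DeltaCx.{v}} [∀ n, MulAction G (K.S n)]

/-- The cochain `f` is square-summable on each `G`-orbit of simplices. -/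
def SqSum {n : ℕ} (f : K.S n → ℂ) : Prop :=
  ∀ x : K.S n, Memℓp (fun g : G => f (g • x)) 2

/-- The square-summable cohomology of the subcomplex `F` vanishes in the given degree: every
square-summable cocycle on `F` is the coboundary of a square-summable cochain. -/
def L2Zero (F : Subcx K) : ℕ → Prop
  | 0 => ∀ f : K.S 0 → ℂ, SqSum G f → (∀ x ∈ F.mem 1, cobV K f x = 0) → ∀ x ∈ F.mem 0, f x = 0
  | k + 1 => ∀ f : K.S (k + 1) → ℂ, SqSum G f → (∀ x ∈ F.mem (k + 2), cobV K f x = 0) →
      ∃ b : K.S k → ℂ, SqSum G b ∧ ∀ x ∈ F.mem (k + 1), cobV K b x = f x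

/-- `s` is a reflection of the subcomplex `F`, with half-space `H`: an involutive automorphism of
`F` with `F = H ∪ sH`, fixing `H ∩ sH` pointwise, which maps every `G`-orbit of simplices into a
finite union of `G`-orbits. -/
structure IsReflection (F : Subcx K) (s : ∀ n : ℕ, K.S n → K.S n) (H : Subcx K) : Prop where
  map_mem : ∀ n, ∀ x ∈ F.mem n, s n x ∈ F.mem n
  invol : ∀ n, ∀ x ∈ F.mem n, s n (s n x) = x
  face : ∀ n (i : Fin (n + 2)), ∀ x ∈ F.mem (n + 1), K.d i (s (n + 1) x) = s n (K.d i x)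
  sub : ∀ n, ∀ x ∈ H.mem n, x ∈ F.mem n
  cover : ∀ n, ∀ x ∈ F.mem n, x ∈ H.mem n ∨ s n x ∈ H.mem n
  fix : ∀ n, ∀ x ∈ H.mem n, s n x ∈ H.mem n → s n x = x
  orbits : ∀ n (x : K.S n), ∃ T : Finset (K.S n), ∀ g : G, g • x ∈ F.mem n →
    ∃ t ∈ T, s n (g • x) ∈ MulAction.orbit G t

variable {G}

/-- The wall of a reflection: the fixed simplices. -/
def IsReflection.wall {F : Subcx K} {s : ∀ n : ℕ, K.S n → K.S n} {H : Subcx K}
    (h : IsReflection G F s H) : Subcx K where
  mem n := {x | x ∈ F.mem n ∧ s n x = x}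
  face_mem i x hx := ⟨F.face_mem i hx.1, by rw [← h.face _ i _ hx.1, hx.2]⟩

variable (G)

/-- Iterated walls: `K` is the iterated wall of depth `0`, and the wall of a reflection of an
iterated wall of depth `k` is an iterated wall of depth `k + 1`. -/
inductive IteratedWall : Subcx K → ℕ → Prop
  | top : IteratedWall (Subcx.top K) 0
  | step {F : Subcx K} {k : ℕ} {s : ∀ n : ℕ, K.S n → K.S n} {H : Subcx K}
      (hF : IteratedWall F k) (h : IsReflection G F s H) : IteratedWall h.wall (k + 1)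

end Pool.Agent.LibRefl75
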