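import Pool.Agent.LibRefl75.Defs

/-!
Δ-complexes (semisimplicial sets), their integral chain complexes, subcomplexes.
-/

set_option autoImplicit false

namespace Pool.Agent.LibRefl75

universe u v w

variable (K : DeltaCx.{u})

/-- The alternating double sum over the faces of the faces vanishes. -/
lemma alt_alt {N : Type v} [AddCommGroup N] {n : ℕ} (φ : K.S n → N) (x : K.S (n + 2)) :
    ∑ i : Fin (n + 3), (-1 : ℤ) ^ (i : ℕ) • ∑ j : Fin (n + 2), (-1 : ℤ) ^ (j : ℕ) •
      φ (K.d j (K.d i x)) = 0 := by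
  simp only [Finset.smul_sum, smul_smul, ← pow_add]
  rw [← Finset.sum_product']
  set P := Fin (n + 3) × Fin (n + 2)
  let S : Finset P := {ij : P | (ij.2 : ℕ) < (ij.1 : ℕ)}
  rw [Finset.univ_product_univ, ← Finset.sum_add_sum_compl S, ← eq_neg_iff_add_eq_zero,
    ← Finset.sum_neg_distrib]
  let φ' : ∀ ij : P, ij ∈ S → P := fun ij hij =>
    (Fin.castSucc ij.2,
      Fin.pred ij.1 fun h => by
        have := (Finset.mem_filter.1 hij).2
        rw [h] at this
        simp at this)
  apply Finset.sum_bij φ'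
  · rintro ⟨i, j⟩ hij
    simp only [S, φ', Finset.compl_filter, Finset.mem_filter, Finset.mem_univ, true_and,
      Fin.val_castSucc, Fin.val_pred] at hij ⊢
    omega
  · rintro ⟨i, j⟩ hij ⟨i', j'⟩ hij' h
    rw [Prod.mk_inj]
    exact ⟨by simpa [φ'] using congr_arg Prod.snd h,
      by simpa [φ', Fin.castSucc_inj] using congr_arg Prod.fst h⟩
  · rintro ⟨i', j'⟩ hij'
    simp only [S, Finset.compl_filter, Finset.mem_filter, Finset.mem_univ, true_and,
      not_lt] at hij'
    refine ⟨(j'.succ, Fin.castLT i' (by have := j'.2; omega)), ?_, ?_⟩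
    · simp only [S, Finset.mem_filter, Finset.mem_univ, true_and, Fin.val_castLT, Fin.val_succ]
      omega
    · ext <;> simp [φ']
  · rintro ⟨i, j⟩ hij
    have hij2 := (Finset.mem_filter.1 hij).2
    simp only at hij2
    have hi : i ≠ 0 := by rintro rfl; simp at hij2
    obtain ⟨i', rfl⟩ := Fin.exists_succ_eq.2 hi
    simp only [φ', Fin.val_castSucc, Fin.pred_succ]
    rw [K.d_d j i' (by rw [Fin.le_def]; simp at hij2; omega) x, ← neg_smul]
    congr 1
    rw [Fin.val_succ]
    ring

lemma bdK_single (A : Type v) [AddCommGroup A] (n : ℕ) (s : K.S (n + 1)) (m : A) :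
    bdK K A n (Finsupp.single s m) =
      ∑ i : Fin (n + 2), (-1 : ℤ) ^ (i : ℕ) • Finsupp.single (K.d i s) m := by
  simp [bdK, Finsupp.mapDomain.addMonoidHom, Finsupp.mapDomain_single]

lemma bdK_bdK (A : Type v) [AddCommGroup A] (n : ℕ) (c : K.S (n + 2) →₀ A) :
    bdK K A n (bdK K A (n + 1) c) = 0 := by
  induction c using Finsupp.induction_linear with
  | zero => simp
  | add x y hx hy => rw [map_add, map_add, hx, hy, add_zero]
  | single s m =>
    rw [bdK_single, map_sum]
    simp only [map_zsmul, bdK_single]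
    exact alt_alt K (fun y => Finsupp.single y m) s

end Pool.Agent.LibRefl75
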