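import Pool.Agent.LibRefl75.Racg

/-!
A group of automorphisms of a graph acts on its right-angled Coxeter group by permuting the
generators.
-/

set_option autoImplicit false

namespace Pool.Agent.LibRefl75

universe u v

variable {V : Type v} (L : SimpleGraph V) {π : Type u} [Group π] [MulAction π V]
  (hL : ∀ (g : π) (a b : V), L.Adj (g • a) (g • b) ↔ L.Adj a b)

include hL in
lemma gact_liftable (g : π) : (raMatrix L).IsLiftable fun a => sg L (g • a) :=
  raLiftable L _ (fun _ => sg_mul_self _) fun a b h => sg_comm ((hL g a b).2 h)

/-- The endomorphism of the right-angled Coxeter group induced by a graph automorphism. -/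
noncomputable def gactHom (g : π) : RW L →* RW L := (rcs L).lift ⟨_, gact_liftable L hL g⟩

lemma gactHom_sg (g : π) (a : V) : gactHom L hL g (sg L a) = sg L (g • a) :=
  (rcs L).lift_apply_simple _ a

lemma gactHom_mul (g h : π) (w : RW L) :
    gactHom L hL (g * h) w = gactHom L hL g (gactHom L hL h w) := by
  have : gactHom L hL (g * h) = (gactHom L hL g).comp (gactHom L hL h) := by
    apply (rcs L).ext_simple
    intro a
    rw [MonoidHom.comp_apply, gactHom_sg, gactHom_sg, gactHom_sg, mul_smul]
  rw [this]
  rfl

lemma gactHom_one (w : RW L) : gactHom L hL 1 w = w := by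
  have : gactHom L hL 1 = MonoidHom.id (RW L) := by
    apply (rcs L).ext_simple
    intro a
    rw [gactHom_sg, one_smul]
    rfl
  rw [this]
  rfl

/-- The action of a group of graph automorphisms on the right-angled Coxeter group, permuting
the generators: `g` maps the generator of `a` to the generator of `g • a`. -/
noncomputable def gact : π →* MulAut (RW L) where
  toFun g :=
    { toFun := gactHom L hL g
      invFun := gactHom L hL g⁻¹
      left_inv := fun w => by rw [← gactHom_mul, inv_mul_cancel, gactHom_one]
      right_inv := fun w => by rw [← gactHom_mul, mul_inv_cancel, gactHom_one]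
      map_mul' := map_mul _ }
  map_one' := by
    ext w
    exact gactHom_one L hL w
  map_mul' g h := by
    ext w
    exact gactHom_mul L hL g h w

include hL in
/-- The action required in the reflection group trick exists. -/
theorem exists_gact : ∃ φ : π →* MulAut (RW L), ∀ (g : π) (a : V),
    φ g (sg L a) = sg L (g • a) := ⟨gact L hL, fun g a => gactHom_sg L hL g a⟩

end Pool.Agent.LibRefl75
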