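import Pool.Agent.LibRefl75.Refl
import Pool.Agent.LibRefl75.Bridge

/-!
Vanishing of the homology with coefficients in the reduced group C*-algebra implies vanishing of
the square-summable cohomology.
-/

set_option autoImplicit false

namespace Pool.Agent.LibRefl75

open Pool.Agent.LibZIS

universe u v w

/-- The action of the reduced group C*-algebra on `ℓ²(G)`. -/
noncomputable instance {G : Type u} [Group G] : Module (Cr G) (L2 G) where
  smul a ξ := (show L2 G →L[ℂ] L2 G from (show crAlg G from a).1) ξ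
  one_smul _ := rfl
  mul_smul _ _ _ := rfl
  smul_zero a := map_zero (show L2 G →L[ℂ] L2 G from (show crAlg G from a).1)
  smul_add a := map_add (show L2 G →L[ℂ] L2 G from (show crAlg G from a).1)
  add_smul _ _ _ := rfl
  zero_smul _ := rfl

lemma lam_smul {G : Type u} [Group G] (g : G) (ξ : L2 G) (h : G) :
    (lam G g • ξ).1 h = ξ.1 (g⁻¹ * h) := rfl

variable {G : Type u} [Group G] {K : DeltaCx.{v}} [∀ n, MulAction G (K.S n)]

/-- The equivariant `ℓ²(G)`-valued function associated with a square-summable cochain. -/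
noncomputable def toL2 {n : ℕ} {f : K.S n → ℂ} (hf : SqSum G f) (x : K.S n) : L2 G :=
  ⟨fun g => f (g⁻¹ • x), memℓp_gen (by
    have h2 : (0 : ℝ) < (2 : ENNReal).toReal := by simp
    exact ((Equiv.inv G).summable_iff
      (f := fun g => ‖f (g • x)‖ ^ (2 : ENNReal).toReal)).2 ((hf x).summable h2))⟩

lemma toL2_smul {n : ℕ} {f : K.S n → ℂ} (hf : SqSum G f) (g : G) (x : K.S n) :
    toL2 hf (g • x) = lam G g • toL2 hf x := by
  apply Subtype.ext
  funext h
  show f (h⁻¹ • g • x) = f ((g⁻¹ * h)⁻¹ • x)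
  rw [mul_inv_rev, inv_inv, mul_smul]

omit [Group G] in
lemma val_sum {ι : Type*} (s : Finset ι) (F : ι → L2 G) (g : G) :
    (∑ i ∈ s, F i).1 g = ∑ i ∈ s, (F i).1 g := by
  classical
  induction s using Finset.induction_on with
  | empty => rfl
  | insert a s ha ih =>
    rw [Finset.sum_insert ha, Finset.sum_insert ha, ← ih]
    rfl

omit [Group G] in
lemma val_zsmul (m : ℤ) (ξ : L2 G) (g : G) : (m • ξ).1 g = m • ξ.1 g := by
  have h : ∀ (n : ℕ), (n • ξ).1 g = n • ξ.1 g := by
    intro n
    induction n with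
    | zero => rw [zero_smul, zero_smul]; rfl
    | succ n ih => rw [succ_nsmul, succ_nsmul, ← ih]; rfl
  cases m with
  | ofNat n => rw [Int.ofNat_eq_natCast, natCast_zsmul, natCast_zsmul, h]
  | negSucc n => rw [negSucc_zsmul, negSucc_zsmul, ← h]; rfl

omit [∀ n, MulAction G (K.S n)] in
lemma cobV_val {n : ℕ} (c : K.S n → L2 G) (x : K.S (n + 1)) (g : G) :
    (cobV K c x).1 g = ∑ i : Fin (n + 2), (-1 : ℤ) ^ (i : ℕ) • (c (K.d i x)).1 g := by
  rw [cobV, val_sum]
  simp only [val_zsmul]

variable {E : Type w} [TopologicalSpace E] [MulAction G E] [ContinuousConstSMul G E]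

/-- Vanishing of `H_i(C*_r(G) ⊗_{ℤG} C_*(E))` for `i ≤ k` implies the vanishing of the
square-summable cohomology in degree `k` of every free acyclic Δ-complex. -/
theorem l2Zero_top [ContractibleSpace E] (hfree : ∀ (g : G) (e : E), g • e = e → g = 1)
    (hK : ∀ (n : ℕ) (i : Fin (n + 2)) (g : G) (x : K.S (n + 1)), K.d i (g • x) = g • K.d i x)
    (hKf : ∀ (n : ℕ) (g : G) (x : K.S n), g • x = x → g = 1) (hKa : Acyclic K) (k : ℕ)
    (h : ∀ i ≤ k, ¬ Nontrivial (Hgy (lam G) E i)) : L2Zero G (Subcx.top K) k := by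
  have hcoc : ∀ {n : ℕ} (f : K.S n → ℂ) (hf : SqSum G f),
      (∀ x ∈ (Subcx.top K).mem (n + 1), cobV K f x = 0) → cobV K (toL2 hf) = 0 := by
    intro n f hf hf0
    funext x
    apply Subtype.ext
    funext g
    rw [cobV_val]
    have := hf0 (g⁻¹ • x) trivial
    rw [cobV] at this
    simp only [hK] at this
    exact this
  cases k with
  | zero =>
    intro f hf hf0 x _
    have h1 := bridge_zero (lam G) hfree (h 0 le_rfl) K hK hKf hKa (toL2 hf)
      (fun g x => toL2_smul hf g x) (hcoc f hf hf0)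
    have h2 := congrArg (fun c : K.S 0 → L2 G => (c x).1 1) h1
    have h3 : f ((1 : G)⁻¹ • x) = 0 := h2
    simpa using h3
  | succ k =>
    intro f hf hf0
    obtain ⟨b, hb, hb'⟩ := bridge_succ (lam G) hfree k h K hK hKf hKa (toL2 hf)
      (fun g x => toL2_smul hf g x) (hcoc f hf hf0)
    refine ⟨fun x => (b x).1 1, fun x => ?_, fun x _ => ?_⟩
    · have h2 : (0 : ℝ) < (2 : ENNReal).toReal := by simp
      have h1 : (fun g : G => (b (g • x)).1 1) = fun g => (b x).1 g⁻¹ := by
        funext g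
        rw [hb, lam_smul, mul_one]
      rw [h1]
      refine memℓp_gen ?_
      exact ((Equiv.inv G).summable_iff
        (f := fun g => ‖(b x).1 g‖ ^ (2 : ENNReal).toReal)).2 ((b x).2.summable h2)
    · have h1 := congrArg (fun c : K.S (k + 1) → L2 G => (c x).1 1) hb'
      simp only [cobV_val] at h1
      have h2 : (toL2 hf x).1 1 = f ((1 : G)⁻¹ • x) := rfl
      rw [h2, inv_one, one_smul] at h1
      exact h1

end Pool.Agent.LibRefl75
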