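import Pool.Agent.LibRefl75.L2

/-!
Iterated walls of reflections and the reduced group C*-algebra.
-/

set_option autoImplicit false

namespace Pool.Agent.LibRefl75

open Pool.Agent.LibZIS

universe u v w

variable {G : Type u} [Group G] {K : DeltaCx.{v}} [∀ n, MulAction G (K.S n)]
variable {E : Type w} [TopologicalSpace E] [MulAction G E] [ContinuousConstSMul G E]

/-- Vanishing of `H_i(C*_r(G) ⊗_{ℤG} C_*(E))` for `i ≤ k + j` implies the vanishing of the
square-summable cohomology in degree `j` of the iterated walls of depth `k`. -/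
theorem l2Zero_iteratedWall [ContractibleSpace E]
    (hfree : ∀ (g : G) (e : E), g • e = e → g = 1)
    (hK : ∀ (n : ℕ) (i : Fin (n + 2)) (g : G) (x : K.S (n + 1)), K.d i (g • x) = g • K.d i x)
    (hKf : ∀ (n : ℕ) (g : G) (x : K.S n), g • x = x → g = 1) (hKa : Acyclic K)
    {F : Subcx K} {k : ℕ} (hF : IteratedWall G F k) :
    ∀ j : ℕ, (∀ i ≤ k + j, ¬ Nontrivial (Hgy (lam G) E i)) → L2Zero G F j := by
  induction hF with
  | top => intro j h; exact l2Zero_top hfree hK hKf hKa j (by simpa using h)
  | step hF hs ih =>
    intro j h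
    exact L2Zero.wall hK hKf hs j (ih j fun i hi => h i (by omega))
      (ih (j + 1) fun i hi => h i (by omega))

/-- A subcomplex with a nonempty finite set of vertices closed under its edges has nonzero
square-summable cohomology in degree zero. -/
theorem not_l2Zero_of_finite (hKf : ∀ (n : ℕ) (g : G) (x : K.S n), g • x = x → g = 1)
    (F : Subcx K) (A : Set (K.S 0)) (hA : A.Finite) (hne : A.Nonempty) (hAF : A ⊆ F.mem 0)
    (hedge : ∀ x ∈ F.mem 1, K.d 0 x ∈ A ↔ K.d 1 x ∈ A) : ¬ L2Zero G F 0 := by
  classical
  intro h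
  obtain ⟨a, ha⟩ := hne
  have h1 := h (A.indicator fun _ => (1 : ℂ)) (fun x => by
    have h2 : (0 : ℝ) < (2 : ENNReal).toReal := by simp
    refine memℓp_gen ?_
    apply summable_of_hasFiniteSupport
    have hinj : Function.Injective (fun g : G => g • x) := by
      intro g g' hgg
      have h3 : (g'⁻¹ * g) • x = x := by
        rw [mul_smul]
        have h4 : g • x = g' • x := hgg
        rw [h4, inv_smul_smul]
      have h4 := hKf 0 _ x h3
      rw [inv_mul_eq_one] at h4
      exact h4.symm
    refine (hA.preimage hinj.injOn).subset fun g hg => ?_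
    by_contra hgA
    apply hg
    have h5 : g • x ∉ A := hgA
    simp only
    rw [Set.indicator_of_notMem h5, norm_zero, Real.zero_rpow h2.ne'])
    (fun x hx => by
      rw [cobV, Fin.sum_univ_two]
      by_cases h0 : K.d 0 x ∈ A
      · rw [Set.indicator_of_mem h0, Set.indicator_of_mem ((hedge x hx).1 h0)]
        simp
      · rw [Set.indicator_of_notMem h0, Set.indicator_of_notMem fun h1 =>
          h0 ((hedge x hx).2 h1)]
        simp) a (hAF ha)
  rw [Set.indicator_of_mem ha] at h1
  exact one_ne_zero h1

end Pool.Agent.LibRefl75
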