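import Pool.Agent.LibRefl75.DefsD

/-!
Right-angled Coxeter groups: the sign cocycle, descents, half-spaces.
-/

set_option autoImplicit false

namespace Pool.Agent.LibRefl75

universe u v w

variable {V : Type v}

lemma raMatrix_self (Γ : SimpleGraph V) (v : V) : raMatrix Γ v v = 1 := (raMatrix Γ).diagonal v

open Classical in
lemma raMatrix_adj (Γ : SimpleGraph V) {v w : V} (h : Γ.Adj v w) : raMatrix Γ v w = 2 := by
  show (if v = w then 1 else if Γ.Adj v w then 2 else 0) = 2
  rw [if_neg h.ne, if_pos h]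

open Classical in
lemma raMatrix_not (Γ : SimpleGraph V) {v w : V} (h : ¬ Γ.Adj v w) (hne : v ≠ w) :
    raMatrix Γ v w = 0 := by
  show (if v = w then 1 else if Γ.Adj v w then 2 else 0) = 0
  rw [if_neg hne, if_neg h]

/-- A map to a group respecting squares and commutation is liftable. -/
lemma raLiftable (Γ : SimpleGraph V) {H : Type w} [Group H] (f : V → H)
    (h1 : ∀ v, f v * f v = 1) (h2 : ∀ v w, Γ.Adj v w → f v * f w = f w * f v) :
    (raMatrix Γ).IsLiftable f := by
  intro v w
  by_cases hvw : v = w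
  · subst hvw
    rw [raMatrix_self, pow_one, h1]
  · by_cases ha : Γ.Adj v w
    · rw [raMatrix_adj Γ ha, pow_two, mul_assoc, ← mul_assoc (f w), ← h2 v w ha, mul_assoc, h1,
        mul_one, h1]
    · rw [raMatrix_not Γ ha hvw, pow_zero]

variable (Γ : SimpleGraph V)

variable {Γ}

lemma sg_mul_self (v : V) : sg Γ v * sg Γ v = 1 := (rcs Γ).simple_mul_simple_self v

lemma sg_inv (v : V) : (sg Γ v)⁻¹ = sg Γ v := (rcs Γ).inv_simple v

lemma sg_comm {v w : V} (h : Γ.Adj v w) : sg Γ v * sg Γ w = sg Γ w * sg Γ v := by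
  have h1 := (rcs Γ).simple_mul_simple_pow v w
  rw [raMatrix_adj Γ h, pow_two] at h1
  have h2 := eq_inv_of_mul_eq_one_left h1
  rw [mul_inv_rev, sg_inv, sg_inv] at h2
  exact h2

lemma sg_comm' {v w : V} (h : v = w ∨ Γ.Adj v w) : sg Γ v * sg Γ w = sg Γ w * sg Γ v := by
  rcases h with rfl | h
  · rfl
  · exact sg_comm h

/-! ### the parity of a letter -/

open Classical in
/-- The parity of the number of occurrences of a letter. -/
noncomputable def par (v : V) : RW Γ →* Multiplicative (ZMod 2) :=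
  (rcs Γ).lift ⟨fun w => if w = v then Multiplicative.ofAdd 1 else 1, raLiftable Γ _
    (fun w => by
      split_ifs
      · rw [← ofAdd_add]; rfl
      · simp)
    (fun _ _ _ => mul_comm _ _)⟩

lemma par_self (v : V) : par v (sg Γ v) = Multiplicative.ofAdd 1 := by
  rw [par, CoxeterSystem.lift_apply_simple, if_pos rfl]

lemma par_ne {v w : V} (h : w ≠ v) : par v (sg Γ w) = 1 := by
  rw [par, CoxeterSystem.lift_apply_simple, if_neg h]

lemma ofAdd_one_ne : (Multiplicative.ofAdd (1 : ZMod 2)) ≠ 1 := by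
  intro h
  have h2 := congrArg Multiplicative.toAdd h
  exact absurd h2 (by decide)

lemma sg_injective : Function.Injective (sg Γ) := by
  intro v w h
  by_contra hne
  have h1 := congrArg (par v) h
  rw [par_self, par_ne (Ne.symm hne)] at h1
  exact ofAdd_one_ne h1

lemma sg_conj_inj {v w : V} {x : RW Γ} (h : x * sg Γ v * x⁻¹ = sg Γ w) : v = w := by
  by_contra hne
  have h1 := congrArg (par v) h
  rw [map_mul, map_mul, map_inv, mul_comm (par v x), mul_inv_cancel_right, par_self,
    par_ne (Ne.symm hne)] at h1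
  exact ofAdd_one_ne h1

/-! ### the sign cocycle -/

open Classical in
/-- The permutation of `W × ℤ/2` attached to a generator. -/
noncomputable def gperm (v : V) : Equiv.Perm (RW Γ × ZMod 2) where
  toFun p := (sg Γ v * p.1 * sg Γ v, p.2 + if p.1 = sg Γ v then 1 else 0)
  invFun p := (sg Γ v * p.1 * sg Γ v, p.2 + if p.1 = sg Γ v then 1 else 0)
  left_inv p := by
    apply Prod.ext
    · show sg Γ v * (sg Γ v * p.1 * sg Γ v) * sg Γ v = p.1
      simp [mul_assoc]
    · show p.2 + (if p.1 = sg Γ v then 1 else 0) +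
        (if sg Γ v * p.1 * sg Γ v = sg Γ v then 1 else 0) = p.2
      have h : sg Γ v * p.1 * sg Γ v = sg Γ v ↔ p.1 = sg Γ v := by
        constructor
        · intro h
          have := congrArg (fun x => sg Γ v * x * sg Γ v) h
          simpa [mul_assoc] using this
        · intro h
          rw [h, sg_mul_self, one_mul]
      simp only [h]
      split_ifs
      · rw [add_assoc]
        rw [show (1 : ZMod 2) + 1 = 0 from by decide, add_zero]
      · simp
  right_inv p := by
    apply Prod.ext
    · show sg Γ v * (sg Γ v * p.1 * sg Γ v) * sg Γ v = p.1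
      simp [mul_assoc]
    · show p.2 + (if p.1 = sg Γ v then 1 else 0) +
        (if sg Γ v * p.1 * sg Γ v = sg Γ v then 1 else 0) = p.2
      have h : sg Γ v * p.1 * sg Γ v = sg Γ v ↔ p.1 = sg Γ v := by
        constructor
        · intro h
          have := congrArg (fun x => sg Γ v * x * sg Γ v) h
          simpa [mul_assoc] using this
        · intro h
          rw [h, sg_mul_self, one_mul]
      simp only [h]
      split_ifs
      · rw [add_assoc]
        rw [show (1 : ZMod 2) + 1 = 0 from by decide, add_zero]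
      · simp

open Classical in
lemma gperm_apply (v : V) (p : RW Γ × ZMod 2) :
    gperm v p = (sg Γ v * p.1 * sg Γ v, p.2 + if p.1 = sg Γ v then 1 else 0) := rfl

/-- The action of the group on `W × ℤ/2`. -/
noncomputable def wperm : RW Γ →* Equiv.Perm (RW Γ × ZMod 2) :=
  (rcs Γ).lift ⟨gperm, raLiftable Γ _ (fun v => by
      ext1 p
      rw [Equiv.Perm.mul_apply, Equiv.Perm.one_apply]
      exact (gperm v).left_inv p)
    (fun v w h => by
      classical
      ext1 p
      have hne : v ≠ w := h.ne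
      have hc := sg_comm h
      have e1 : ∀ x : RW Γ, sg Γ w * x * sg Γ w = sg Γ v ↔ x = sg Γ v := by
        intro x
        constructor
        · intro h1
          have h2 := congrArg (fun x => sg Γ w * x * sg Γ w) h1
          have h3 : sg Γ w * (sg Γ w * x * sg Γ w) * sg Γ w = x := by simp [mul_assoc]
          simp only [h3] at h2
          rw [h2, ← hc, mul_assoc, sg_mul_self, mul_one]
        · intro h1
          rw [h1, ← hc, mul_assoc, sg_mul_self, mul_one]
      have e2 : ∀ x : RW Γ, sg Γ v * x * sg Γ v = sg Γ w ↔ x = sg Γ w := by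
        intro x
        constructor
        · intro h1
          have h2 := congrArg (fun x => sg Γ v * x * sg Γ v) h1
          have h3 : sg Γ v * (sg Γ v * x * sg Γ v) * sg Γ v = x := by simp [mul_assoc]
          simp only [h3] at h2
          rw [h2, hc, mul_assoc, sg_mul_self, mul_one]
        · intro h1
          rw [h1, hc, mul_assoc, sg_mul_self, mul_one]
      rw [Equiv.Perm.mul_apply, Equiv.Perm.mul_apply]
      simp only [gperm_apply, e1, e2]
      apply Prod.ext
      · show sg Γ v * (sg Γ w * p.1 * sg Γ w) * sg Γ v =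
          sg Γ w * (sg Γ v * p.1 * sg Γ v) * sg Γ w
        calc sg Γ v * (sg Γ w * p.1 * sg Γ w) * sg Γ v
            = (sg Γ v * sg Γ w) * p.1 * (sg Γ w * sg Γ v) := by simp only [mul_assoc]
          _ = (sg Γ w * sg Γ v) * p.1 * (sg Γ v * sg Γ w) := by rw [hc]
          _ = _ := by simp only [mul_assoc]
      · show p.2 + _ + _ = p.2 + _ + _
        ring)⟩

lemma wperm_sg (v : V) : wperm (sg Γ v) = gperm v := by
  rw [wperm, CoxeterSystem.lift_apply_simple]

/-- The sign cocycle. -/
noncomputable def sgn (w x : RW Γ) : ZMod 2 := (wperm w (x, 0)).2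

lemma wperm_apply (w : RW Γ) (x : RW Γ) (e : ZMod 2) :
    wperm w (x, e) = (w * x * w⁻¹, e + sgn w x) := by
  classical
  have key : ∀ w : RW Γ, ∀ (x : RW Γ) (e : ZMod 2),
      (wperm w (x, e)).1 = w * x * w⁻¹ ∧ (wperm w (x, e)).2 = e + sgn w x := by
    intro w
    refine (rcs Γ).simple_induction_left (p := fun w => ∀ (x : RW Γ) (e : ZMod 2),
      (wperm w (x, e)).1 = w * x * w⁻¹ ∧ (wperm w (x, e)).2 = e + sgn w x) w ?_ ?_
    · intro x e
      simp [sgn]
    · intro w v ih x e
      have h0 := ih x e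
      have h1 := ih x 0
      have h2 : ∀ e, wperm w (x, e) = (w * x * w⁻¹, e + sgn w x) :=
        fun e => Prod.ext (ih x e).1 (ih x e).2
      rw [sgn, map_mul, Equiv.Perm.mul_apply, Equiv.Perm.mul_apply]
      change (wperm (sg Γ v) _).1 = _ ∧ (wperm (sg Γ v) _).2 = e + (wperm (sg Γ v) _).2
      rw [wperm_sg, h2, h2]
      simp only [gperm_apply]
      refine ⟨?_, by ring⟩
      rw [mul_inv_rev, (rcs Γ).inv_simple]
      simp only [mul_assoc]
  exact Prod.ext (key w x e).1 (key w x e).2

lemma sgn_mul (w w' x : RW Γ) : sgn (w * w') x = sgn w' x + sgn w (w' * x * w'⁻¹) := by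
  rw [sgn, map_mul, Equiv.Perm.mul_apply, wperm_apply, wperm_apply]
  show 0 + _ + _ = _
  rw [zero_add]

lemma sgn_one (x : RW Γ) : sgn 1 x = 0 := by rw [sgn, map_one]; rfl

open Classical in
lemma sgn_sg (v : V) (x : RW Γ) : sgn (sg Γ v) x = if x = sg Γ v then 1 else 0 := by
  rw [sgn, wperm_sg, gperm_apply]
  show (0 : ZMod 2) + _ = _
  rw [zero_add]

lemma sgn_sg_self (v : V) : sgn (sg Γ v) (sg Γ v) = 1 := by rw [sgn_sg, if_pos rfl]

/-! ### exchange and descents -/

lemma sgn_exchange (ω : List V) (x : RW Γ) (h : sgn ((rcs Γ).wordProd ω) x ≠ 0) :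
    ∃ ω' : List V, ω'.length < ω.length ∧ (rcs Γ).wordProd ω * x = (rcs Γ).wordProd ω' := by
  classical
  induction ω with
  | nil =>
    rw [(rcs Γ).wordProd_nil, sgn_one] at h
    exact absurd rfl h
  | cons v ω ih =>
    rw [(rcs Γ).wordProd_cons, sgn_mul, sgn_sg] at h
    by_cases h1 : (rcs Γ).wordProd ω * x * ((rcs Γ).wordProd ω)⁻¹ = sg Γ v
    · refine ⟨ω, by simp, ?_⟩
      rw [(rcs Γ).wordProd_cons]
      have h2 : (rcs Γ).wordProd ω * x = sg Γ v * (rcs Γ).wordProd ω := by
        rw [← h1, inv_mul_cancel_right]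
      rw [mul_assoc, h2, ← mul_assoc, sg_mul_self, one_mul]
    · rw [if_neg h1, add_zero] at h
      obtain ⟨ω', hl, he⟩ := ih h
      refine ⟨v :: ω', by simpa using hl, ?_⟩
      rw [(rcs Γ).wordProd_cons, (rcs Γ).wordProd_cons, mul_assoc, he]

lemma length_lt_of_sgn {w x : RW Γ} (h : sgn w x ≠ 0) :
    (rcs Γ).length (w * x) < (rcs Γ).length w := by
  obtain ⟨ω, hω, rfl⟩ := (rcs Γ).exists_isReduced w
  obtain ⟨ω', hl, he⟩ := sgn_exchange ω x h
  rw [he, hω.eq]
  exact ((rcs Γ).length_wordProd_le ω').trans_lt hl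

lemma descent_iff (w : RW Γ) (v : V) : (rcs Γ).IsRightDescent w v ↔ sgn w (sg Γ v) ≠ 0 := by
  constructor
  · intro h h0
    have h1 : sgn (w * sg Γ v) (sg Γ v) ≠ 0 := by
      rw [sgn_mul, sgn_sg_self, mul_inv_cancel_right, h0, add_zero]
      decide
    have h2 := length_lt_of_sgn h1
    rw [mul_assoc, sg_mul_self, mul_one] at h2
    exact absurd h (not_lt.2 h2.le)
  · intro h
    exact length_lt_of_sgn h

end Pool.Agent.LibRefl75
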