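import Pool.Agent.LibRefl75.Transfer

/-!
Square-summable cochains, reflections, and the passage to the wall of a reflection.
-/

set_option autoImplicit false

namespace Pool.Agent.LibRefl75

universe u v w

variable {G : Type u} [Group G] {K : DeltaCx.{v}} [∀ n, MulAction G (K.S n)]

/-! ### square-summable functions -/

section sq

lemma SqSum.add {n : ℕ} {f f' : K.S n → ℂ} (h : SqSum G f) (h' : SqSum G f') :
    SqSum G (fun x => f x + f' x) := fun x => (h x).add (h' x)

lemma SqSum.sub {n : ℕ} {f f' : K.S n → ℂ} (h : SqSum G f) (h' : SqSum G f') :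
    SqSum G (fun x => f x - f' x) := fun x => (h x).sub (h' x)

lemma SqSum.mono {n : ℕ} {f f' : K.S n → ℂ} (h : SqSum G f) (h' : ∀ x, ‖f' x‖ ≤ ‖f x‖) :
    SqSum G f' := by
  intro x
  have h2 : (0 : ℝ) < (2 : ENNReal).toReal := by simp
  refine memℓp_gen ?_
  refine Summable.of_nonneg_of_le (fun g => by positivity) (fun g => ?_) ((h x).summable h2)
  exact Real.rpow_le_rpow (norm_nonneg _) (h' _) h2.le

lemma SqSum.indicator {n : ℕ} {f : K.S n → ℂ} (h : SqSum G f) (A : Set (K.S n)) :
    SqSum G (A.indicator f) := h.mono fun x => norm_indicator_le_norm_self f x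

lemma memlp_cob {X : Type v} {m : ℕ} (F : Fin m → X → ℂ) (hF : ∀ i, Memℓp (F i) 2) :
    Memℓp (fun g : X => ∑ i : Fin m, (-1 : ℤ) ^ (i : ℕ) • F i g) 2 := by
  have h1 : ∀ i ∈ (Finset.univ : Finset (Fin m)), Memℓp (fun g : X =>
      (-1 : ℤ) ^ (i : ℕ) • F i g) 2 := by
    intro i _
    rcases neg_one_pow_eq_or ℤ (i : ℕ) with h | h
    · rw [h]; simpa using hF i
    · rw [h]
      have h2 : (fun g : X => (-1 : ℤ) • F i g) = -F i := by funext g; simp
      rw [h2]
      exact (hF i).neg
  exact Memℓp.finsetSum (E := fun _ : X => ℂ) Finset.univ h1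

lemma SqSum.cob (hK : ∀ (n : ℕ) (i : Fin (n + 2)) (g : G) (x : K.S (n + 1)),
    K.d i (g • x) = g • K.d i x) {n : ℕ} {f : K.S n → ℂ} (h : SqSum G f) :
    SqSum G (cobV K f) := by
  intro x
  have h2 := memlp_cob (fun (i : Fin (n + 2)) (g : G) => f (g • K.d i x)) (fun i => h (K.d i x))
  have h3 : (fun g : G => cobV K f (g • x)) = fun g : G => ∑ i : Fin (n + 2),
      (-1 : ℤ) ^ (i : ℕ) • f (g • K.d i x) := by
    funext g
    simp only [cobV, hK]
  rw [h3]
  exact h2

lemma SqSum.comp (hfree : ∀ (n : ℕ) (g : G) (x : K.S n), g • x = x → g = 1) {n : ℕ}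
    {f : K.S n → ℂ} (h : SqSum G f) (s : K.S n → K.S n) (A : Set (K.S n))
    (hinj : Set.InjOn s A)
    (horb : ∀ x : K.S n, ∃ T : Finset (K.S n), ∀ g : G, g • x ∈ A →
      ∃ t ∈ T, s (g • x) ∈ MulAction.orbit G t) :
    SqSum G (A.indicator fun x => f (s x)) := by
  intro x
  have h2 : (0 : ℝ) < (2 : ENNReal).toReal := by simp
  refine memℓp_gen ?_
  obtain ⟨T, hT⟩ := horb x
  choose t htT ht using hT
  simp only [MulAction.mem_orbit_iff] at ht
  choose k hk using ht
  -- summability over `T × G`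
  have hsum : Summable (fun p : T × G => ‖f (p.2 • (p.1 : K.S n))‖ ^ (2 : ENNReal).toReal) := by
    rw [summable_prod_of_nonneg (fun p => by positivity)]
    exact ⟨fun t => (h t.1).summable h2, Summable.of_finite⟩
  let B : Set G := {g | g • x ∈ A}
  have hB : Summable (fun g : B => ‖f (s ((g : G) • x))‖ ^ (2 : ENNReal).toReal) := by
    have hinj2 : Function.Injective
        (fun g : B => ((⟨t g.1 g.2, htT g.1 g.2⟩, k g.1 g.2) : T × G)) := by
      intro g g' hgg
      have e1 : t g.1 g.2 = t g'.1 g'.2 := congrArg (fun p : T × G => (p.1 : K.S n)) hgg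
      have e2 : k g.1 g.2 = k g'.1 g'.2 := congrArg (fun p : T × G => p.2) hgg
      have e3 : s (g.1 • x) = s (g'.1 • x) := by
        rw [← hk g.1 g.2, ← hk g'.1 g'.2, e1, e2]
      have e4 := hinj g.2 g'.2 e3
      have e5 : (g'.1⁻¹ * g.1) • x = x := by rw [mul_smul, e4, inv_smul_smul]
      have e6 := hfree n _ x e5
      rw [inv_mul_eq_one] at e6
      exact Subtype.ext e6.symm
    refine (hsum.comp_injective hinj2).congr fun g => ?_
    show ‖f (k g.1 g.2 • t g.1 g.2)‖ ^ _ = _
    rw [hk]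
  rw [← Function.comp_def (fun g : G => ‖f (s (g • x))‖ ^ (2 : ENNReal).toReal)
    (Subtype.val : B → G), summable_subtype_iff_indicator] at hB
  refine hB.congr fun g => ?_
  by_cases hg : g • x ∈ A
  · rw [Set.indicator_of_mem (show g ∈ B from hg), Set.indicator_of_mem hg]
  · rw [Set.indicator_of_notMem (show g ∉ B from hg), Set.indicator_of_notMem hg, norm_zero,
      Real.zero_rpow h2.ne']

end sq

/-- Extension of a cocycle from the wall of a reflection to the whole subcomplex. -/
lemma extend_wall (hK : ∀ (n : ℕ) (i : Fin (n + 2)) (g : G) (x : K.S (n + 1)),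
      K.d i (g • x) = g • K.d i x)
    (hfree : ∀ (n : ℕ) (g : G) (x : K.S n), g • x = x → g = 1)
    {F : Subcx K} {s : ∀ n : ℕ, K.S n → K.S n} {H : Subcx K}
    (h : IsReflection G F s H) (k : ℕ) (hF : L2Zero G F (k + 1)) (f : K.S k → ℂ)
    (hf : SqSum G f) (hf0 : ∀ x ∈ h.wall.mem (k + 1), cobV K f x = 0) :
    ∃ Φ : K.S k → ℂ, SqSum G Φ ∧ (∀ x ∈ F.mem (k + 1), cobV K Φ x = 0) ∧
      ∀ x ∈ h.wall.mem k, Φ x = f x := by
  classical
  have hinj : ∀ n, Set.InjOn (s n) (F.mem n) := by
    intro n x hx y hy hxy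
    rw [← h.invol n x hx, hxy, h.invol n y hy]
  -- the cocycle on the wall, extended by zero
  set f₁ : K.S k → ℂ := (h.wall.mem k).indicator f with hf₁
  have sf₁ : SqSum G f₁ := hf.indicator _
  have cf₁ : ∀ x ∈ h.wall.mem (k + 1), cobV K f₁ x = 0 := by
    intro x hx
    rw [← hf0 x hx]
    refine Finset.sum_congr rfl fun i _ => ?_
    rw [hf₁, Set.indicator_of_mem (h.wall.face_mem i hx)]
  set u : K.S (k + 1) → ℂ := (H.mem (k + 1)).indicator (cobV K f₁) with hu
  have su : SqSum G u := (sf₁.cob hK).indicator _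
  obtain ⟨v, sv, hv⟩ := hF u su (by
    intro x hx
    by_cases hxH : x ∈ H.mem (k + 2)
    · have : cobV K u x = cobV K (cobV K f₁) x := by
        refine Finset.sum_congr rfl fun i _ => ?_
        rw [hu, Set.indicator_of_mem (H.face_mem i hxH)]
      rw [this, cobV_cobV]
      rfl
    · have hsx : s (k + 2) x ∈ H.mem (k + 2) := (h.cover _ x hx).resolve_left hxH
      refine Finset.sum_eq_zero fun i _ => ?_
      have : u (K.d i x) = 0 := by
        by_cases hd : K.d i x ∈ H.mem (k + 1)
        · rw [hu, Set.indicator_of_mem hd]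
          apply cf₁
          refine ⟨F.face_mem i hx, h.fix _ _ hd ?_⟩
          rw [← h.face _ i x hx]
          exact H.face_mem i hsx
        · rw [hu, Set.indicator_of_notMem hd]
      rw [this, smul_zero])
  set vs : K.S k → ℂ := (F.mem k).indicator (fun x => v (s k x)) with hvs
  have svs : SqSum G vs := sv.comp hfree (s k) (F.mem k) (hinj k) (h.orbits k)
  set w : K.S k → ℂ := fun x => f₁ x - v x + vs x with hw
  have sw : SqSum G w := (sf₁.sub sv).add svs
  have cw : ∀ x ∈ H.mem (k + 1), cobV K w x = 0 := by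
    intro x hx
    have hxF := h.sub _ x hx
    have e1 : cobV K w x = cobV K f₁ x - cobV K v x + cobV K v (s (k + 1) x) := by
      simp only [cobV, hw, smul_add, smul_sub, Finset.sum_add_distrib, Finset.sum_sub_distrib]
      congr 1
      refine Finset.sum_congr rfl fun i _ => ?_
      rw [hvs, Set.indicator_of_mem (F.face_mem i hxF), h.face _ i x hxF]
    have e2 : cobV K v x = cobV K f₁ x := by
      rw [hv x hxF, hu, Set.indicator_of_mem hx]
    have e3 : cobV K v (s (k + 1) x) = 0 := by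
      rw [hv _ (h.map_mem _ x hxF), hu]
      by_cases hsx : s (k + 1) x ∈ H.mem (k + 1)
      · rw [Set.indicator_of_mem hsx]
        have hfix := h.fix _ x hx hsx
        rw [hfix]
        exact cf₁ x ⟨hxF, hfix⟩
      · rw [Set.indicator_of_notMem hsx]
    rw [e1, e2, e3, sub_self, add_zero]
  have ww : ∀ x ∈ h.wall.mem k, w x = f x := by
    intro x hx
    rw [hw]
    simp only
    rw [hf₁, Set.indicator_of_mem hx, hvs, Set.indicator_of_mem hx.1, hx.2, sub_add_cancel]
  set ws : K.S k → ℂ := (F.mem k).indicator (fun x => w (s k x)) with hws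
  have sws : SqSum G ws := sw.comp hfree (s k) (F.mem k) (hinj k) (h.orbits k)
  set Φ : K.S k → ℂ := fun x => (H.mem k).indicator w x + (H.mem k)ᶜ.indicator ws x with hΦ
  have Φ1 : ∀ x ∈ H.mem k, Φ x = w x := by
    intro x hx
    rw [hΦ]
    simp only
    rw [Set.indicator_of_mem hx, Set.indicator_of_notMem (by simpa using hx), add_zero]
  have Φ2 : ∀ x ∈ F.mem k, x ∉ H.mem k → Φ x = w (s k x) := by
    intro x hx hxH
    rw [hΦ]
    simp only
    rw [Set.indicator_of_notMem hxH, Set.indicator_of_mem (by simpa using hxH), zero_add, hws,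
      Set.indicator_of_mem hx]
  refine ⟨Φ, (sw.indicator _).add (sws.indicator _), ?_, ?_⟩
  · intro x hx
    by_cases hxH : x ∈ H.mem (k + 1)
    · rw [← cw x hxH]
      refine Finset.sum_congr rfl fun i _ => ?_
      rw [Φ1 _ (H.face_mem i hxH)]
    · have hsx : s (k + 1) x ∈ H.mem (k + 1) := (h.cover _ x hx).resolve_left hxH
      rw [← cw _ hsx]
      refine Finset.sum_congr rfl fun i _ => ?_
      congr 1
      rw [h.face _ i x hx]
      by_cases hd : K.d i x ∈ H.mem k
      · have hfix : s k (K.d i x) = K.d i x := by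
          apply h.fix _ _ hd
          rw [← h.face _ i x hx]
          exact H.face_mem i hsx
        rw [Φ1 _ hd, hfix]
      · rw [Φ2 _ (F.face_mem i hx) hd]
  · intro x hx
    rw [← ww x hx]
    by_cases hxH : x ∈ H.mem k
    · exact Φ1 x hxH
    · rw [Φ2 x hx.1 hxH, hx.2]

/-- Vanishing of the square-summable cohomology passes to the wall of a reflection. -/
theorem L2Zero.wall (hK : ∀ (n : ℕ) (i : Fin (n + 2)) (g : G) (x : K.S (n + 1)),
      K.d i (g • x) = g • K.d i x)
    (hfree : ∀ (n : ℕ) (g : G) (x : K.S n), g • x = x → g = 1)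
    {F : Subcx K} {s : ∀ n : ℕ, K.S n → K.S n} {H : Subcx K}
    (h : IsReflection G F s H) (k : ℕ) (hF : L2Zero G F k) (hF' : L2Zero G F (k + 1)) :
    L2Zero G h.wall k := by
  cases k with
  | zero =>
    intro f hf hf0 x hx
    obtain ⟨Φ, sΦ, cΦ, eΦ⟩ := extend_wall hK hfree h 0 hF' f hf hf0
    rw [← eΦ x hx]
    exact hF Φ sΦ cΦ x hx.1
  | succ k =>
    intro f hf hf0
    obtain ⟨Φ, sΦ, cΦ, eΦ⟩ := extend_wall hK hfree h (k + 1) hF' f hf hf0
    obtain ⟨b, sb, hb⟩ := hF Φ sΦ cΦ
    exact ⟨b, sb, fun x hx => by rw [hb x hx.1, eΦ x hx]⟩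

end Pool.Agent.LibRefl75
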