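import Pool.Agent.LibRefl75.Refl

/-!
Acyclic subcomplexes and the Mayer-Vietoris argument.
-/

set_option autoImplicit false

namespace Pool.Agent.LibRefl75

universe u v w

variable {K : DeltaCx.{v}}

@[ext] lemma Subcx.ext {A B : Subcx K} (h : ∀ n x, x ∈ A.mem n ↔ x ∈ B.mem n) : A = B := by
  obtain ⟨a, ha⟩ := A
  obtain ⟨b, hb⟩ := B
  have : a = b := by
    funext n
    exact Set.ext fun x => h n x
  subst this
  rfl

/-- The chains supported in a subcomplex. -/
abbrev Subcx.chains (F : Subcx K) (n : ℕ) : Submodule ℤ (K.S n →₀ ℤ) :=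
  Finsupp.supported ℤ ℤ (F.mem n)

/-- A subcomplex is acyclic: its integral homology is that of a point. -/
def Subcx.Acyclic (F : Subcx K) : Prop :=
  (F.mem 0).Nonempty ∧
  (∀ c ∈ F.chains 0, (c.sum fun _ a => a) = 0 → ∃ b ∈ F.chains 1, bdK K ℤ 0 b = c) ∧
  ∀ n, ∀ c ∈ F.chains (n + 1), bdK K ℤ n c = 0 → ∃ b ∈ F.chains (n + 2),
    bdK K ℤ (n + 1) b = c

lemma Subcx.top_acyclic_iff : (Subcx.top K).Acyclic ↔ LibRefl75.Acyclic K := by
  have h : ∀ n (c : K.S n →₀ ℤ), c ∈ (Subcx.top K).chains n := by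
    intro n c
    rw [Subcx.chains, Finsupp.mem_supported]
    exact Set.subset_univ _
  constructor
  · rintro ⟨⟨x, -⟩, h0, h1⟩
    refine ⟨⟨x⟩, fun c hc => ?_, fun n c hc => ?_⟩
    · obtain ⟨b, -, hb⟩ := h0 c (h _ _) hc
      exact ⟨b, hb⟩
    · obtain ⟨b, -, hb⟩ := h1 n c (h _ _) hc
      exact ⟨b, hb⟩
  · rintro ⟨⟨x⟩, h0, h1⟩
    refine ⟨⟨x, trivial⟩, fun c _ hc => ?_, fun n c _ hc => ?_⟩
    · obtain ⟨b, hb⟩ := h0 c hc
      exact ⟨b, h _ _, hb⟩
    · obtain ⟨b, hb⟩ := h1 n c hc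
      exact ⟨b, h _ _, hb⟩

lemma Subcx.bd_mem (F : Subcx K) {n : ℕ} {c : K.S (n + 1) →₀ ℤ} (hc : c ∈ F.chains (n + 1)) :
    bdK K ℤ n c ∈ F.chains n := by
  rw [Subcx.chains, Finsupp.supported_eq_span_single] at hc
  induction hc using Submodule.span_induction with
  | mem x hx =>
    obtain ⟨s, hs, rfl⟩ := hx
    rw [bdK_single]
    refine Submodule.sum_mem _ fun i _ => Submodule.smul_mem _ _ ?_
    exact Finsupp.single_mem_supported ℤ _ (F.face_mem i hs)
  | zero => rw [map_zero]; exact Submodule.zero_mem _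
  | add x y _ _ hx hy => rw [map_add]; exact Submodule.add_mem _ hx hy
  | smul a x _ hx => rw [map_zsmul]; exact Submodule.smul_mem _ _ hx

/-- Intersection of subcomplexes. -/
def Subcx.inf (A B : Subcx K) : Subcx K where
  mem n := {x | x ∈ A.mem n ∧ x ∈ B.mem n}
  face_mem i _ hx := ⟨A.face_mem i hx.1, B.face_mem i hx.2⟩

/-- Union of subcomplexes. -/
def Subcx.sup (A B : Subcx K) : Subcx K where
  mem n := {x | x ∈ A.mem n ∨ x ∈ B.mem n}
  face_mem i _ hx := hx.imp (A.face_mem i) (B.face_mem i)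

lemma Subcx.split (A B : Subcx K) {n : ℕ} {c : K.S n →₀ ℤ} (hc : c ∈ (A.sup B).chains n) :
    ∃ a ∈ A.chains n, ∃ b ∈ B.chains n, c = a + b := by
  classical
  refine ⟨c.filter (· ∈ A.mem n), ?_, c.filter (· ∉ A.mem n), ?_,
    (Finsupp.filter_add_filter_not c _).symm⟩
  · rw [Subcx.chains, Finsupp.mem_supported]
    intro x hx
    rw [Finsupp.support_filter] at hx
    simp only [Finset.coe_filter, Set.mem_ofPred_eq] at hx
    exact hx.2
  · rw [Subcx.chains, Finsupp.mem_supported] at hc ⊢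
    intro x hx
    rw [Finsupp.support_filter] at hx
    simp only [Finset.coe_filter, Set.mem_ofPred_eq] at hx
    exact (hc hx.1).resolve_left hx.2

lemma Subcx.mem_inf {A B : Subcx K} {n : ℕ} {c : K.S n →₀ ℤ} (h1 : c ∈ A.chains n)
    (h2 : c ∈ B.chains n) : c ∈ (A.inf B).chains n := by
  rw [Subcx.chains, Finsupp.mem_supported] at h1 h2 ⊢
  exact fun x hx => ⟨h1 hx, h2 hx⟩

lemma Subcx.chains_mono {A B : Subcx K} {n : ℕ} (h : A.mem n ⊆ B.mem n) {c : K.S n →₀ ℤ}
    (hc : c ∈ A.chains n) : c ∈ B.chains n := Finsupp.supported_mono h hc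

/-- Mayer-Vietoris: a union of acyclic subcomplexes with acyclic intersection is acyclic. -/
theorem Subcx.Acyclic.sup {A B : Subcx K} (hA : A.Acyclic) (hB : B.Acyclic)
    (hAB : (A.inf B).Acyclic) : (A.sup B).Acyclic := by
  obtain ⟨⟨p, hp⟩, i0, i1⟩ := hAB
  obtain ⟨-, a0, a1⟩ := hA
  obtain ⟨-, b0, b1⟩ := hB
  simp only [← aug_eq] at i0 a0 b0
  refine ⟨⟨p, Or.inl hp.1⟩, fun c hc h0 => ?_, fun n c hc h0 => ?_⟩
  · rw [← aug_eq] at h0
    obtain ⟨a, ha, b, hb, rfl⟩ := Subcx.split A B hc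
    have he : Finsupp.single p (aug a) ∈ (A.inf B).chains 0 := Finsupp.single_mem_supported ℤ _ hp
    have heA : Finsupp.single p (aug a) ∈ A.chains 0 := Finsupp.single_mem_supported ℤ _ hp.1
    have heB : Finsupp.single p (aug a) ∈ B.chains 0 := Finsupp.single_mem_supported ℤ _ hp.2
    obtain ⟨x, hx, hx'⟩ := a0 (a - Finsupp.single p (aug a)) (Submodule.sub_mem _ ha heA) (by
      rw [map_sub, aug_single, sub_self])
    obtain ⟨y, hy, hy'⟩ := b0 (b + Finsupp.single p (aug a)) (Submodule.add_mem _ hb heB) (by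
      rw [map_add, aug_single, add_comm, ← map_add, h0])
    refine ⟨x + y, Submodule.add_mem _ (Subcx.chains_mono (fun _ => Or.inl) hx)
      (Subcx.chains_mono (fun _ => Or.inr) hy), ?_⟩
    rw [map_add, hx', hy']
    abel
  · obtain ⟨a, ha, b, hb, rfl⟩ := Subcx.split A B hc
    have hz : bdK K ℤ n a ∈ (A.inf B).chains n := by
      apply Subcx.mem_inf (A.bd_mem ha)
      have : bdK K ℤ n a = -bdK K ℤ n b := by
        rw [map_add] at h0
        exact eq_neg_of_add_eq_zero_left h0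
      rw [this]
      exact Submodule.neg_mem _ (B.bd_mem hb)
    obtain ⟨e, he, he'⟩ : ∃ e ∈ (A.inf B).chains (n + 1), bdK K ℤ n e = bdK K ℤ n a := by
      cases n with
      | zero => exact i0 _ hz (aug_bd K a)
      | succ n => exact i1 n _ hz (bdK_bdK K ℤ n a)
    have heA : e ∈ A.chains (n + 1) :=
      Subcx.chains_mono (A := A.inf B) (B := A) (fun _ h => h.1) he
    have heB : e ∈ B.chains (n + 1) :=
      Subcx.chains_mono (A := A.inf B) (B := B) (fun _ h => h.2) he
    obtain ⟨x, hx, hx'⟩ := a1 n (a - e) (Submodule.sub_mem _ ha heA) (by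
      rw [map_sub, he', sub_self])
    obtain ⟨y, hy, hy'⟩ := b1 n (b + e) (Submodule.add_mem _ hb heB) (by
      rw [map_add, he', add_comm, ← map_add, h0])
    refine ⟨x + y, Submodule.add_mem _ (Subcx.chains_mono (fun _ => Or.inl) hx)
      (Subcx.chains_mono (fun _ => Or.inr) hy), ?_⟩
    rw [map_add, hx', hy']
    abel

section map

variable {X : DeltaCx.{w}} (ι : ∀ n, X.S n → K.S n)
  (hι : ∀ (n : ℕ) (i : Fin (n + 2)) (x : X.S (n + 1)), K.d i (ι (n + 1) x) = ι n (X.d i x))

/-- The image of a subcomplex. -/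
def Subcx.image (F : Subcx X) : Subcx K where
  mem n := ι n '' F.mem n
  face_mem i x hx := by
    obtain ⟨y, hy, rfl⟩ := hx
    exact ⟨X.d i y, F.face_mem i hy, (hι _ i y).symm⟩

include hι in
lemma mapDomain_bd (n : ℕ) (c : X.S (n + 1) →₀ ℤ) :
    bdK K ℤ n (Finsupp.mapDomain (ι (n + 1)) c) = Finsupp.mapDomain (ι n) (bdK X ℤ n c) := by
  have h : ∀ c : X.S (n + 1) →₀ ℤ, bdK K ℤ n (Finsupp.mapDomain.addMonoidHom (ι (n + 1)) c) =
      Finsupp.mapDomain.addMonoidHom (M := ℤ) (ι n) (bdK X ℤ n c) := by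
    intro c
    induction c using Finsupp.induction_linear with
    | zero => simp
    | add x y hx hy => rw [map_add, map_add, hx, hy, map_add, map_add]
    | single s m =>
      rw [bdK_single, map_sum]
      have e : Finsupp.mapDomain.addMonoidHom (ι (n + 1)) (Finsupp.single s m) =
        Finsupp.single (ι (n + 1) s) m := Finsupp.mapDomain_single
      rw [e, bdK_single]
      refine Finset.sum_congr rfl fun i _ => ?_
      rw [map_zsmul, hι]
      congr 1
      exact Finsupp.mapDomain_single.symm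
  exact h c

lemma aug_mapDomain {Y Z : Type*} (f : Y → Z) (c : Y →₀ ℤ) :
    aug (Finsupp.mapDomain f c) = aug c := by
  have h : ∀ c : Y →₀ ℤ, aug (Finsupp.mapDomain.addMonoidHom (M := ℤ) f c) = aug c := by
    intro c
    induction c using Finsupp.induction_linear with
    | zero => simp
    | add x y hx hy => rw [map_add, map_add, hx, hy, map_add]
    | single s m =>
      have e : Finsupp.mapDomain.addMonoidHom f (Finsupp.single s m) =
        Finsupp.single (f s) m := Finsupp.mapDomain_single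
      rw [e, aug_single, aug_single]
  exact h c

/-- The image of an acyclic subcomplex under an injective map is acyclic. -/
theorem Subcx.Acyclic.image {F : Subcx X} (hF : F.Acyclic)
    (hinj : ∀ n, Function.Injective (ι n)) : (F.image ι hι).Acyclic := by
  obtain ⟨⟨p, hp⟩, h0, h1⟩ := hF
  simp only [← aug_eq] at h0
  have pull : ∀ n (c : K.S n →₀ ℤ), c ∈ (F.image ι hι).chains n → ∃ c' ∈ F.chains n,
      Finsupp.mapDomain (ι n) c' = c := by
    intro n c hc
    rw [Subcx.chains, Finsupp.mem_supported] at hc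
    have hc' : (c.support : Set (K.S n)) ⊆ ι n '' F.mem n := hc
    refine ⟨Finsupp.comapDomain (ι n) c (hinj n).injOn, ?_, ?_⟩
    · rw [Subcx.chains, Finsupp.mem_supported]
      intro x hx
      simp only [Finsupp.comapDomain_support, Finset.coe_preimage, Set.mem_preimage] at hx
      obtain ⟨y, hy, hxy⟩ := hc' hx
      rwa [← hinj n hxy]
    · exact Finsupp.mapDomain_comapDomain (ι n) (hinj n) c
        (hc'.trans (Set.image_subset_range _ _))
  have push : ∀ n (c : X.S n →₀ ℤ), c ∈ F.chains n →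
      Finsupp.mapDomain (ι n) c ∈ (F.image ι hι).chains n := by
    classical
    intro n c hc
    rw [Subcx.chains, Finsupp.mem_supported] at hc ⊢
    intro x hx
    have := Finsupp.mapDomain_support hx
    rw [Finset.mem_image] at this
    obtain ⟨y, hy, rfl⟩ := this
    exact ⟨y, hc hy, rfl⟩
  refine ⟨⟨ι 0 p, p, hp, rfl⟩, fun c hc hz => ?_, fun n c hc hz => ?_⟩
  · rw [← aug_eq] at hz
    obtain ⟨c', hc', rfl⟩ := pull 0 c hc
    rw [aug_mapDomain] at hz
    obtain ⟨b, hb, hb'⟩ := h0 c' hc' hz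
    exact ⟨_, push 1 b hb, by rw [mapDomain_bd ι hι, hb']⟩
  · obtain ⟨c', hc', rfl⟩ := pull (n + 1) c hc
    rw [mapDomain_bd ι hι] at hz
    have hz' : bdK X ℤ n c' = 0 := Finsupp.mapDomain_injective (hinj n) (by
      rw [hz, Finsupp.mapDomain_zero])
    obtain ⟨b, hb, hb'⟩ := h1 n c' hc' hz'
    exact ⟨_, push (n + 2) b hb, by rw [mapDomain_bd ι hι, hb']⟩

end map

/-- A subcomplex which is acyclic as a Δ-complex is acyclic. -/
lemma Subcx.acyclic_of_toCx (F : Subcx K) (h : LibRefl75.Acyclic F.toCx) : F.Acyclic := by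
  let ι : ∀ n, F.toCx.S n → K.S n := fun n (x : {x : K.S n // x ∈ F.mem n}) => x.1
  have h1 := Subcx.Acyclic.image ι (fun n i x => rfl) (Subcx.top_acyclic_iff.2 h)
    (fun n => Subtype.val_injective)
  have e : (Subcx.top F.toCx).image ι (fun n i x => rfl) = F := by
    apply Subcx.ext
    intro n x
    constructor
    · rintro ⟨y, -, rfl⟩
      exact y.2
    · intro hx
      exact ⟨⟨x, hx⟩, trivial, rfl⟩
  rwa [e] at h1

end Pool.Agent.LibRefl75
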