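import Pool.Agent.LibRefl75.Compare
import Pool.Agent.LibRefl75.DefsW

/-!
Equivariant cohomology of free acyclic Δ-complexes does not depend on the complex.
-/

set_option autoImplicit false

namespace Pool.Agent.LibRefl75

universe u v w x

/-- The permutation action on integral chains. -/
noncomputable def perm {G : Type u} [Group G] {X : Type v} [MulAction G X] (g : G) :
    (X →₀ ℤ) →+ (X →₀ ℤ) := Finsupp.mapDomain.addMonoidHom (fun x => g • x)

section perm

variable {G : Type u} [Group G] {X : Type v} [MulAction G X]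

lemma perm_single (g : G) (x : X) (m : ℤ) :
    perm g (Finsupp.single x m) = Finsupp.single (g • x) m := Finsupp.mapDomain_single

lemma perm_one (c : X →₀ ℤ) : perm (1 : G) c = c := by
  show Finsupp.mapDomain (fun x => (1 : G) • x) c = c
  have : (fun x : X => (1 : G) • x) = id := by funext x; simp
  rw [this, Finsupp.mapDomain_id]

lemma perm_mul (g h : G) (c : X →₀ ℤ) : perm (g * h) c = perm g (perm h c) := by
  show Finsupp.mapDomain (fun x => (g * h) • x) c =
    Finsupp.mapDomain (fun x => g • x) (Finsupp.mapDomain (fun x => h • x) c)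
  rw [← Finsupp.mapDomain_comp]
  congr 1
  funext x
  exact mul_smul g h x

end perm

/-- The extension of a function to integral chains. -/
noncomputable def extZ {X : Type v} {V : Type w} [AddCommGroup V] (c : X → V) :
    (X →₀ ℤ) →+ V := Finsupp.liftAddHom fun x => zmultiplesHom V (c x)

section extZ

variable {X : Type v} {V : Type w} [AddCommGroup V]

lemma extZ_single (c : X → V) (x : X) (m : ℤ) : extZ c (Finsupp.single x m) = m • c x := by
  simp [extZ]

lemma extZ_zero : extZ (0 : X → V) = 0 := by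
  ext x; simp [extZ_single]

lemma extZ_add (c c' : X → V) : extZ (c + c') = extZ c + extZ c' := by
  ext x; simp [extZ_single]

lemma hom_extZ {V' : Type x} [AddCommGroup V'] (f : V →+ V') (c : X → V) (z : X →₀ ℤ) :
    f (extZ c z) = extZ (fun x => f (c x)) z := by
  induction z using Finsupp.induction_linear with
  | zero => simp
  | add x y hx hy => rw [map_add, map_add, hx, hy, map_add]
  | single s m => rw [extZ_single, extZ_single, map_zsmul]

end extZ

/-- The augmentation. -/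
noncomputable def aug {X : Type v} : (X →₀ ℤ) →+ ℤ := extZ fun _ => (1 : ℤ)

lemma aug_eq {X : Type v} (c : X →₀ ℤ) : aug c = c.sum fun _ a => a := by
  show (c.sum fun x a => a • (1 : ℤ)) = c.sum fun _ a => a
  simp

lemma aug_single {X : Type v} (x : X) (m : ℤ) : aug (Finsupp.single x m) = m := by
  rw [aug, extZ_single]; simp

lemma cobV_cobV (K : DeltaCx.{v}) {V : Type w} [AddCommGroup V] {n : ℕ} (c : K.S n → V) :
    cobV K (cobV K c) = 0 := by
  funext x
  exact alt_alt K c x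

lemma extZ_bd (K : DeltaCx.{v}) {V : Type w} [AddCommGroup V] {n : ℕ} (c : K.S n → V)
    (z : K.S (n + 1) →₀ ℤ) : extZ c (bdK K ℤ n z) = extZ (cobV K c) z := by
  induction z using Finsupp.induction_linear with
  | zero => simp
  | add x y hx hy => rw [map_add, map_add, hx, hy, map_add]
  | single s m =>
    rw [bdK_single, map_sum, extZ_single, cobV, Finset.smul_sum]
    refine Finset.sum_congr rfl fun i _ => ?_
    rw [map_zsmul, extZ_single, smul_comm]

lemma aug_bd (K : DeltaCx.{v}) (z : K.S 1 →₀ ℤ) : aug (bdK K ℤ 0 z) = 0 := by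
  rw [aug, extZ_bd]
  have : cobV K (fun _ : K.S 0 => (1 : ℤ)) = 0 := by
    funext x
    simp [cobV, Fin.sum_univ_two]
  rw [this, extZ_zero]
  rfl

lemma perm_bd {G : Type u} [Group G] (D : DeltaCx.{v}) [∀ n, MulAction G (D.S n)]
    (hD : ∀ (n : ℕ) (i : Fin (n + 2)) (g : G) (x : D.S (n + 1)), D.d i (g • x) = g • D.d i x)
    (n : ℕ) (g : G) (c : D.S (n + 1) →₀ ℤ) :
    bdK D ℤ n (perm g c) = perm g (bdK D ℤ n c) := by
  induction c using Finsupp.induction_linear with
  | zero => simp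
  | add x y hx hy => rw [map_add, map_add, hx, hy, map_add, map_add]
  | single s m =>
    rw [perm_single, bdK_single, bdK_single, map_sum]
    refine Finset.sum_congr rfl fun i _ => ?_
    rw [map_zsmul, perm_single, hD]

lemma aug_perm {G : Type u} [Group G] {X : Type v} [MulAction G X] (g : G) (c : X →₀ ℤ) :
    aug (perm g c) = aug c := by
  induction c using Finsupp.induction_linear with
  | zero => simp
  | add x y hx hy => rw [map_add, map_add, hx, hy, map_add]
  | single s m => rw [perm_single, aug_single, aug_single]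

lemma extZ_perm {G : Type u} [Group G] {X : Type v} [MulAction G X] {V : Type w}
    [AddCommGroup V] (τ : G → (V →+ V)) (c : X → V) (hc : ∀ g x, c (g • x) = τ g (c x)) (g : G)
    (z : X →₀ ℤ) : extZ c (perm g z) = τ g (extZ c z) := by
  induction z using Finsupp.induction_linear with
  | zero => simp
  | add x y hx hy => rw [map_add, map_add, hx, hy, map_add, map_add]
  | single s m => rw [perm_single, extZ_single, extZ_single, map_zsmul, hc]

section two

variable {G : Type u} [Group G] (D : DeltaCx.{v}) [∀ n, MulAction G (D.S n)]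
    (hD : ∀ (n : ℕ) (i : Fin (n + 2)) (g : G) (x : D.S (n + 1)), D.d i (g • x) = g • D.d i x)
    (hDf : ∀ (n : ℕ) (g : G) (x : D.S n), g • x = x → g = 1)
    (T : DeltaCx.{w}) [∀ n, MulAction G (T.S n)]
    (hT : ∀ (n : ℕ) (i : Fin (n + 2)) (g : G) (x : T.S (n + 1)), T.d i (g • x) = g • T.d i x)

include hD hDf hT in
/-- Existence of equivariant chain maps from a free complex to an acyclic one. -/
lemma chainMap (hTa : Acyclic T) (m : ℕ) :
    ∃ φ : ∀ n, D.S n → (T.S n →₀ ℤ), (∀ n (g : G) x, φ n (g • x) = perm g (φ n x)) ∧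
      (∀ x, aug (φ 0 x) = 1) ∧
      ∀ n < m, ∀ x, bdK T ℤ n (φ (n + 1) x) =
        ∑ i : Fin (n + 2), (-1 : ℤ) ^ (i : ℕ) • φ n (D.d i x) := by
  obtain ⟨⟨t⟩, h0, h1⟩ := hTa
  obtain ⟨F0, hF0, hF0'⟩ := exists_equivariant (hDf 0)
    (fun g (y : T.S 0 →₀ ℤ) => perm g y) perm_mul (fun _ y => aug y = 1)
    (fun g x y h => by rw [aug_perm, h]) (fun x => ⟨Finsupp.single t 1, aug_single t 1⟩)
  obtain ⟨F, hF, hFe, hFd⟩ := ladder D hD hDf (fun n => T.S n →₀ ℤ) (fun n g => perm g)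
    (fun n => perm_mul) (fun n => bdK T ℤ n) (fun n => perm_bd T hT n) 1 F0
    hF0 (fun n _ => 0) (fun n g x => (map_zero _).symm) m
    (fun _ x => by
      obtain ⟨y, hy⟩ := h0 (∑ i : Fin 2, (-1 : ℤ) ^ (i : ℕ) • F0 (D.d i x)) (by
        rw [← aug_eq, map_sum, Fin.sum_univ_two, map_zsmul, map_zsmul, hF0', hF0']
        simp)
      exact ⟨y, by rw [hy, zero_add, one_smul]⟩)
    (fun n _ x => by simp)
    (fun n _ z hz => h1 n z hz)
  refine ⟨F, hFe, fun x => by rw [hF]; exact hF0' x, fun n hn x => ?_⟩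
  rw [hFd n hn x, zero_add, one_smul]

lemma extZ_chain {m : ℕ} (ψ : ∀ n, T.S n → (D.S n →₀ ℤ))
    (hψ : ∀ n < m, ∀ x, bdK D ℤ n (ψ (n + 1) x) =
        ∑ i : Fin (n + 2), (-1 : ℤ) ^ (i : ℕ) • ψ n (T.d i x)) (n : ℕ) (hn : n < m)
    (c : T.S (n + 1) →₀ ℤ) :
    bdK D ℤ n (extZ (ψ (n + 1)) c) = extZ (ψ n) (bdK T ℤ n c) := by
  rw [hom_extZ, extZ_bd]
  congr 1
  congr 1
  funext x
  exact hψ n hn x

include hD hDf in
/-- The homotopy between the identity and a composite of chain maps. -/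
lemma homotopy (hDa : Acyclic D) (m : ℕ) (φ : ∀ n, D.S n → (T.S n →₀ ℤ))
    (hφe : ∀ n (g : G) x, φ n (g • x) = perm g (φ n x)) (hφ0 : ∀ x, aug (φ 0 x) = 1)
    (hφ : ∀ n < m + 1, ∀ x, bdK T ℤ n (φ (n + 1) x) =
        ∑ i : Fin (n + 2), (-1 : ℤ) ^ (i : ℕ) • φ n (D.d i x))
    (ψ : ∀ n, T.S n → (D.S n →₀ ℤ))
    (hψe : ∀ n (g : G) x, ψ n (g • x) = perm g (ψ n x)) (hψ0 : ∀ x, aug (ψ 0 x) = 1)
    (hψ : ∀ n < m + 1, ∀ x, bdK D ℤ n (ψ (n + 1) x) =
        ∑ i : Fin (n + 2), (-1 : ℤ) ^ (i : ℕ) • ψ n (T.d i x)) :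
    ∃ H : ∀ n, D.S n → (D.S (n + 1) →₀ ℤ), (∀ n (g : G) x, H n (g • x) = perm g (H n x)) ∧
      (∀ x, bdK D ℤ 0 (H 0 x) = Finsupp.single x 1 - extZ (ψ 0) (φ 0 x)) ∧
      ∀ n < m, ∀ x, bdK D ℤ (n + 1) (H (n + 1) x) =
        Finsupp.single x 1 - extZ (ψ (n + 1)) (φ (n + 1) x) -
        ∑ i : Fin (n + 2), (-1 : ℤ) ^ (i : ℕ) • H n (D.d i x) := by
  obtain ⟨-, h0, h1⟩ := hDa
  have hcomp : ∀ n (g : G) (x : D.S n), Finsupp.single (g • x) (1 : ℤ) -
      extZ (ψ n) (φ n (g • x)) = perm g (Finsupp.single x 1 - extZ (ψ n) (φ n x)) := by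
    intro n g x
    rw [map_sub, perm_single, hφe, extZ_perm (fun g => perm g) (ψ n) (hψe n)]
  have hcompd : ∀ n < m + 1, ∀ x : D.S (n + 1), bdK D ℤ n (Finsupp.single x (1 : ℤ) -
      extZ (ψ (n + 1)) (φ (n + 1) x)) = ∑ i : Fin (n + 2), (-1 : ℤ) ^ (i : ℕ) •
        (Finsupp.single (D.d i x) (1 : ℤ) - extZ (ψ n) (φ n (D.d i x))) := by
    intro n hn x
    rw [map_sub, extZ_chain D T ψ hψ n hn, hφ n hn, bdK_single, map_sum,
      ← Finset.sum_sub_distrib]
    refine Finset.sum_congr rfl fun i _ => ?_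
    rw [map_zsmul, smul_sub]
  obtain ⟨F0, hF0, hF0'⟩ := exists_equivariant (hDf 0)
    (fun g (y : D.S 1 →₀ ℤ) => perm g y) perm_mul
    (fun x y => bdK D ℤ 0 y = Finsupp.single x 1 - extZ (ψ 0) (φ 0 x))
    (fun g x y h => by rw [perm_bd D hD, h, hcomp]) (fun x => by
      apply h0
      rw [← aug_eq, map_sub, aug_single, hom_extZ]
      simp only [hψ0]
      show 1 - aug (φ 0 x) = 0
      rw [hφ0, sub_self])
  obtain ⟨F, hF, hFe, hFd⟩ := ladder D hD hDf (fun n => D.S (n + 1) →₀ ℤ) (fun n g => perm g)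
    (fun n => perm_mul) (fun n => bdK D ℤ (n + 1))
    (fun n => perm_bd D hD (n + 1)) (-1) F0
    hF0 (fun n x => Finsupp.single x 1 - extZ (ψ (n + 1)) (φ (n + 1) x))
    (fun n g x => hcomp (n + 1) g x) m
    (fun hm x => by
      apply h1
      rw [map_add, map_zsmul, map_sum, hcompd 0 (by omega)]
      simp only [map_zsmul, hF0']
      rw [neg_one_smul, add_neg_cancel])
    (fun n hn x => by
      rw [hcompd (n + 1) (by omega) x, neg_one_smul, neg_neg])
    (fun n _ z hz => h1 (n + 1) z hz)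
  refine ⟨F, hFe, fun x => by rw [hF]; exact hF0' x, fun n hn x => ?_⟩
  rw [hFd n hn x, neg_one_smul, ← sub_eq_add_neg]

include hD hDf hT in
/-- Vanishing of the equivariant cohomology in degree zero transfers between free acyclic
complexes. -/
theorem transfer_zero (hDa : Acyclic D) (hTa : Acyclic T)
    (hTf : ∀ (n : ℕ) (g : G) (x : T.S n), g • x = x → g = 1) {V : Type x} [AddCommGroup V]
    (τ : G → (V →+ V))
    (hV : ∀ c : T.S 0 → V, (∀ g x, c (g • x) = τ g (c x)) → cobV T c = 0 → c = 0)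
    (c : D.S 0 → V) (hc : ∀ g x, c (g • x) = τ g (c x)) (hc0 : cobV D c = 0) : c = 0 := by
  obtain ⟨φ, hφe, hφ0, hφ⟩ := chainMap D hD hDf T hT hTa 1
  obtain ⟨ψ, hψe, hψ0, hψ⟩ := chainMap T hT hTf D hD hDa 1
  obtain ⟨H, -, hH0, -⟩ := homotopy D hD hDf T hDa 0 φ hφe hφ0 hφ ψ hψe hψ0 hψ
  have h1 : (fun y => extZ c (ψ 0 y)) = 0 := by
    apply hV
    · intro g y
      rw [hψe, extZ_perm τ c hc]
    · funext y
      show ∑ i : Fin 2, (-1 : ℤ) ^ (i : ℕ) • extZ c (ψ 0 (T.d i y)) = 0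
      have h := congrArg (extZ c) (hψ 0 (by omega) y)
      rw [extZ_bd, hc0, extZ_zero, map_sum] at h
      simp only [map_zsmul] at h
      exact h.symm
  funext x
  have h2 := congrArg (extZ c) (hH0 x)
  rw [extZ_bd, hc0, extZ_zero, map_sub, extZ_single, hom_extZ, h1, extZ_zero, one_smul] at h2
  simpa using h2.symm

include hD hDf hT in
/-- Vanishing of the equivariant cohomology in positive degrees transfers between free acyclic
complexes. -/
theorem transfer_succ (hDa : Acyclic D) (hTa : Acyclic T)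
    (hTf : ∀ (n : ℕ) (g : G) (x : T.S n), g • x = x → g = 1) {V : Type x} [AddCommGroup V]
    (τ : G → (V →+ V)) (k : ℕ)
    (hV : ∀ c : T.S (k + 1) → V, (∀ g x, c (g • x) = τ g (c x)) → cobV T c = 0 →
      ∃ b : T.S k → V, (∀ g x, b (g • x) = τ g (b x)) ∧ cobV T b = c)
    (c : D.S (k + 1) → V) (hc : ∀ g x, c (g • x) = τ g (c x)) (hc0 : cobV D c = 0) :
    ∃ b : D.S k → V, (∀ g x, b (g • x) = τ g (b x)) ∧ cobV D b = c := by
  obtain ⟨φ, hφe, hφ0, hφ⟩ := chainMap D hD hDf T hT hTa (k + 2)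
  obtain ⟨ψ, hψe, hψ0, hψ⟩ := chainMap T hT hTf D hD hDa (k + 2)
  obtain ⟨H, hHe, hH0, hH⟩ := homotopy D hD hDf T hDa (k + 1) φ hφe hφ0 hφ ψ hψe hψ0 hψ
  obtain ⟨b', hb'e, hb'⟩ := hV (fun y => extZ c (ψ (k + 1) y)) (by
      intro g y
      rw [hψe, extZ_perm τ c hc]) (by
      funext y
      show ∑ i : Fin (k + 3), (-1 : ℤ) ^ (i : ℕ) • extZ c (ψ (k + 1) (T.d i y)) = 0
      have h := congrArg (extZ c) (hψ (k + 1) (by omega) y)
      rw [extZ_bd, hc0, extZ_zero, map_sum] at h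
      simp only [map_zsmul] at h
      exact h.symm)
  refine ⟨fun x => extZ b' (φ k x) + extZ c (H k x), fun g x => ?_, ?_⟩
  · show extZ b' (φ k (g • x)) + extZ c (H k (g • x)) = τ g (extZ b' (φ k x) + extZ c (H k x))
    rw [hφe, hHe, extZ_perm τ b' hb'e, extZ_perm τ c hc, map_add]
  · funext x
    have h2 := congrArg (extZ c) (hH k (by omega) x)
    rw [extZ_bd, hc0, extZ_zero, map_sub, map_sub, extZ_single, hom_extZ, ← hb', ← extZ_bd,
      hφ k (by omega), one_smul, map_sum, map_sum] at h2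
    show ∑ i : Fin (k + 2), (-1 : ℤ) ^ (i : ℕ) • (extZ b' (φ k (D.d i x)) +
      extZ c (H k (D.d i x))) = c x
    simp only [map_zsmul] at h2
    simp only [smul_add, Finset.sum_add_distrib]
    have h3 : (0 : (D.S (k + 1 + 1) →₀ ℤ) →+ V) (H (k + 1) x) = 0 := rfl
    rw [h3] at h2
    rw [eq_comm, sub_eq_zero, sub_eq_iff_eq_add] at h2
    rw [h2]
    abel

end two

end Pool.Agent.LibRefl75
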